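import Pool.Agent.Lib.P81d4f5.Clifford

set_option autoImplicit false

/-!
The Euler class obstruction: a family of sections of line bundles on a product of spheres whose
weight matrix has non-zero permanent has a common zero.
-/

open MeasureTheory unitInterval
open scoped Matrix

namespace Pool.Agent.Lib.P81d4f5

variable {κ : Type} [Fintype κ] [DecidableEq κ]

/-- coefficient index set for parity `β` -/
abbrev Ei (w : ℕ → κ → ℕ) (K : ℕ) (d : κ → ℕ) (β : Bool) : Type :=
  Σ t : {t : Lam K // sg K t = β}, {n : κ → ℕ // n ∈ box (d + wtL w K t.1)}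

/-- coefficients -/
noncomputable def coef (w : ℕ → κ → ℕ) (K : ℕ) (d : κ → ℕ) (β : Bool) (c : Ei w K d β → ℂ)
    (t : Lam K) (n : κ → ℕ) : ℂ :=
  if h : sg K t = β ∧ n ∈ box (d + wtL w K t) then c ⟨⟨t, h.1⟩, ⟨n, h.2⟩⟩ else 0

/-- the tuple of homogeneous polynomials -/
noncomputable def uu (w : ℕ → κ → ℕ) (K : ℕ) (d : κ → ℕ) (β : Bool) (c : Ei w K d β → ℂ)
    (t : Lam K) : C(κ → S3, ℂ) := U (d + wtL w K t) (coef w K d β c t)

theorem uu_add (w : ℕ → κ → ℕ) (K : ℕ) (d : κ → ℕ) (β : Bool) (c c' : Ei w K d β → ℂ) :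
    uu w K d β (c + c') = uu w K d β c + uu w K d β c' := by
  ext1 t
  rw [Pi.add_apply]
  unfold uu
  rw [U_add]
  congr 1
  ext n
  unfold coef
  split_ifs <;> simp

theorem uu_smul (w : ℕ → κ → ℕ) (K : ℕ) (d : κ → ℕ) (β : Bool) (a : ℂ) (c : Ei w K d β → ℂ) :
    uu w K d β (a • c) = a • uu w K d β c := by
  ext1 t
  rw [Pi.smul_apply]
  unfold uu
  rw [U_smul]
  congr 1
  ext n
  unfold coef
  split_ifs <;> simp

theorem uu_parity {w : ℕ → κ → ℕ} {K : ℕ} {d : κ → ℕ} {β : Bool} (c : Ei w K d β → ℂ)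
    {t : Lam K} (h : sg K t ≠ β) : uu w K d β c t = 0 := by
  unfold uu
  have : coef w K d β c t = fun _ => 0 := by
    ext n; unfold coef; rw [dif_neg]; exact fun h' => h h'.1
  rw [this, U_zero]

theorem uu_pos {w : ℕ → κ → ℕ} {K : ℕ} {d : κ → ℕ} {β : Bool} {c : Ei w K d β → ℂ}
    (h : c ≠ 0) : 0 < ∑ t, ‖T (uu w K d β c t)‖ ^ 2 := by
  obtain ⟨⟨⟨t, hT⟩, ⟨n, hn⟩⟩, hne⟩ := Function.ne_iff.mp h
  apply Finset.sum_pos' (fun _ _ => sq_nonneg _)
  refine ⟨t, Finset.mem_univ _, ?_⟩
  unfold uu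
  rw [norm_sq_U]
  apply Finset.sum_pos' (fun m _ => mul_nonneg (Bn_pos _ _).le (sq_nonneg _))
  refine ⟨n, hn, mul_pos (Bn_pos _ _) ?_⟩
  have : coef w K d β c t n = c ⟨⟨t, hT⟩, ⟨n, hn⟩⟩ := by
    unfold coef; rw [dif_pos ⟨hT, hn⟩]
  rw [this]
  have : c ⟨⟨t, hT⟩, ⟨n, hn⟩⟩ ≠ 0 := hne
  positivity

/-- the compressed Clifford operator -/
noncomputable def Lop (F : ℕ → C(κ → S3, ℂ)) (w : ℕ → κ → ℕ) (K : ℕ) (d : κ → ℕ) (β γ : Bool) :
    (Ei w K d β → ℂ) →ₗ[ℂ] (Ei w K d γ → ℂ) where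
  toFun c p := inner ℂ (T (hm (d + wtL w K p.1.1) p.2.1)) (T ((Dm F K *ᵥ uu w K d β c) p.1.1))
  map_add' c c' := by
    ext p
    rw [uu_add, Matrix.mulVec_add, Pi.add_apply, map_add, inner_add_right]
    rfl
  map_smul' a c := by
    ext p
    rw [uu_smul, Matrix.mulVec_smul, Pi.smul_apply, map_smul, inner_smul_right]
    rfl

theorem card_Ei (w : ℕ → κ → ℕ) (K : ℕ) (d : κ → ℕ) (β : Bool) :
    (Fintype.card (Ei w K d β) : ℤ) =
      ∑ t ∈ Finset.univ.filter (fun t : Lam K => sg K t = β), gA Finset.univ (d + wtL w K t) := by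
  rw [Fintype.card_sigma]
  push_cast
  rw [← Finset.sum_subtype_of_mem (p := fun t : Lam K => sg K t = β)
    (s := Finset.univ.filter (fun t : Lam K => sg K t = β))]
  · simp only [Fintype.card_coe, card_box, gA]
    push_cast
    apply Finset.sum_bij (fun (a : {t : Lam K // sg K t = β}) _ => a)
    · intro a _; simp [a.2]
    · intro a _ b _ h; exact h
    · intro b _; exact ⟨b, Finset.mem_univ _, rfl⟩
    · intro a _; rfl
  · intro t hT
    exact (Finset.mem_filter.mp hT).2

theorem card_Ei_ne (w : ℕ → κ → ℕ) (e : Fin (Fintype.card κ) ≃ κ)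
    (hw : ∀ j : Fin (Fintype.card κ), 1 ≤ w j (e j)) (d : κ → ℕ) :
    Fintype.card (Ei w (Fintype.card κ) d false) ≠ Fintype.card (Ei w (Fintype.card κ) d true) := by
  intro h
  have h2 : (Fintype.card (Ei w (Fintype.card κ) d false) : ℤ) -
      Fintype.card (Ei w (Fintype.card κ) d true) = 0 := by rw [h]; ring
  rw [card_Ei, card_Ei, Finset.sum_filter, Finset.sum_filter, ← Finset.sum_sub_distrib] at h2
  apply alt_ne_zero w e hw d
  unfold alt
  rw [← h2]
  apply Finset.sum_congr rfl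
  intro t _
  cases hT : sg (Fintype.card κ) t <;> simp [sn]

/-- main estimate -/
theorem no_kernel (F : ℕ → C(κ → S3, ℂ)) (w : ℕ → κ → ℕ)
    (hF : ∀ j, Good (fun s => (w j s : ℤ)) (F j))
    (hF' : ∀ j, Good (fun s => -(w j s : ℤ)) (star (F j))) (K : ℕ) (δ : ℝ) (hδ : 0 < δ)
    (hlow : ∀ x, δ ≤ ∑ j ∈ Finset.range K, ‖F j x‖ ^ 2) :
    ∃ d : κ → ℕ, ∀ β : Bool, ∀ c : Ei w K d β → ℂ, Lop F w K d β (!β) c = 0 → c = 0 := by
  -- choose ε
  set N : ℝ := (Fintype.card (Lam K) : ℝ) with hN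
  have hNpos : 0 ≤ N := by positivity
  set ε : ℝ := Real.sqrt (δ / 2) / (N + 1) with hε
  have hεpos : 0 < ε := by positivity
  have hgood := fun t' t => Dm_good F w hF hF' K t' t ε hεpos
  choose d0 hd0 using hgood
  set D : ℕ := ∑ t', ∑ t, d0 t' t with hD
  have hDle : ∀ t' t, d0 t' t ≤ D := fun t' t => by
    calc d0 t' t ≤ ∑ t, d0 t' t := Finset.single_le_sum (f := fun t => d0 t' t) (fun _ _ => Nat.zero_le _) (Finset.mem_univ t)
      _ ≤ D := Finset.single_le_sum (f := fun t' => ∑ t, d0 t' t) (fun _ _ => Nat.zero_le _) (Finset.mem_univ t')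
  obtain ⟨d, hd⟩ : ∃ d : κ → ℕ, ∀ s, D ≤ d s := ⟨fun _ => D, fun _ => le_rfl⟩
  refine ⟨d, fun β c hc => ?_⟩
  by_contra hne
  have hpos := uu_pos hne
  set u := uu w K d β c with hu
  set S : ℝ := ∑ t, ‖T (u t)‖ ^ 2 with hS
  -- upper bound for each component
  have hcomp : ∀ t', ‖T ((Dm F K *ᵥ u) t')‖ ≤ ε * ∑ t, ‖T (u t)‖ := by
    intro t'
    by_cases hpar : sg K t' = β
    · have : (Dm F K *ᵥ u) t' = 0 := by
        simp only [Matrix.mulVec, dotProduct]
        apply Finset.sum_eq_zero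
        intro t _
        by_cases hT : sg K t = β
        · rw [Dm_parity F K t' t (by rw [hpar, hT]), zero_mul]
        · rw [hu, uu_parity c hT, mul_zero]
      rw [this, map_zero, norm_zero]
      positivity
    · have hpar' : sg K t' = !β := by
        cases h1 : sg K t' <;> cases h2 : β <;> simp_all
      have hex : ∀ t, ∃ c', ‖T (Dm F K t' t * u t) - T (U (d + wtL w K t') c')‖ ≤ ε * ‖T (u t)‖ := by
        intro t
        exact hd0 t' t (d + wtL w K t) (d + wtL w K t') (fun s => by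
          have := hDle t' t; have := hd s; simp only [Pi.add_apply]; omega) (fun s => by
          simp only [Pi.add_apply]; push_cast; ring) _
      choose c' hc' using hex
      set h := U (d + wtL w K t') (fun n => ∑ t, c' t n) with hh
      have hsum : h = ∑ t, U (d + wtL w K t') (c' t) := by
        rw [hh]
        unfold U
        rw [Finset.sum_comm]
        apply Finset.sum_congr rfl
        intro n _
        rw [Finset.sum_smul]
      have h1 : ‖T ((Dm F K *ᵥ u) t') - T h‖ ≤ ε * ∑ t, ‖T (u t)‖ := by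
        rw [hsum]
        simp only [Matrix.mulVec, dotProduct, map_sum]
        rw [← Finset.sum_sub_distrib, Finset.mul_sum]
        exact (norm_sum_le _ _).trans (Finset.sum_le_sum fun t _ => hc' t)
      have h2 : inner ℂ (T h) (T ((Dm F K *ᵥ u) t')) = 0 := by
        rw [hh]
        unfold U
        simp only [map_sum, map_smul, sum_inner, inner_smul_left]
        apply Finset.sum_eq_zero
        intro n hn
        have h3 := congrFun hc ⟨⟨t', hpar'⟩, ⟨n, hn⟩⟩
        have h4 : inner ℂ (T (hm (d + wtL w K t') n)) (T ((Dm F K *ᵥ u) t')) = 0 := h3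
        rw [h4, mul_zero]
      have h3 : ‖T ((Dm F K *ᵥ u) t')‖ ^ 2 ≤ ‖T ((Dm F K *ᵥ u) t') - T h‖ ^ 2 := by
        rw [@norm_sub_sq ℂ]
        have : RCLike.re (inner ℂ (T ((Dm F K *ᵥ u) t')) (T h)) = 0 := by
          rw [← inner_conj_symm, h2]; simp
        rw [this]
        nlinarith [sq_nonneg ‖T h‖]
      have h4 : ‖T ((Dm F K *ᵥ u) t')‖ ≤ ‖T ((Dm F K *ᵥ u) t') - T h‖ :=
        (sq_le_sq₀ (norm_nonneg _) (norm_nonneg _)).mp h3
      exact h4.trans h1
  -- total upper bound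
  have hcs : (∑ t, ‖T (u t)‖) ^ 2 ≤ N * S := by
    have := sq_sum_le_card_mul_sum_sq (s := (Finset.univ : Finset (Lam K))) (f := fun t => ‖T (u t)‖)
    simpa [hN, hS] using this
  have hupper : ∑ t', ‖T ((Dm F K *ᵥ u) t')‖ ^ 2 ≤ N * (ε ^ 2 * (N * S)) := by
    calc _ ≤ ∑ t' : Lam K, (ε * ∑ t, ‖T (u t)‖) ^ 2 := by
          apply Finset.sum_le_sum
          intro t' _
          exact pow_le_pow_left₀ (norm_nonneg _) (hcomp t') 2
      _ = N * (ε ^ 2 * (∑ t, ‖T (u t)‖) ^ 2) := by
          rw [Finset.sum_const, nsmul_eq_mul, Finset.card_univ, mul_pow]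
      _ ≤ _ := by gcongr
  -- lower bound
  have hlower : δ * S ≤ ∑ t', ‖T ((Dm F K *ᵥ u) t')‖ ^ 2 := by
    rw [hS, Finset.mul_sum]
    simp_rw [norm_sq_T]
    have hint : ∀ f : C(κ → S3, ℂ), Integrable (fun ω : κ → I × I => ‖f (ptm ω)‖ ^ 2) := by
      intro f
      apply Continuous.integrable_of_hasCompactSupport
      · exact (f.continuous.comp continuous_ptm).norm.pow 2
      · exact HasCompactSupport.of_compactSpace _
    rw [← integral_finsetSum _ (fun t' _ => hint _)]
    simp_rw [sum_norm_sq_identity]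
    rw [← Finset.mul_sum, ← integral_finsetSum _ (fun t' _ => hint _), ← integral_const_mul]
    apply integral_mono
    · apply Integrable.const_mul
      exact integrable_finsetSum _ (fun t' _ => hint _)
    · apply Continuous.integrable_of_hasCompactSupport
      · apply Continuous.mul
        · apply continuous_finsetSum
          intro j _
          exact ((F j).continuous.comp continuous_ptm).norm.pow 2
        · apply continuous_finsetSum
          intro j _
          exact ((u j).continuous.comp continuous_ptm).norm.pow 2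
      · exact HasCompactSupport.of_compactSpace _
    · intro ω
      simp only
      exact mul_le_mul_of_nonneg_right (hlow _) (Finset.sum_nonneg fun _ _ => sq_nonneg _)
  have h5 : N * (ε ^ 2 * (N * S)) ≤ δ / 2 * S := by
    have h6 : ε ^ 2 = (δ / 2) / (N + 1) ^ 2 := by
      rw [hε, div_pow, Real.sq_sqrt (by positivity)]
    have h7 : N * (ε ^ 2 * (N * S)) = (N ^ 2 / (N + 1) ^ 2) * (δ / 2 * S) := by
      rw [h6]; ring
    rw [h7]
    have h8 : N ^ 2 / (N + 1) ^ 2 ≤ 1 := by
      rw [div_le_one (by positivity)]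
      nlinarith
    have h9 : 0 ≤ δ / 2 * S := by positivity
    nlinarith
  have hSpos : 0 < S := hpos
  nlinarith

/-- **Common zeros of sections of line bundles.** -/
theorem exists_common_zero (w : κ → κ → ℕ) (hw : ∀ r, 1 ≤ w r r) (F : κ → C(κ → S3, ℂ))
    (hF : ∀ r, HasWt (fun s => (w r s : ℤ)) (F r)) : ∃ x, ∀ r, F r x = 0 := by
  by_contra hcon
  push Not at hcon
  let e : Fin (Fintype.card κ) ≃ κ := (Fintype.equivFin κ).symm
  have hne : Nonempty κ := ⟨(hcon (fun _ => S3.base)).choose⟩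
  let e' : ℕ → κ := fun j => if h : j < Fintype.card κ then e ⟨j, h⟩ else Classical.arbitrary κ
  have he' : ∀ j : Fin (Fintype.card κ), e' j = e j := fun j => by simp [e']
  let F' : ℕ → C(κ → S3, ℂ) := fun j => F (e' j)
  let w' : ℕ → κ → ℕ := fun j => w (e' j)
  have h1 : ∀ j, Good (fun s => (w' j s : ℤ)) (F' j) := fun j => good_of_hasWt (hF (e' j))
  have h2 : ∀ j, Good (fun s => -(w' j s : ℤ)) (star (F' j)) := fun j =>
    good_of_hasWt (hasWt_star (hF (e' j)))
  -- lower bound by compactness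
  have hcont : Continuous (fun x => ∑ j ∈ Finset.range (Fintype.card κ), ‖F' j x‖ ^ 2) := by
    apply continuous_finsetSum
    intro j _
    exact (F' j).continuous.norm.pow 2
  obtain ⟨x0, -, hx0⟩ := isCompact_univ.exists_isMinOn Set.univ_nonempty hcont.continuousOn
  set δ : ℝ := ∑ j ∈ Finset.range (Fintype.card κ), ‖F' j x0‖ ^ 2 with hδ
  have hδpos : 0 < δ := by
    obtain ⟨r, hr⟩ := hcon x0
    apply Finset.sum_pos' (fun _ _ => sq_nonneg _)
    refine ⟨(e.symm r : ℕ), Finset.mem_range.mpr (e.symm r).2, ?_⟩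
    have : F' (e.symm r) = F r := by
      simp only [F', he', Equiv.apply_symm_apply]
    rw [this]
    positivity
  have hlow : ∀ x, δ ≤ ∑ j ∈ Finset.range (Fintype.card κ), ‖F' j x‖ ^ 2 := fun x =>
    hx0 (Set.mem_univ x)
  obtain ⟨d, hd⟩ := no_kernel F' w' h1 h2 (Fintype.card κ) δ hδpos hlow
  have hcard := card_Ei_ne w' e (fun j => by
    have : w' j (e j) = w (e j) (e j) := by simp only [w', he']
    rw [this]; exact hw _) d
  have hfin : ∀ β : Bool, Module.finrank ℂ (Ei w' (Fintype.card κ) d β → ℂ) =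
      Fintype.card (Ei w' (Fintype.card κ) d β) := fun β => Module.finrank_pi ℂ
  have hle : ∀ β : Bool, Fintype.card (Ei w' (Fintype.card κ) d β) ≤
      Fintype.card (Ei w' (Fintype.card κ) d (!β)) := by
    intro β
    by_contra hlt
    push Not at hlt
    rw [← hfin, ← hfin] at hlt
    apply LinearMap.ker_ne_bot_of_finrank_lt (f := Lop F' w' (Fintype.card κ) d β (!β)) hlt
    rw [LinearMap.ker_eq_bot']
    exact hd β
  have h3 := hle false
  have h4 := hle true
  simp only [Bool.not_false, Bool.not_true] at h3 h4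
  exact hcard (le_antisymm h3 h4)

end Pool.Agent.Lib.P81d4f5
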