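import Mathlib

set_option autoImplicit false

/-!
The unit sphere of `ℂ²`, the torus action, and a gauge-fixed probability parametrisation.
-/

open MeasureTheory unitInterval

namespace Pool.Agent.Lib.P81d4f5

/-- The unit sphere of `ℂ²`. -/
def S3 : Type := {v : Fin 2 → ℂ // ‖v 0‖ ^ 2 + ‖v 1‖ ^ 2 = 1}

namespace S3

noncomputable instance : TopologicalSpace S3 := instTopologicalSpaceSubtype

instance : T2Space S3 := inferInstanceAs (T2Space {v : Fin 2 → ℂ // ‖v 0‖ ^ 2 + ‖v 1‖ ^ 2 = 1})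

instance : SecondCountableTopology S3 :=
  inferInstanceAs (SecondCountableTopology {v : Fin 2 → ℂ // ‖v 0‖ ^ 2 + ‖v 1‖ ^ 2 = 1})

instance : CompactSpace S3 := by
  have key : IsCompact {v : Fin 2 → ℂ | ‖v 0‖ ^ 2 + ‖v 1‖ ^ 2 = 1} := by
   apply Metric.isCompact_of_isClosed_isBounded
   · exact isClosed_eq (by fun_prop) continuous_const
   · rw [Metric.isBounded_iff_subset_closedBall 0]
     refine ⟨1, fun v hv => ?_⟩
     simp only [Set.mem_ofPred_eq] at hv
     rw [mem_closedBall_zero_iff, pi_norm_le_iff_of_nonneg zero_le_one]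
     intro i
     fin_cases i
     · have : ‖v 0‖ ^ 2 ≤ 1 := by nlinarith [sq_nonneg ‖v 1‖]
       simpa using (abs_le_one_iff_mul_self_le_one.mpr (by nlinarith) : |‖v 0‖| ≤ 1)
     · have : ‖v 1‖ ^ 2 ≤ 1 := by nlinarith [sq_nonneg ‖v 0‖]
       simpa using (abs_le_one_iff_mul_self_le_one.mpr (by nlinarith) : |‖v 1‖| ≤ 1)
  exact isCompact_iff_compactSpace.mp key

/-- coordinate functions -/
def co (a : Fin 2) (v : S3) : ℂ := v.1 a

@[fun_prop]
theorem continuous_co (a : Fin 2) : Continuous (co a) :=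
  (continuous_apply a).comp continuous_subtype_val

theorem ext {v w : S3} (h : ∀ a, co a v = co a w) : v = w := Subtype.ext (funext h)

theorem sum_sq (v : S3) : ‖co 0 v‖ ^ 2 + ‖co 1 v‖ ^ 2 = 1 := v.2

theorem sum_sq' (v : S3) : ∑ a, ‖co a v‖ ^ 2 = 1 := by
  rw [Fin.sum_univ_two]; exact v.2

theorem sum_conj (v : S3) : ∑ a, co a v * (starRingEnd ℂ) (co a v) = 1 := by
  have h := sum_sq' v
  have : ∀ a, co a v * (starRingEnd ℂ) (co a v) = ((‖co a v‖ ^ 2 : ℝ) : ℂ) := by
    intro a; rw [Complex.mul_conj, Complex.normSq_eq_norm_sq]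
  simp_rw [this]
  rw [← Complex.ofReal_sum, h]; simp

theorem norm_co_le (a : Fin 2) (v : S3) : ‖co a v‖ ≤ 1 := by
  have h := sum_sq v
  have h0 : ‖co a v‖ ^ 2 ≤ 1 := by
    fin_cases a
    · simp only [Fin.zero_eta]; nlinarith [sq_nonneg ‖co 1 v‖]
    · simp only [Fin.mk_one]; nlinarith [sq_nonneg ‖co 0 v‖]
  nlinarith [norm_nonneg (co a v)]

/-- the base point `(1,0)` -/
def base : S3 := ⟨![1, 0], by simp⟩

instance : Nonempty S3 := ⟨base⟩
instance : Inhabited S3 := ⟨base⟩

/-- rotation by a phase -/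
def rot (c : Circle) (v : S3) : S3 := ⟨fun a => c * v.1 a, by
  have := v.2
  simpa [norm_mul, Circle.norm_coe] using this⟩

@[simp] theorem co_rot (c : Circle) (v : S3) (a : Fin 2) : co a (rot c v) = c * co a v := rfl

theorem continuous_rot (c : Circle) : Continuous (rot c) := by
  apply Continuous.subtype_mk
  exact continuous_pi fun a => continuous_const.mul ((continuous_apply a).comp continuous_subtype_val)

/-- the gauge-fixed parametrisation of the sphere -/
noncomputable def pt (p : I × I) : S3 :=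
  ⟨![((√(p.1 : ℝ) : ℝ) : ℂ), ((√(1 - (p.1 : ℝ)) : ℝ) : ℂ) * Complex.exp (2 * Real.pi * Complex.I * (p.2 : ℝ))], by
    have h1 : (0:ℝ) ≤ p.1 := p.1.2.1
    have h2 : (0:ℝ) ≤ 1 - p.1 := by linarith [p.1.2.2]
    have h3 : ‖Complex.exp (2 * Real.pi * Complex.I * (p.2 : ℝ))‖ = 1 := by
      rw [show (2 * Real.pi * Complex.I * (p.2 : ℝ) : ℂ) = ((2 * Real.pi * (p.2 : ℝ) : ℝ) : ℂ) * Complex.I by
        push_cast; ring]
      exact Complex.norm_exp_ofReal_mul_I _
    simp only [Matrix.cons_val_zero, Matrix.cons_val_one, norm_mul, h3, mul_one, Complex.norm_real,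
      Real.norm_eq_abs, sq_abs, Real.sq_sqrt h1, Real.sq_sqrt h2]
    ring⟩

theorem continuous_pt : Continuous pt := by
  apply Continuous.subtype_mk
  apply continuous_pi
  intro a
  fin_cases a
  · simp only [Fin.zero_eta, Matrix.cons_val_zero]; fun_prop
  · simp only [Fin.mk_one, Matrix.cons_val_one]
    fun_prop

theorem co_pt_zero (p : I × I) : co 0 (pt p) = ((√(p.1 : ℝ) : ℝ) : ℂ) := rfl
theorem co_pt_one (p : I × I) : co 1 (pt p) =
  ((√(1 - (p.1 : ℝ)) : ℝ) : ℂ) * Complex.exp (2 * Real.pi * Complex.I * (p.2 : ℝ)) := rfl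

end S3

/-- Beta integral for natural exponents. -/
theorem beta_nat (b : ℕ) : ∀ a : ℕ, ∫ t in (0:ℝ)..1, t ^ a * (1 - t) ^ b =
    (a.factorial * b.factorial : ℝ) / (a + b + 1).factorial := by
  induction b with
  | zero =>
    intro a
    simp [integral_pow, Nat.factorial_succ]
    field_simp
  | succ b ih =>
    intro a
    have h1 : ∀ t : ℝ, t ^ a * (1 - t) ^ (b + 1) = t ^ a * (1 - t) ^ b - t ^ (a+1) * (1 - t) ^ b := by
      intro t; ring
    simp_rw [h1]
    rw [intervalIntegral.integral_sub, ih a, ih (a+1)]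
    · have h2 : (a + 1 + b + 1).factorial = (a + b + 2) * (a + b + 1).factorial := by
        rw [show a + 1 + b + 1 = (a + b + 1) + 1 by ring, Nat.factorial_succ]
      have h3 : (a + (b + 1) + 1).factorial = (a + b + 2) * (a + b + 1).factorial := by
        rw [show a + (b + 1) + 1 = (a + b + 1) + 1 by ring, Nat.factorial_succ]
      rw [h2, h3, Nat.factorial_succ a, Nat.factorial_succ b]
      push_cast
      have := Nat.factorial_ne_zero (a + b + 1)
      field_simp
      ring
    · exact (Continuous.intervalIntegrable (by fun_prop) _ _)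
    · exact (Continuous.intervalIntegrable (by fun_prop) _ _)

theorem integral_I_complex (f : ℝ → ℂ) : ∫ t : I, f (t : ℝ) = ∫ t in (0:ℝ)..1, f t := by
  have h := (unitInterval.measurePreserving_coe).integral_comp
    unitInterval.measurableEmbedding_coe f
  rw [h, intervalIntegral.integral_of_le zero_le_one, integral_Icc_eq_integral_Ioc]

theorem integral_I_exp (k : ℤ) :
    ∫ t : I, Complex.exp (2 * Real.pi * Complex.I * k * (t : ℝ)) = if k = 0 then 1 else 0 := by
  rw [integral_I_complex (fun t => Complex.exp (2 * Real.pi * Complex.I * k * (t : ℝ)))]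
  split_ifs with hk
  · simp [hk]
  · have hc : (2 * Real.pi * Complex.I * k : ℂ) ≠ 0 := by
      simp [Real.pi_ne_zero, hk, Complex.I_ne_zero]
    rw [integral_exp_mul_complex hc]
    have h1 : Complex.exp (2 * Real.pi * Complex.I * k * ((1:ℝ):ℂ)) = 1 := by
      rw [show (2 * Real.pi * Complex.I * k * ((1:ℝ):ℂ) : ℂ) = k * (2 * Real.pi * Complex.I) by
        push_cast; ring]
      exact Complex.exp_int_mul_two_pi_mul_I k
    rw [h1]
    simp

theorem integral_I_beta (a b : ℕ) : ∫ t : I, (((t:ℝ) ^ a * (1 - (t:ℝ)) ^ b : ℝ) : ℂ) =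
    (((a.factorial * b.factorial : ℝ) / (a + b + 1).factorial : ℝ) : ℂ) := by
  rw [integral_I_complex (fun t => ((t ^ a * (1 - t) ^ b : ℝ) : ℂ)), ← beta_nat b a]
  exact intervalIntegral.integral_ofReal

/-- the moment constants -/
noncomputable def bet (a b : ℕ) : ℝ := (a.factorial * b.factorial : ℝ) / (a + b + 1).factorial

theorem bet_pos (a b : ℕ) : 0 < bet a b := by
  unfold bet; positivity

theorem bet_succ_left (a b : ℕ) : bet (a+1) b = (a + 1) / (a + b + 2) * bet a b := by
  unfold bet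
  rw [show a + 1 + b + 1 = (a + b + 1) + 1 by ring, Nat.factorial_succ (a + b + 1), Nat.factorial_succ a]
  push_cast
  have := Nat.factorial_ne_zero (a + b + 1)
  field_simp
  ring

theorem bet_succ_right (a b : ℕ) : bet a (b+1) = (b + 1) / (a + b + 2) * bet a b := by
  unfold bet
  rw [show a + (b + 1) + 1 = (a + b + 1) + 1 by ring, Nat.factorial_succ (a + b + 1), Nat.factorial_succ b]
  push_cast
  have := Nat.factorial_ne_zero (a + b + 1)
  field_simp
  ring

/-- orthogonality of monomials of equal degree on one sphere -/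
theorem integral_mono_one (a b a' b' : ℕ) (h : a + b = a' + b') :
    ∫ p : I × I, (S3.co 0 (S3.pt p) ^ a' * S3.co 1 (S3.pt p) ^ b') *
      (starRingEnd ℂ) (S3.co 0 (S3.pt p) ^ a * S3.co 1 (S3.pt p) ^ b) =
    if b = b' then (bet a b : ℂ) else 0 := by
  have key : ∀ p : I × I, (S3.co 0 (S3.pt p) ^ a' * S3.co 1 (S3.pt p) ^ b') *
      (starRingEnd ℂ) (S3.co 0 (S3.pt p) ^ a * S3.co 1 (S3.pt p) ^ b) =
      (((√(p.1 : ℝ) ^ (a + a') * √(1 - (p.1:ℝ)) ^ (b + b') : ℝ)) : ℂ) *
        Complex.exp (2 * Real.pi * Complex.I * ((b' : ℤ) - (b : ℤ) : ℤ) * (p.2 : ℝ)) := by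
    intro p
    rw [S3.co_pt_zero, S3.co_pt_one]
    simp only [map_mul, map_pow, Complex.conj_ofReal, ← Complex.exp_conj]
    have e1 : (2:ℂ) * (Real.pi:ℂ) * -Complex.I * ((p.2:ℝ):ℂ) = -(2 * Real.pi * Complex.I * (p.2:ℝ)) := by ring
    simp only [map_ofNat, Complex.conj_I, e1]
    have e2 : Complex.exp (2 * Real.pi * Complex.I * ((b' : ℤ) - (b : ℤ) : ℤ) * (p.2 : ℝ)) =
      Complex.exp (2 * Real.pi * Complex.I * (p.2 : ℝ)) ^ b' *
      Complex.exp (-(2 * Real.pi * Complex.I * (p.2 : ℝ))) ^ b := by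
      rw [← Complex.exp_nat_mul, ← Complex.exp_nat_mul, ← Complex.exp_add]
      congr 1
      push_cast
      ring
    rw [e2]
    push_cast
    ring
  simp_rw [key]
  have h2 := MeasureTheory.integral_prod_mul (μ := (volume : Measure I)) (ν := (volume : Measure I))
    (fun t : I => (((√(t : ℝ) ^ (a + a') * √(1 - (t:ℝ)) ^ (b + b') : ℝ)) : ℂ))
    (fun t : I => Complex.exp (2 * Real.pi * Complex.I * ((b' : ℤ) - (b : ℤ) : ℤ) * (t : ℝ)))
  have h3 : (volume : Measure (I × I)) = (volume : Measure I).prod volume := rfl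
  rw [h3, h2, integral_I_exp]
  split_ifs with h4 h5 h5
  · have hb : b = b' := h5
    have ha : a = a' := by omega
    subst hb; subst ha
    rw [mul_one, bet, ← integral_I_beta]
    congr 1
    ext t
    have h1 : (0:ℝ) ≤ t := t.2.1
    have h2 : (0:ℝ) ≤ 1 - t := by linarith [t.2.2]
    congr 1
    rw [← two_mul, ← two_mul, pow_mul, pow_mul, Real.sq_sqrt h1, Real.sq_sqrt h2]
  · exfalso; apply h5; omega
  · exfalso; apply h4; omega
  · simp

end Pool.Agent.Lib.P81d4f5
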