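import Mathlib

/-!
Matrix algebras over the complex numbers as C*-algebras, with a single source of instances.
-/

open scoped ComplexOrder

namespace Pool.Agent.Lib.P81d4f5

/-- complex matrices as a C*-algebra -/
def MJ (J : Type) [Fintype J] [DecidableEq J] : Type := CStarMatrix J J ℂ

variable {J : Type} [Fintype J] [DecidableEq J]

noncomputable instance instCStarAlgebraMJ : CStarAlgebra (MJ J) :=
  inferInstanceAs (CStarAlgebra (CStarMatrix J J ℂ))

namespace MJ

/-- entries -/
def e (M : MJ J) (i j : J) : ℂ := M i j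

/-- constructor -/
def mk (f : J → J → ℂ) : MJ J := CStarMatrix.ofMatrix (Matrix.of f)

theorem mk_e (f : J → J → ℂ) (i j : J) : (mk f).e i j = f i j := rfl

theorem ext {M N : MJ J} (h : ∀ i j, M.e i j = N.e i j) : M = N := by
  have : (M : CStarMatrix J J ℂ) = N := CStarMatrix.ext h
  exact this

theorem e_mul (M N : MJ J) (i j : J) : (M * N).e i j = ∑ k, M.e i k * N.e k j :=
  CStarMatrix.mul_apply (M := (M : CStarMatrix J J ℂ)) (N := (N : CStarMatrix J J ℂ))

theorem e_add (M N : MJ J) (i j : J) : (M + N).e i j = M.e i j + N.e i j := rfl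

theorem e_sub (M N : MJ J) (i j : J) : (M - N).e i j = M.e i j - N.e i j := rfl

theorem e_zero (i j : J) : (0 : MJ J).e i j = 0 := rfl

theorem e_one (i j : J) : (1 : MJ J).e i j = if i = j then 1 else 0 := rfl

theorem e_star (M : MJ J) (i j : J) : (star M).e i j = star (M.e j i) := rfl

theorem e_smul (c : ℂ) (M : MJ J) (i j : J) : (c • M).e i j = c * M.e i j := rfl

theorem e_algebraMap (c : ℂ) (i j : J) :
    (algebraMap ℂ (MJ J) c).e i j = if i = j then c else 0 := by
  rw [Algebra.algebraMap_eq_smul_one, e_smul, e_one]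
  split_ifs <;> simp

theorem e_sum {κ : Type*} (s : Finset κ) (f : κ → MJ J) (i j : J) :
    (∑ k ∈ s, f k).e i j = ∑ k ∈ s, (f k).e i j := by
  classical
  induction s using Finset.induction_on with
  | empty => simp [e_zero]
  | insert a s ha ih => rw [Finset.sum_insert ha, Finset.sum_insert ha, e_add, ih]

theorem continuous_e (i j : J) : Continuous (fun M : MJ J => M.e i j) := by
  have h : Continuous (fun M : Matrix J J ℂ => M i j) :=
    (continuous_apply j).comp (continuous_apply i)
  exact h

theorem continuous_of_e {Y : Type*} [TopologicalSpace Y] {f : Y → MJ J}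
    (h : ∀ i j, Continuous fun y => (f y).e i j) : Continuous f := by
  have h2 : Continuous (fun y => (f y : Matrix J J ℂ)) :=
    continuous_pi fun i => continuous_pi fun j => h i j
  exact h2

theorem norm_e_le (M : MJ J) (i j : J) : ‖M.e i j‖ ≤ ‖M‖ :=
  CStarMatrix.norm_entry_le_norm (M := (M : CStarMatrix J J ℂ))

/-- underlying matrix -/
def toM (M : MJ J) : Matrix J J ℂ := M

/-- from a matrix -/
def ofM (M : Matrix J J ℂ) : MJ J := M

theorem ofM_mul (M N : Matrix J J ℂ) : ofM (M * N) = ofM M * ofM N := rfl
theorem ofM_add (M N : Matrix J J ℂ) : ofM (M + N) = ofM M + ofM N := rfl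
theorem ofM_star (M : Matrix J J ℂ) : ofM (Matrix.conjTranspose M) = star (ofM M) := rfl
theorem toM_mul (M N : MJ J) : toM (M * N) = toM M * toM N := rfl
theorem toM_add (M N : MJ J) : toM (M + N) = toM M + toM N := rfl
theorem toM_star (M : MJ J) : toM (star M) = Matrix.conjTranspose (toM M) := rfl
theorem ofM_e (M : Matrix J J ℂ) (i j : J) : (ofM M).e i j = M i j := rfl
theorem toM_apply (M : MJ J) (i j : J) : toM M i j = M.e i j := rfl

instance : SecondCountableTopology (MJ J) :=
  inferInstanceAs (SecondCountableTopology (J → J → ℂ))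

end MJ

variable {X : Type} [TopologicalSpace X] [CompactSpace X]

noncomputable example : CStarAlgebra C(X, MJ J) := inferInstance
noncomputable example (s : StarSubalgebra ℂ C(X, MJ J)) [IsClosed (s : Set C(X, MJ J))] :
    CStarAlgebra s := inferInstance

end Pool.Agent.Lib.P81d4f5
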