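import Pool.Agent.Lib.P81d4f5.Obstruct
import Pool.Agent.Lib.P81d4f5.MJ
import Pool.Agent.Lib.CStarLim.Limit

/-!
Building blocks of the inductive system: covariant matrix valued functions on a product of
spheres, and the connecting maps.
-/

namespace Pool.Agent.Lib.P81d4f5

section Chi

variable {X : Type}

/-- the character of a set of coordinates -/
noncomputable def chi (w : Finset X) (c : X → Circle) : ℂ := ∏ s ∈ w, (c s : ℂ)

theorem circle_mul_star (c : Circle) : (c : ℂ) * star (c : ℂ) = 1 := by
  rw [Complex.star_def, Complex.mul_conj, Circle.normSq_coe]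
  simp

theorem chi_mul_star (w : Finset X) (c : X → Circle) : chi w c * star (chi w c) = 1 := by
  rw [chi, star_prod, ← Finset.prod_mul_distrib]
  exact Finset.prod_eq_one fun s _ => circle_mul_star _

theorem star_mul_chi (w : Finset X) (c : X → Circle) : star (chi w c) * chi w c = 1 := by
  rw [mul_comm, chi_mul_star]

theorem chi_empty (c : X → Circle) : chi (∅ : Finset X) c = 1 := by simp [chi]

end Chi

section Balg

variable {X : Type} {J : Type} [Fintype J] [DecidableEq J]

/-- the algebra of covariant matrix valued functions -/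
noncomputable def Balg (wt : J → Finset X) : StarSubalgebra ℂ C(X → S3, MJ J) where
  carrier := {f | ∀ (c : X → Circle) (x : X → S3) (i j : J),
    (f (rotm c x)).e i j = chi (wt i) c * star (chi (wt j) c) * (f x).e i j}
  mul_mem' {f g} hf hg c x i j := by
    rw [ContinuousMap.mul_apply, ContinuousMap.mul_apply, MJ.e_mul, MJ.e_mul, Finset.mul_sum]
    refine Finset.sum_congr rfl fun k _ => ?_
    rw [hf c x i k, hg c x k j]
    calc chi (wt i) c * star (chi (wt k) c) * (f x).e i k *
          (chi (wt k) c * star (chi (wt j) c) * (g x).e k j)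
        = (star (chi (wt k) c) * chi (wt k) c) *
          (chi (wt i) c * star (chi (wt j) c) * ((f x).e i k * (g x).e k j)) := by ring
      _ = _ := by rw [star_mul_chi, one_mul]
  add_mem' {f g} hf hg c x i j := by
    rw [ContinuousMap.add_apply, ContinuousMap.add_apply, MJ.e_add, MJ.e_add, hf, hg, mul_add]
  algebraMap_mem' r c x i j := by
    rw [Algebra.algebraMap_eq_smul_one, ContinuousMap.smul_apply, ContinuousMap.smul_apply,
      ContinuousMap.one_apply, ContinuousMap.one_apply, MJ.e_smul, MJ.e_one]
    split_ifs with h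
    · rw [h, chi_mul_star, one_mul]
    · simp
  star_mem' {f} hf c x i j := by
    rw [ContinuousMap.star_apply, ContinuousMap.star_apply, MJ.e_star,
      MJ.e_star, hf, star_mul', star_mul', star_star]
    ring

theorem mem_Balg {wt : J → Finset X} {f : C(X → S3, MJ J)} :
    f ∈ Balg wt ↔ ∀ (c : X → Circle) (x : X → S3) (i j : J),
      (f (rotm c x)).e i j = chi (wt i) c * star (chi (wt j) c) * (f x).e i j := Iff.rfl

instance isClosed_Balg (wt : J → Finset X) :
    IsClosed ((Balg wt : StarSubalgebra ℂ C(X → S3, MJ J)) : Set C(X → S3, MJ J)) := by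
  have : ((Balg wt : StarSubalgebra ℂ C(X → S3, MJ J)) :
      Set C(X → S3, MJ J)) = ⋂ (c : X → Circle) (x : X → S3) (i : J) (j : J),
        {f | (f (rotm c x)).e i j = chi (wt i) c * star (chi (wt j) c) * (f x).e i j} := by
    ext f
    simp only [SetLike.mem_coe, mem_Balg, Set.mem_iInter, Set.mem_ofPred_eq]
  rw [this]
  refine isClosed_iInter fun c => isClosed_iInter fun x => isClosed_iInter fun i =>
    isClosed_iInter fun j => isClosed_eq ?_ ?_
  · exact (MJ.continuous_e i j).comp (continuous_eval_const _)
  · exact continuous_const.mul ((MJ.continuous_e i j).comp (continuous_eval_const _))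

noncomputable instance instCStarAlgebraBalg (wt : J → Finset X) : CStarAlgebra (Balg wt) :=
  StarSubalgebra.cstarAlgebra (Balg wt)

end Balg

section Step

variable {X : Type} {J : Type} [Fintype J] [DecidableEq J]
variable {G : Type} [Group G] [Fintype G] [DecidableEq G]

/-- block diagonal matrices -/
noncomputable def blk (l : ℕ) (M : MJ J) (R : G → MJ J) :
    MJ (J ⊕ (J × G × Fin l)) :=
  MJ.ofM (Matrix.fromBlocks M.toM 0 0 (Matrix.blockDiagonal fun p : G × Fin l => (R p.1).toM))

theorem blk_inl_inl (l : ℕ) (M : MJ J) (R : G → MJ J) (i j : J) :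
    (blk l M R).e (Sum.inl i) (Sum.inl j) = M.e i j := rfl

theorem blk_inl_inr (l : ℕ) (M : MJ J) (R : G → MJ J) (i : J)
    (q : J × G × Fin l) : (blk l M R).e (Sum.inl i) (Sum.inr q) = 0 := rfl

theorem blk_inr_inl (l : ℕ) (M : MJ J) (R : G → MJ J) (i : J)
    (q : J × G × Fin l) : (blk l M R).e (Sum.inr q) (Sum.inl i) = 0 := rfl

theorem blk_inr_inr (l : ℕ) (M : MJ J) (R : G → MJ J)
    (p q : J × G × Fin l) : (blk l M R).e (Sum.inr p) (Sum.inr q) =
      if p.2 = q.2 then (R p.2.1).e p.1 q.1 else 0 := by
  rcases p with ⟨p, c⟩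
  rcases q with ⟨q, d⟩
  rfl

theorem blk_mul (l : ℕ) (M M' : MJ J) (R R' : G → MJ J) :
    blk l (M * M') (fun c => R c * R' c) = blk l M R * blk l M' R' := by
  unfold blk
  rw [← MJ.ofM_mul, Matrix.fromBlocks_multiply, ← Matrix.blockDiagonal_mul]
  simp only [Matrix.zero_mul, Matrix.mul_zero, add_zero, zero_add, MJ.toM_mul]

theorem blk_add (l : ℕ) (M M' : MJ J) (R R' : G → MJ J) :
    blk l (M + M') (fun c => R c + R' c) = blk l M R + blk l M' R' := by
  unfold blk
  rw [← MJ.ofM_add, Matrix.fromBlocks_add, ← Matrix.blockDiagonal_add]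
  simp only [add_zero, MJ.toM_add]
  rfl

theorem blk_star (l : ℕ) (M : MJ J) (R : G → MJ J) :
    blk l (star M) (fun c => star (R c)) = star (blk l M R) := by
  unfold blk
  rw [← MJ.ofM_star, Matrix.fromBlocks_conjTranspose, Matrix.blockDiagonal_conjTranspose]
  simp only [Matrix.conjTranspose_zero, MJ.toM_star]

theorem blk_algebraMap (l : ℕ) (r : ℂ) :
    blk l (algebraMap ℂ (MJ J) r) (fun _ : G => algebraMap ℂ (MJ J) r) =
      algebraMap ℂ (MJ (J ⊕ (J × G × Fin l))) r := by
  refine MJ.ext fun i j => ?_
  rcases i with i | i <;> rcases j with j | j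
  · rw [blk_inl_inl, MJ.e_algebraMap, MJ.e_algebraMap]
    simp
  · rw [blk_inl_inr, MJ.e_algebraMap]
    simp
  · rw [blk_inr_inl, MJ.e_algebraMap]
    simp
  · rw [blk_inr_inr, MJ.e_algebraMap, MJ.e_algebraMap]
    rcases i with ⟨p, c⟩
    rcases j with ⟨q, d⟩
    by_cases h1 : c = d <;> by_cases h2 : p = q <;> simp [h1, h2]

variable (l : ℕ) (wt : J → Finset X) (N : Finset X) (x₀ : X → S3)

/-- the weights on the next level -/
def nextWt (G : Type) : J ⊕ (J × G × Fin l) → Finset X := Sum.elim wt (fun _ => N)

variable {wt}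

/-- the underlying function of the connecting map -/
noncomputable def stepFun (f : G → Balg wt) (b : G) : Balg (nextWt l wt N G) :=
  ⟨⟨fun x => blk l ((f b : C(X → S3, MJ J)) x)
      (fun c => (f (b * c) : C(X → S3, MJ J)) x₀), by
      refine MJ.continuous_of_e fun i j => ?_
      rcases i with i | i <;> rcases j with j | j
      · exact (MJ.continuous_e i j).comp (f b).1.continuous
      · exact continuous_const
      · exact continuous_const
      · simp only [blk_inr_inr]
        exact continuous_const⟩, by
    intro c x i j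
    simp only [ContinuousMap.coe_mk]
    rcases i with i | i <;> rcases j with j | j
    · simp only [blk_inl_inl]
      exact (f b).2 c x i j
    · simp only [blk_inl_inr, mul_zero]
    · simp only [blk_inr_inl, mul_zero]
    · simp only [blk_inr_inr, nextWt, Sum.elim_inr, chi_mul_star, one_mul]⟩

theorem stepFun_apply (f : G → Balg wt) (b : G) (x : X → S3) :
    (stepFun l N x₀ f b).1 x = blk l ((f b).1 x) (fun c => (f (b * c)).1 x₀) := rfl

theorem Balg_ext {wt : J → Finset X} {f g : Balg wt} (h : ∀ x, f.1 x = g.1 x) : f = g :=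
  Subtype.ext (ContinuousMap.ext h)

theorem Balg_mul (wt : J → Finset X) (f g : Balg wt) (x : X → S3) :
    (f * g).1 x = f.1 x * g.1 x := rfl
theorem Balg_add (wt : J → Finset X) (f g : Balg wt) (x : X → S3) :
    (f + g).1 x = f.1 x + g.1 x := rfl
theorem Balg_star (wt : J → Finset X) (f : Balg wt) (x : X → S3) :
    (star f).1 x = star (f.1 x) := rfl
theorem Balg_one (wt : J → Finset X) (x : X → S3) : (1 : Balg wt).1 x = 1 := rfl
theorem Balg_zero (wt : J → Finset X) (x : X → S3) : (0 : Balg wt).1 x = 0 := rfl
theorem Balg_smul (wt : J → Finset X) (c : ℂ) (f : Balg wt) (x : X → S3) :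
    (c • f).1 x = c • f.1 x := rfl
theorem Balg_sum (wt : J → Finset X) {κ : Type*} (s : Finset κ) (f : κ → Balg wt) (x : X → S3) :
    (∑ k ∈ s, f k).1 x = ∑ k ∈ s, (f k).1 x := by
  classical
  induction s using Finset.induction_on with
  | empty => simp [Balg_zero]
  | insert a s ha ih => rw [Finset.sum_insert ha, Finset.sum_insert ha, Balg_add, ih]

/-- the connecting map -/
noncomputable def step : (G → Balg wt) →⋆ₐ[ℂ] (G → Balg (nextWt l wt N G)) where
  toFun f b := stepFun l N x₀ f b
  map_one' := by
    funext b
    refine Balg_ext fun x => ?_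
    rw [stepFun_apply]
    have h := blk_algebraMap (J := J) (G := G) l 1
    rw [map_one, map_one] at h
    exact h
  map_mul' f g := by
    funext b
    refine Balg_ext fun x => ?_
    rw [stepFun_apply]
    exact blk_mul l _ _ _ _
  map_zero' := by
    funext b
    refine Balg_ext fun x => ?_
    rw [stepFun_apply]
    have h := blk_algebraMap (J := J) (G := G) l 0
    rw [map_zero, map_zero] at h
    exact h
  map_add' f g := by
    funext b
    refine Balg_ext fun x => ?_
    rw [stepFun_apply]
    exact blk_add l _ _ _ _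
  commutes' r := by
    funext b
    refine Balg_ext fun x => ?_
    rw [stepFun_apply]
    have h := blk_algebraMap (J := J) (G := G) l r
    rw [Algebra.algebraMap_eq_smul_one, Algebra.algebraMap_eq_smul_one] at h
    rw [Algebra.algebraMap_eq_smul_one, Algebra.algebraMap_eq_smul_one]
    exact h
  map_star' f := by
    funext b
    refine Balg_ext fun x => ?_
    rw [stepFun_apply]
    exact blk_star l _ _

theorem step_apply (f : G → Balg wt) (b : G) (x : X → S3) :
    (step l N x₀ f b).1 x = blk l ((f b).1 x) (fun c => (f (b * c)).1 x₀) := rfl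

theorem step_injective : Function.Injective (step (G := G) (wt := wt) l N x₀) := by
  intro f g h
  funext b
  refine Balg_ext fun x => ?_
  refine MJ.ext fun i j => ?_
  have h1 : ((step l N x₀ f b).1 x).e (Sum.inl i) (Sum.inl j) =
      ((step l N x₀ g b).1 x).e (Sum.inl i) (Sum.inl j) := by rw [h]
  rwa [step_apply, step_apply, blk_inl_inl, blk_inl_inl] at h1

/-- translation action -/
noncomputable def trans (wt : J → Finset X) : G →* ((G → Balg wt) ≃⋆ₐ[ℂ] (G → Balg wt)) where
  toFun g :=
    { toFun := fun f b => f (g⁻¹ * b)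
      invFun := fun f b => f (g * b)
      left_inv := fun f => by funext b; simp
      right_inv := fun f => by funext b; simp
      map_mul' := fun f h => rfl
      map_add' := fun f h => rfl
      map_smul' := fun f h => rfl
      map_star' := fun f => rfl }
  map_one' := by
    refine StarAlgEquiv.ext fun f => funext fun b => ?_
    change f (1⁻¹ * b) = f b
    rw [inv_one, one_mul]
  map_mul' g h := by
    refine StarAlgEquiv.ext fun f => funext fun b => ?_
    change f ((g * h)⁻¹ * b) = f (h⁻¹ * (g⁻¹ * b))
    rw [mul_inv_rev, mul_assoc]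

theorem trans_apply (g : G) (f : G → Balg wt) (b : G) : trans wt g f b = f (g⁻¹ * b) := rfl

theorem step_trans (g : G) (f : G → Balg wt) :
    step l N x₀ (trans wt g f) = trans (nextWt l wt N G) g (step l N x₀ f) := by
  funext b
  refine Balg_ext fun x => ?_
  rw [trans_apply, step_apply, step_apply, trans_apply]
  simp only [trans_apply, mul_assoc]

end Step

end Pool.Agent.Lib.P81d4f5
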