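import Pool.Agent.Lib.P81d4f5.Dense

set_option autoImplicit false

/-!
Koszul and Clifford matrices and the alternating dimension count.
-/

open MeasureTheory unitInterval
open scoped Matrix

namespace Pool.Agent.Lib.P81d4f5

variable {κ : Type} [Fintype κ] [DecidableEq κ]

/-- index set of the exterior algebra on `k` generators -/
def Lam : ℕ → Type
  | 0 => Unit
  | (k+1) => Lam k ⊕ Lam k

instance instFintypeLam : ∀ k, Fintype (Lam k)
  | 0 => inferInstanceAs (Fintype Unit)
  | (k+1) => by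
    letI := instFintypeLam k
    exact inferInstanceAs (Fintype (Lam k ⊕ Lam k))

instance instDecidableEqLam : ∀ k, DecidableEq (Lam k)
  | 0 => inferInstanceAs (DecidableEq Unit)
  | (k+1) => by
    letI := instDecidableEqLam k
    exact inferInstanceAs (DecidableEq (Lam k ⊕ Lam k))

/-- parity -/
def sg : (k : ℕ) → Lam k → Bool
  | 0, _ => false
  | (k+1), Sum.inl T => sg k T
  | (k+1), Sum.inr T => !sg k T

/-- total weight of a subset of rows -/
def wtL (w : ℕ → κ → ℕ) : (k : ℕ) → Lam k → (κ → ℕ)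
  | 0, _ => 0
  | (k+1), Sum.inl T => wtL w k T
  | (k+1), Sum.inr T => wtL w k T + w k

/-- the Clifford matrix of a family of functions -/
noncomputable def Dm (F : ℕ → C(κ → S3, ℂ)) : (k : ℕ) → Matrix (Lam k) (Lam k) C(κ → S3, ℂ)
  | 0 => 0
  | (k+1) => Matrix.fromBlocks (Dm F k) (star (F k) • (1 : Matrix (Lam k) (Lam k) C(κ → S3, ℂ)))
      (F k • (1 : Matrix (Lam k) (Lam k) C(κ → S3, ℂ))) (- Dm F k)

theorem Dm_succ (F : ℕ → C(κ → S3, ℂ)) (k : ℕ) : Dm F (k+1) =
    (Matrix.fromBlocks (Dm F k) (star (F k) • (1 : Matrix (Lam k) (Lam k) C(κ → S3, ℂ)))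
      (F k • (1 : Matrix (Lam k) (Lam k) C(κ → S3, ℂ))) (- Dm F k) :
      Matrix (Lam k ⊕ Lam k) (Lam k ⊕ Lam k) C(κ → S3, ℂ)) := rfl

theorem Dm_conjTranspose (F : ℕ → C(κ → S3, ℂ)) (k : ℕ) : (Dm F k)ᴴ = Dm F k := by
  induction k with
  | zero => simp [Dm]
  | succ k ih =>
    rw [Dm_succ]
    change (Matrix.fromBlocks (Dm F k) (star (F k) • (1 : Matrix (Lam k) (Lam k) C(κ → S3, ℂ)))
      (F k • (1 : Matrix (Lam k) (Lam k) C(κ → S3, ℂ))) (- Dm F k) :
      Matrix (Lam k ⊕ Lam k) (Lam k ⊕ Lam k) C(κ → S3, ℂ))ᴴ = _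
    rw [Matrix.fromBlocks_conjTranspose, Matrix.conjTranspose_neg, Matrix.conjTranspose_smul,
      Matrix.conjTranspose_smul, Matrix.conjTranspose_one, star_star, ih]

/-- sum of squares -/
noncomputable def qs (F : ℕ → C(κ → S3, ℂ)) (k : ℕ) : C(κ → S3, ℂ) :=
  ∑ j ∈ Finset.range k, star (F j) * F j

theorem Dm_sq (F : ℕ → C(κ → S3, ℂ)) (k : ℕ) :
    Dm F k * Dm F k = qs F k • (1 : Matrix (Lam k) (Lam k) C(κ → S3, ℂ)) := by
  induction k with
  | zero => simp [Dm, qs]
  | succ k ih =>
    rw [Dm_succ]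
    change (Matrix.fromBlocks _ _ _ _ : Matrix (Lam k ⊕ Lam k) (Lam k ⊕ Lam k) C(κ → S3, ℂ)) *
      (Matrix.fromBlocks _ _ _ _ : Matrix (Lam k ⊕ Lam k) (Lam k ⊕ Lam k) C(κ → S3, ℂ)) =
      qs F (k+1) • (1 : Matrix (Lam k ⊕ Lam k) (Lam k ⊕ Lam k) C(κ → S3, ℂ))
    rw [Matrix.fromBlocks_multiply, ← Matrix.fromBlocks_one, Matrix.fromBlocks_smul]
    have hq : qs F (k+1) = qs F k + star (F k) * F k := by
      simp [qs, Finset.sum_range_succ]
    congr 1
    · rw [ih, hq, add_smul, smul_mul_assoc, mul_smul_comm, one_mul, smul_smul]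
    · rw [smul_mul_assoc, mul_smul_comm, mul_one, one_mul, smul_neg, smul_zero, add_neg_cancel]
    · rw [smul_mul_assoc, mul_smul_comm, mul_one, one_mul, smul_zero]
      rw [smul_neg, add_neg_cancel]
    · rw [neg_mul_neg, ih, hq, add_smul, smul_mul_assoc, mul_smul_comm, one_mul, smul_smul,
        mul_comm (F k), add_comm]

theorem dot_identity (F : ℕ → C(κ → S3, ℂ)) (k : ℕ) (u : Lam k → C(κ → S3, ℂ)) :
    star (Dm F k *ᵥ u) ⬝ᵥ (Dm F k *ᵥ u) = qs F k * (star u ⬝ᵥ u) := by
  rw [Matrix.star_mulVec, Dm_conjTranspose, ← Matrix.dotProduct_mulVec, Matrix.mulVec_mulVec, Dm_sq,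
    Matrix.smul_mulVec, Matrix.one_mulVec, dotProduct_smul, smul_eq_mul]

theorem sum_norm_sq_identity (F : ℕ → C(κ → S3, ℂ)) (k : ℕ) (u : Lam k → C(κ → S3, ℂ))
    (x : κ → S3) : ∑ T, ‖(Dm F k *ᵥ u) T x‖ ^ 2 =
      (∑ j ∈ Finset.range k, ‖F j x‖ ^ 2) * ∑ T, ‖u T x‖ ^ 2 := by
  have h := congrArg (fun f : C(κ → S3, ℂ) => f x) (dot_identity F k u)
  simp only [dotProduct, ContinuousMap.sum_apply, ContinuousMap.mul_apply, Pi.star_apply,
    ContinuousMap.star_apply, qs] at h
  have hs : ∀ z : ℂ, star z * z = ((‖z‖ ^ 2 : ℝ) : ℂ) := by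
    intro z
    rw [RCLike.star_def, mul_comm, Complex.mul_conj, Complex.normSq_eq_norm_sq]
  simp_rw [hs] at h
  exact_mod_cast h

theorem Dm_parity (F : ℕ → C(κ → S3, ℂ)) (k : ℕ) (T' T : Lam k) (h : sg k T' = sg k T) :
    Dm F k T' T = 0 := by
  induction k with
  | zero => simp [Dm]
  | succ k ih =>
    rw [Dm_succ]
    rcases T' with T' | T' <;> rcases T with T | T
    · exact ih T' T h
    · change (star (F k) • (1 : Matrix (Lam k) (Lam k) C(κ → S3, ℂ))) T' T = 0
      rw [Matrix.smul_apply, Matrix.one_apply_ne, smul_zero]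
      rintro rfl
      simp [sg] at h
    · change (F k • (1 : Matrix (Lam k) (Lam k) C(κ → S3, ℂ))) T' T = 0
      rw [Matrix.smul_apply, Matrix.one_apply_ne, smul_zero]
      rintro rfl
      simp [sg] at h
    · change (- Dm F k) T' T = 0
      rw [Matrix.neg_apply, ih T' T (by simpa [sg] using h), neg_zero]

theorem Dm_good (F : ℕ → C(κ → S3, ℂ)) (w : ℕ → κ → ℕ)
    (hF : ∀ j, Good (fun s => (w j s : ℤ)) (F j))
    (hF' : ∀ j, Good (fun s => -(w j s : ℤ)) (star (F j))) (k : ℕ) (T' T : Lam k) :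
    Good (fun s => (wtL w k T' s : ℤ) - wtL w k T s) (Dm F k T' T) := by
  induction k with
  | zero => simp only [Dm]; exact good_zero _
  | succ k ih =>
    rw [Dm_succ]
    rcases T' with T' | T' <;> rcases T with T | T
    · exact ih T' T
    · change Good _ ((star (F k) • (1 : Matrix (Lam k) (Lam k) C(κ → S3, ℂ))) T' T)
      rw [Matrix.smul_apply]
      by_cases hT : T' = T
      · subst hT
        rw [Matrix.one_apply_eq, smul_eq_mul, mul_one]
        convert hF' k using 2
        simp [wtL]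
      · rw [Matrix.one_apply_ne hT, smul_zero]
        exact good_zero _
    · change Good _ ((F k • (1 : Matrix (Lam k) (Lam k) C(κ → S3, ℂ))) T' T)
      rw [Matrix.smul_apply]
      by_cases hT : T' = T
      · subst hT
        rw [Matrix.one_apply_eq, smul_eq_mul, mul_one]
        convert hF k using 2
        simp [wtL]
      · rw [Matrix.one_apply_ne hT, smul_zero]
        exact good_zero _
    · change Good _ ((- Dm F k) T' T)
      rw [Matrix.neg_apply]
      have h := (ih T' T).smul (-1)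
      rw [neg_one_smul] at h
      convert h using 2
      simp [wtL]

/-! ### the alternating count -/

/-- sign of a parity -/
def sn (b : Bool) : ℤ := if b then -1 else 1

/-- alternating sum of shifts -/
def alt (w : ℕ → κ → ℕ) (k : ℕ) (g : (κ → ℕ) → ℤ) (d : κ → ℕ) : ℤ :=
  ∑ T : Lam k, sn (sg k T) * g (d + wtL w k T)

theorem alt_zero (w : ℕ → κ → ℕ) (g : (κ → ℕ) → ℤ) (d : κ → ℕ) : alt w 0 g d = g d := by
  unfold alt
  change ∑ T : Unit, _ = _
  simp [sn, sg, wtL]

theorem alt_succ (w : ℕ → κ → ℕ) (k : ℕ) (g : (κ → ℕ) → ℤ) (d : κ → ℕ) :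
    alt w (k+1) g d = alt w k g d - alt w k g (d + w k) := by
  unfold alt
  change ∑ T : Lam k ⊕ Lam k, _ = _
  rw [Fintype.sum_sum_type, sub_eq_add_neg, ← Finset.sum_neg_distrib]
  congr 1
  apply Finset.sum_congr rfl
  intro T _
  have h1 : sg (k+1) (Sum.inr T) = !sg k T := rfl
  have h2 : wtL w (k+1) (Sum.inr T) = wtL w k T + w k := rfl
  rw [h1, h2]
  have h3 : sn (!sg k T) = - sn (sg k T) := by cases sg k T <;> rfl
  rw [h3, neg_mul]
  congr 2
  rw [add_comm (wtL w k T), add_assoc]

/-- partial products -/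
def gA (A : Finset κ) (d : κ → ℕ) : ℤ := ∏ s ∈ A, ((d s : ℤ) + 1)

theorem gA_pos (A : Finset κ) (d : κ → ℕ) : 0 < gA A d := Finset.prod_pos fun _ _ => by positivity

theorem gA_add (A : Finset κ) (d v : κ → ℕ) :
    gA A (d + v) - gA A d = ∑ C ∈ A.powerset.erase A, (∏ s ∈ A \ C, (v s : ℤ)) * gA C d := by
  have h : gA A (d + v) = ∑ C ∈ A.powerset, (∏ s ∈ A \ C, (v s : ℤ)) * gA C d := by
    unfold gA
    have : ∀ s, (((d + v) s : ℕ) : ℤ) + 1 = ((d s : ℤ) + 1) + v s := by
      intro s; simp only [Pi.add_apply]; push_cast; ring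
    simp_rw [this]
    rw [Finset.prod_add]
    apply Finset.sum_congr rfl
    intro C _
    ring
  rw [h, ← Finset.add_sum_erase _ _ (Finset.mem_powerset_self A)]
  simp

theorem alt_expand (w : ℕ → κ → ℕ) (e : ℕ → κ) (hinj : Function.Injective fun j : Fin (Fintype.card κ) => e j)
    (hw : ∀ j, j < Fintype.card κ → 1 ≤ w j (e j)) (k : ℕ) (hk : k ≤ Fintype.card κ) :
    ∃ c : Finset κ → ℕ, (∀ d, (-1) ^ k * alt w k (gA Finset.univ) d = ∑ B : Finset κ, (c B : ℤ) * gA B d) ∧
      1 ≤ c (Finset.univ \ (Finset.range k).image e) := by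
  induction k with
  | zero =>
    refine ⟨fun B => if B = Finset.univ then 1 else 0, fun d => ?_, by simp⟩
    rw [alt_zero]
    simp
  | succ k ih =>
    obtain ⟨c, hc1, hc2⟩ := ih (by omega)
    refine ⟨fun C => ∑ B ∈ (Finset.univ : Finset (Finset κ)).filter (fun B => C ∈ B.powerset.erase B),
      c B * ∏ s ∈ B \ C, w k s, fun d => ?_, ?_⟩
    · rw [alt_succ]
      have h1 : (-1) ^ (k+1) * (alt w k (gA Finset.univ) d - alt w k (gA Finset.univ) (d + w k)) =
        (-1) ^ k * alt w k (gA Finset.univ) (d + w k) - (-1) ^ k * alt w k (gA Finset.univ) d := by ring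
      rw [h1, hc1, hc1, ← Finset.sum_sub_distrib]
      have h2 : ∀ B : Finset κ, (c B : ℤ) * gA B (d + w k) - (c B : ℤ) * gA B d =
          ∑ C ∈ (Finset.univ : Finset (Finset κ)), if C ∈ B.powerset.erase B then
            (c B : ℤ) * ((∏ s ∈ B \ C, (w k s : ℤ)) * gA C d) else 0 := by
        intro B
        rw [← mul_sub, gA_add, Finset.mul_sum, ← Finset.sum_filter]
        apply Finset.sum_congr _ (fun _ _ => rfl)
        ext C; simp
      simp_rw [h2]
      rw [Finset.sum_comm]
      apply Finset.sum_congr rfl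
      intro C _
      rw [← Finset.sum_filter]
      push_cast
      rw [Finset.sum_mul]
      apply Finset.sum_congr rfl
      intro B _
      ring
    · set B0 := Finset.univ \ (Finset.range k).image e with hB0
      set C0 := Finset.univ \ (Finset.range (k+1)).image e with hC0
      have hek : e k ∉ (Finset.range k).image e := by
        intro hmem
        obtain ⟨j, hj, hje⟩ := Finset.mem_image.mp hmem
        rw [Finset.mem_range] at hj
        have := @hinj ⟨j, by omega⟩ ⟨k, by omega⟩ hje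
        simp at this
        omega
      have hC0' : C0 = B0.erase (e k) := by
        rw [hC0, hB0, Finset.range_add_one, Finset.image_insert]
        ext s
        simp only [Finset.mem_sdiff, Finset.mem_univ, true_and, Finset.mem_insert, not_or,
          Finset.mem_erase]
      have hekB : e k ∈ B0 := by rw [hB0]; simp only [Finset.mem_sdiff, Finset.mem_univ, true_and]; exact hek
      have hmem : B0 ∈ (Finset.univ : Finset (Finset κ)).filter (fun B => C0 ∈ B.powerset.erase B) := by
        rw [Finset.mem_filter, Finset.mem_erase, Finset.mem_powerset, hC0']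
        exact ⟨Finset.mem_univ _, fun h => by
          have := Finset.notMem_erase (e k) B0
          rw [h] at this; exact this hekB, Finset.erase_subset _ _⟩
      have hsd : B0 \ C0 = {e k} := by
        rw [hC0']
        ext s
        simp only [Finset.mem_sdiff, Finset.mem_erase, not_and, Finset.mem_singleton]
        constructor
        · rintro ⟨h1, h2⟩
          by_contra h3
          exact h2 h3 h1
        · rintro rfl
          exact ⟨hekB, fun h => absurd rfl h⟩
      have h5 : c B0 * ∏ s ∈ B0 \ C0, w k s ≤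
          ∑ B ∈ (Finset.univ : Finset (Finset κ)).filter (fun B => C0 ∈ B.powerset.erase B),
            c B * ∏ s ∈ B \ C0, w k s :=
        Finset.single_le_sum (f := fun B => c B * ∏ s ∈ B \ C0, w k s) (fun _ _ => Nat.zero_le _) hmem
      rw [hsd, Finset.prod_singleton] at h5
      have h6 := hw k (by omega)
      calc 1 ≤ c B0 * w k (e k) := Nat.one_le_iff_ne_zero.mpr (by
            apply Nat.mul_ne_zero <;> omega)
        _ ≤ _ := h5

theorem alt_ne_zero (w : ℕ → κ → ℕ) (e : Fin (Fintype.card κ) ≃ κ)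
    (hw : ∀ j : Fin (Fintype.card κ), 1 ≤ w j (e j)) (d : κ → ℕ) :
    alt w (Fintype.card κ) (gA Finset.univ) d ≠ 0 := by
  by_cases hκ : Fintype.card κ = 0
  · have : alt w (Fintype.card κ) (gA Finset.univ) d = gA Finset.univ d := by
      have h := alt_zero w (gA Finset.univ) d
      convert h
    rw [this]
    exact (gA_pos _ _).ne'
  · have hne : Nonempty κ := Fintype.card_pos_iff.mp (Nat.pos_of_ne_zero hκ)
    let e' : ℕ → κ := fun j => if h : j < Fintype.card κ then e ⟨j, h⟩ else Classical.arbitrary κ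
    have he' : ∀ j : Fin (Fintype.card κ), e' j = e j := fun j => by simp [e']
    obtain ⟨c, hc1, hc2⟩ := alt_expand w e' (fun i j h => by
        simp only [he'] at h; exact e.injective h) (fun j hj => by
        have := hw ⟨j, hj⟩; rw [← he'] at this; exact this) (Fintype.card κ) le_rfl
    have himg : (Finset.range (Fintype.card κ)).image e' = Finset.univ := by
      ext s
      simp only [Finset.mem_image, Finset.mem_range, Finset.mem_univ, iff_true]
      exact ⟨e.symm s, (e.symm s).2, by rw [he']; simp⟩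
    rw [himg, Finset.sdiff_self] at hc2
    have h1 := hc1 d
    intro h0
    rw [h0, mul_zero] at h1
    have h2 : (0 : ℤ) < ∑ B : Finset κ, (c B : ℤ) * gA B d := by
      apply Finset.sum_pos'
      · intro B _
        have := gA_pos B d
        positivity
      · refine ⟨∅, Finset.mem_univ _, ?_⟩
        have := gA_pos (∅ : Finset κ) d
        have : (0 : ℤ) < c ∅ := by exact_mod_cast hc2
        positivity
    omega

end Pool.Agent.Lib.P81d4f5
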