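import Mathlib

/-!
# Definitions used in the final statement

Tracial states, Cuntz subequivalence, normalized 2-quasitraces, dimension functions, the radius of
comparison, stable finiteness and the weak tracial Rokhlin property.
-/

open scoped ComplexOrder ENNReal NNReal
open Filter Topology

namespace Pool.Agent.Lib.P81d4f5

section General

variable {A : Type} [CStarAlgebra A]

/-- `τ` is a tracial state. -/
structure IsTracialState (τ : A →ₗ[ℂ] ℂ) : Prop where
  map_one : τ 1 = 1
  nonneg : ∀ a : A, 0 ≤ τ (star a * a)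
  tracial : ∀ a b : A, τ (a * b) = τ (b * a)

/-- Cuntz subequivalence `a ≾ b`: there are `v k` with `‖v k * b * star (v k) - a‖ → 0`. -/
def CuntzLE (a b : A) : Prop :=
  ∃ v : ℕ → A, Tendsto (fun k => ‖v k * b * star (v k) - a‖) atTop (𝓝 0)

/-- A quasitrace on the C*-algebra `A`: it is positive and tracial in the sense
`0 ≤ τ (x* x) = τ (x x*)`, satisfies `τ (a + i b) = τ a + i τ b` for selfadjoint `a, b`, and is
linear on commutative C*-subalgebras. -/
structure IsQuasitrace (τ : A → ℂ) : Prop where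
  nonneg : ∀ x : A, 0 ≤ τ (star x * x)
  star_comm : ∀ x : A, τ (star x * x) = τ (x * star x)
  re_im : ∀ a b : A, IsSelfAdjoint a → IsSelfAdjoint b →
    τ (a + Complex.I • b) = τ a + Complex.I * τ b
  linear_comm : ∀ B : StarSubalgebra ℂ A, IsClosed (B : Set A) →
    (∀ x ∈ B, ∀ y ∈ B, x * y = y * x) →
    (∀ x ∈ B, ∀ y ∈ B, τ (x + y) = τ x + τ y) ∧ (∀ c : ℂ, ∀ x ∈ B, τ (c • x) = c * τ x)

/-- The limit `lim τ(a^(1/k))`, where `a^(1/k)` is given by the continuous functional calculus. -/
noncomputable def dimLim (τ : A → ℂ) (a : A) : ℝ :=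
  limUnder atTop (fun k : ℕ => (τ (cfc (fun t : ℝ => t ^ ((1 : ℝ) / (k : ℝ))) a)).re)

end General

section Rokhlin

variable {A : Type} [CStarAlgebra A] [PartialOrder A] [StarOrderedRing A]

/-- The action `α` of the finite group `G` on the C*-algebra `A` has the weak tracial Rokhlin
property. -/
def WeakTracialRokhlin {G : Type} [Group G] [Fintype G] (α : G →* (A ≃⋆ₐ[ℂ] A)) : Prop :=
  ∀ (F : Finset A) (ε : ℝ), 0 < ε → ∀ x : A, 0 ≤ x → ‖x‖ = 1 →
    ∃ f : G → A, (∀ g, 0 ≤ f g) ∧ (∀ g, ‖f g‖ ≤ 1) ∧ (∀ g h, g ≠ h → f g * f h = 0) ∧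
      (∀ g h, ‖α g (f h) - f (g * h)‖ < ε) ∧
      (∀ g, ∀ a ∈ F, ‖f g * a - a * f g‖ < ε) ∧
      CuntzLE (1 - ∑ g, f g) x ∧
      1 - ε < ‖(∑ g, f g) * x * (∑ g, f g)‖

end Rokhlin

section Matrices

variable (A : Type) [CStarAlgebra A] [PartialOrder A] [StarOrderedRing A]

/-- `A` is stably finite: every isometry in every matrix algebra over `A` is a unitary. -/
def StablyFinite : Prop :=
  ∀ (n : ℕ) (v : CStarMatrix (Fin n) (Fin n) A), star v * v = 1 → v * star v = 1

variable {A}

/-- The corner embedding of `M_n(A)` in `M_(n+1)(A)`. -/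
def cornerIncl {n : ℕ} (a : CStarMatrix (Fin n) (Fin n) A) :
    CStarMatrix (Fin (n + 1)) (Fin (n + 1)) A :=
  CStarMatrix.ofMatrix (Matrix.of fun i j =>
    if h : (i : ℕ) < n ∧ (j : ℕ) < n then a ⟨i, h.1⟩ ⟨j, h.2⟩ else 0)

variable (A)

/-- A normalized 2-quasitrace on `A`, given together with its (unique) extensions to quasitraces
on all matrix algebras over `A`. -/
structure TwoQuasitrace where
  /-- the values on `M_n(A)` -/
  toFun : ∀ n : ℕ, CStarMatrix (Fin n) (Fin n) A → ℂ
  isQuasitrace : ∀ n, IsQuasitrace (toFun n)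
  corner : ∀ n (a : CStarMatrix (Fin n) (Fin n) A), toFun (n + 1) (cornerIncl a) = toFun n a
  normalized : toFun 1 1 = 1

variable {A}

/-- The dimension function `d_τ(a) = lim τ(a^(1/k))` on positive matrices over `A`. -/
noncomputable def TwoQuasitrace.d (τ : TwoQuasitrace A) {n : ℕ}
    (a : CStarMatrix (Fin n) (Fin n) A) : ℝ := dimLim (τ.toFun n) a

variable (A)

/-- The comparison property with parameter `r`. -/
def Comparison (r : ℝ≥0) : Prop :=
  ∀ (n : ℕ) (a b : CStarMatrix (Fin n) (Fin n) A), 0 ≤ a → 0 ≤ b →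
    (∀ τ : TwoQuasitrace A, τ.d a + r < τ.d b) → CuntzLE a b

/-- The radius of comparison (with value `∞` if the comparison property holds for no `r`). -/
noncomputable def rc : ℝ≥0∞ := ⨅ (r : ℝ≥0) (_ : Comparison A r), (r : ℝ≥0∞)

end Matrices

/-- `A` is simple, separable, (unital,) stably finite, has exactly one tracial state, has radius of
comparison at least `K`, and there is an action `α` of the finite group `G` on `A` which has the
weak tracial Rokhlin property and leaves every tracial state invariant. -/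
def GoodAlgebra (G : Type) [Group G] [Fintype G] (K : ℕ)
    (A : Type) [CStarAlgebra A] [PartialOrder A] [StarOrderedRing A] : Prop :=
  IsSimpleRing A ∧ TopologicalSpace.SeparableSpace A ∧ StablyFinite A ∧
    (∃! τ : A →ₗ[ℂ] ℂ, IsTracialState τ) ∧ (K : ℝ≥0∞) ≤ rc A ∧
    ∃ α : G →* (A ≃⋆ₐ[ℂ] A), WeakTracialRokhlin α ∧
      ∀ τ : A →ₗ[ℂ] ℂ, IsTracialState τ → ∀ (g : G) (a : A), τ (α g a) = τ a

end Pool.Agent.Lib.P81d4f5
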