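import Pool.Agent.Lib.P81d4f5.Good

set_option autoImplicit false

/-!
Density: every continuous function having a weight is good for that weight.
-/

open MeasureTheory unitInterval

namespace Pool.Agent.Lib.P81d4f5

variable {κ : Type} [Fintype κ] [DecidableEq κ]

theorem HasWt.mul {v w : κ → ℤ} {F G : C(κ → S3, ℂ)} (hF : HasWt v F) (hG : HasWt w G) :
    HasWt (v + w) (F * G) := by
  intro c x
  rw [ContinuousMap.mul_apply, ContinuousMap.mul_apply, hF c x, hG c x]
  simp only [Pi.add_apply]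
  simp_rw [zpow_add₀ (Circle.coe_ne_zero _)]
  rw [Finset.prod_mul_distrib]
  ring

theorem hasWt_one : HasWt (κ := κ) 0 1 := by
  intro c x; simp

theorem hasWt_zc (s : κ) (i : Fin 2) : HasWt (Pi.single s 1) (zc s i) := by
  intro c x
  rw [Finset.prod_eq_single s]
  · simp [rotm]
  · intro t _ hts; simp [Pi.single_eq_of_ne hts]
  · simp

theorem hasWt_star {v : κ → ℤ} {F : C(κ → S3, ℂ)} (h : HasWt v F) : HasWt (-v) (star F) := by
  intro c x
  rw [ContinuousMap.star_apply, ContinuousMap.star_apply, h c x, star_mul', star_prod]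
  congr 1
  apply Finset.prod_congr rfl
  intro s _
  rw [star_zpow₀]
  simp only [Pi.neg_apply, RCLike.star_def]
  rw [← Circle.coe_inv_eq_conj, Circle.coe_inv, inv_zpow', ]

/-- homogeneous good functions -/
def Mset (κ : Type) [Fintype κ] [DecidableEq κ] : Set C(κ → S3, ℂ) :=
  {G | ∃ v, HasWt v G ∧ Good v G}

theorem Mset_mul {F G : C(κ → S3, ℂ)} (hF : F ∈ Submodule.span ℂ (Mset κ))
    (hG : G ∈ Submodule.span ℂ (Mset κ)) : F * G ∈ Submodule.span ℂ (Mset κ) := by
  induction hF using Submodule.span_induction with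
  | mem F hF =>
    induction hG using Submodule.span_induction with
    | mem G hG =>
      obtain ⟨v, hv1, hv2⟩ := hF
      obtain ⟨w, hw1, hw2⟩ := hG
      exact Submodule.subset_span ⟨v + w, hv1.mul hw1, hv2.mul hw2⟩
    | zero => rw [mul_zero]; exact Submodule.zero_mem _
    | add G H _ _ h1 h2 => rw [mul_add]; exact Submodule.add_mem _ h1 h2
    | smul a G _ h1 => rw [mul_smul_comm]; exact Submodule.smul_mem _ _ h1
  | zero => rw [zero_mul]; exact Submodule.zero_mem _
  | add F H _ _ h1 h2 => rw [add_mul]; exact Submodule.add_mem _ h1 h2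
  | smul a F _ h1 => rw [smul_mul_assoc]; exact Submodule.smul_mem _ _ h1

/-- the polynomial algebra -/
noncomputable def Pol (κ : Type) [Fintype κ] [DecidableEq κ] : StarSubalgebra ℂ C(κ → S3, ℂ) :=
  StarAlgebra.adjoin ℂ {G | ∃ s i, G = zc s i}

theorem Pol_le (F : C(κ → S3, ℂ)) (hF : F ∈ Pol κ) : F ∈ Submodule.span ℂ (Mset κ) := by
  have h1 : F ∈ Algebra.adjoin ℂ ({G | ∃ s i, G = zc s i} ∪ star {G | ∃ s i, G = zc s i} :
      Set C(κ → S3, ℂ)) := by
    rw [← StarAlgebra.adjoin_toSubalgebra]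
    exact hF
  clear hF
  induction h1 using Algebra.adjoin_induction with
  | mem F hF =>
    apply Submodule.subset_span
    rcases hF with ⟨s, i, rfl⟩ | ⟨s, i, hs⟩
    · exact ⟨_, hasWt_zc s i, good_zc s i⟩
    · have : F = star (zc s i) := by rw [← hs, star_star]
      rw [this]
      exact ⟨_, hasWt_star (hasWt_zc s i), good_star_zc s i⟩
  | algebraMap r =>
    rw [Algebra.algebraMap_eq_smul_one]
    exact Submodule.smul_mem _ _ (Submodule.subset_span ⟨0, hasWt_one, good_one⟩)
  | add F G _ _ h1 h2 => exact Submodule.add_mem _ h1 h2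
  | mul F G _ _ h1 h2 => exact Mset_mul h1 h2

theorem Pol_sep : (Pol κ).SeparatesPoints := by
  intro x y hxy
  obtain ⟨s, hs⟩ := Function.ne_iff.mp hxy
  have : ∃ i, S3.co i (x s) ≠ S3.co i (y s) := by
    by_contra hcon
    push Not at hcon
    exact hs (S3.ext hcon)
  obtain ⟨i, hi⟩ := this
  exact ⟨zc s i, ⟨zc s i, StarAlgebra.subset_adjoin ℂ _ ⟨s, i, rfl⟩, rfl⟩, hi⟩

theorem exists_approx (F : C(κ → S3, ℂ)) (ε : ℝ) (hε : 0 < ε) :
    ∃ p ∈ Submodule.span ℂ (Mset κ), ‖F - p‖ < ε := by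
  have h := ContinuousMap.starSubalgebra_topologicalClosure_eq_top_of_separatesPoints (Pol κ) Pol_sep
  have hF : F ∈ (Pol κ).topologicalClosure := by rw [h]; trivial
  have hF' : F ∈ closure (Pol κ : Set C(κ → S3, ℂ)) := hF
  rw [Metric.mem_closure_iff] at hF'
  obtain ⟨p, hp, hd⟩ := hF' ε hε
  exact ⟨p, Pol_le p hp, by rwa [dist_eq_norm] at hd⟩

/-- phases -/
noncomputable def circ (θ : I) : Circle := Circle.exp (2 * Real.pi * (θ : ℝ))

theorem continuous_circ : Continuous circ := by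
  unfold circ
  exact Circle.exp.continuous.comp (by fun_prop)

theorem circ_zpow (θ : I) (k : ℤ) : ((circ θ : ℂ)) ^ k =
    Complex.exp (2 * Real.pi * Complex.I * k * (θ : ℝ)) := by
  unfold circ
  rw [Circle.coe_exp, ← Complex.exp_int_mul]
  congr 1
  push_cast
  ring

theorem integral_circ_zpow (k : ℤ) : ∫ θ : I, ((circ θ : ℂ)) ^ k = if k = 0 then 1 else 0 := by
  simp_rw [circ_zpow]
  exact integral_I_exp k

theorem S3.continuous_rot_left (v : S3) : Continuous (fun c : Circle => S3.rot c v) := by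
  apply Continuous.subtype_mk
  exact continuous_pi fun a => by fun_prop

theorem continuous_rotm_left (x : κ → S3) :
    Continuous (fun θ : κ → I => rotm (fun s => circ (θ s)) x) := by
  apply continuous_pi
  intro s
  exact (S3.continuous_rot_left (x s)).comp (continuous_circ.comp (continuous_apply s))

/-- averaging against a character -/
noncomputable def Ew (w : κ → ℤ) (f : C(κ → S3, ℂ)) (x : κ → S3) : ℂ :=
  ∫ θ : κ → I, (∏ s, (circ (θ s) : ℂ) ^ (-w s)) * f (rotm (fun s => circ (θ s)) x)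

theorem Ew_integrable (w : κ → ℤ) (f : C(κ → S3, ℂ)) (x : κ → S3) :
    Integrable (fun θ : κ → I =>
      (∏ s, (circ (θ s) : ℂ) ^ (-w s)) * f (rotm (fun s => circ (θ s)) x)) := by
  apply Continuous.integrable_of_hasCompactSupport
  · apply Continuous.mul
    · apply continuous_finsetProd
      intro s _
      have : Continuous fun θ : κ → I => (circ (θ s) : ℂ) :=
        continuous_subtype_val.comp (continuous_circ.comp (continuous_apply s))
      exact this.zpow₀ _ (fun a => Or.inl (Circle.coe_ne_zero _))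
    · exact f.continuous.comp (continuous_rotm_left x)
  · exact HasCompactSupport.of_compactSpace _

theorem Ew_add (w : κ → ℤ) (f g : C(κ → S3, ℂ)) (x : κ → S3) :
    Ew w (f + g) x = Ew w f x + Ew w g x := by
  unfold Ew
  rw [← integral_add (Ew_integrable w f x) (Ew_integrable w g x)]
  congr 1
  ext θ
  rw [ContinuousMap.add_apply, mul_add]

theorem Ew_smul (w : κ → ℤ) (a : ℂ) (f : C(κ → S3, ℂ)) (x : κ → S3) :
    Ew w (a • f) x = a * Ew w f x := by
  unfold Ew
  rw [← integral_const_mul]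
  congr 1
  ext θ
  simp only [ContinuousMap.smul_apply, smul_eq_mul]
  ring

theorem Ew_zero (w : κ → ℤ) (x : κ → S3) : Ew w 0 x = 0 := by
  simp [Ew]

theorem Ew_norm_le (w : κ → ℤ) (f : C(κ → S3, ℂ)) (x : κ → S3) : ‖Ew w f x‖ ≤ ‖f‖ := by
  unfold Ew
  have h : ∀ᵐ θ : κ → I, ‖(∏ s, (circ (θ s) : ℂ) ^ (-w s)) * f (rotm (fun s => circ (θ s)) x)‖ ≤ ‖f‖ := by
    apply Filter.Eventually.of_forall
    intro θ
    rw [norm_mul, norm_prod]
    have : ∏ s, ‖(circ (θ s) : ℂ) ^ (-w s)‖ = 1 := by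
      apply Finset.prod_eq_one
      intro s _
      rw [norm_zpow, Circle.norm_coe, one_zpow]
    rw [this, one_mul]
    exact f.norm_coe_le_norm _
  calc _ ≤ ‖f‖ * (volume : Measure (κ → I)).real Set.univ := norm_integral_le_of_norm_le_const h
    _ = ‖f‖ := by simp

theorem Ew_hasWt {v w : κ → ℤ} {G : C(κ → S3, ℂ)} (h : HasWt v G) (x : κ → S3) :
    Ew w G x = if v = w then G x else 0 := by
  unfold Ew
  have h1 : ∀ θ : κ → I, (∏ s, (circ (θ s) : ℂ) ^ (-w s)) * G (rotm (fun s => circ (θ s)) x) =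
      (∏ s, (circ (θ s) : ℂ) ^ (v s - w s)) * G x := by
    intro θ
    rw [h, ← mul_assoc, ← Finset.prod_mul_distrib]
    congr 1
    apply Finset.prod_congr rfl
    intro s _
    rw [← zpow_add₀ (Circle.coe_ne_zero _)]
    congr 1
    ring
  simp_rw [h1]
  rw [integral_mul_const, integral_fintype_prod_volume_eq_prod (fun (s : κ) (t : I) =>
    (circ t : ℂ) ^ (v s - w s))]
  simp_rw [integral_circ_zpow]
  split_ifs with hvw
  · subst hvw; simp
  · obtain ⟨s, hs⟩ := Function.ne_iff.mp hvw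
    rw [Finset.prod_eq_zero (Finset.mem_univ s), zero_mul]
    rw [if_neg]
    omega

theorem exists_component (w : κ → ℤ) (p : C(κ → S3, ℂ)) (hp : p ∈ Submodule.span ℂ (Mset κ)) :
    ∃ p', Good w p' ∧ ∀ x, Ew w p x = p' x := by
  induction hp using Submodule.span_induction with
  | mem G hG =>
    obtain ⟨v, h1, h2⟩ := hG
    by_cases hvw : v = w
    · subst hvw
      exact ⟨G, h2, fun x => by rw [Ew_hasWt h1, if_pos rfl]⟩
    · exact ⟨0, good_zero w, fun x => by rw [Ew_hasWt h1, if_neg hvw]; rfl⟩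
  | zero => exact ⟨0, good_zero w, fun x => by rw [Ew_zero]; rfl⟩
  | add F G _ _ h1 h2 =>
    obtain ⟨p1, h1, h1'⟩ := h1
    obtain ⟨p2, h2, h2'⟩ := h2
    exact ⟨p1 + p2, h1.add h2, fun x => by rw [Ew_add, h1', h2']; rfl⟩
  | smul a G _ h1 =>
    obtain ⟨p1, h1, h1'⟩ := h1
    exact ⟨a • p1, h1.smul a, fun x => by rw [Ew_smul, h1']; rfl⟩

/-- Every continuous function of weight `w` is good. -/
theorem good_of_hasWt {w : κ → ℤ} {F : C(κ → S3, ℂ)} (h : HasWt w F) : Good w F := by
  apply good_of_approx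
  intro ε hε
  obtain ⟨p, hp, hFp⟩ := exists_approx F ε hε
  obtain ⟨p', hp', hp''⟩ := exists_component w p hp
  refine ⟨p', hp', ?_⟩
  rw [ContinuousMap.norm_le _ hε.le]
  intro x
  have h1 : (F - p') x = Ew w (F - p) x := by
    have h2 : F - p = F + (-1 : ℂ) • p := by simp [sub_eq_add_neg]
    rw [h2, Ew_add, Ew_smul, hp'' x, Ew_hasWt h, if_pos rfl, ContinuousMap.sub_apply]
    ring
  rw [h1]
  exact (Ew_norm_le w _ x).trans hFp.le

end Pool.Agent.Lib.P81d4f5
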