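import Pool.Agent.Lib.P81d4f5.Uniq
import Pool.Agent.Lib.CStarLim.Simple

/-!
Simplicity of the limit.
-/

open scoped ComplexOrder
open Filter Topology CStarLim

namespace Pool.Agent.Lib.P81d4f5

section ScalPos

variable {X : Type} {J : Type} [Fintype J] [DecidableEq J]

theorem exists_sqrt_scal {wt : J → Finset X} (u : C(X → S3, ℂ))
    (hu : ∀ c x, u (rotm c x) = u x) (δ : ℝ) (h : ∀ x, (δ : ℂ) ≤ u x) :
    ∃ y : Balg wt, scal wt u hu = (δ : ℂ) • (1 : Balg wt) + star y * y := by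
  let v : C(X → S3, ℂ) := ⟨fun x => ((√((u x).re - δ) : ℝ) : ℂ), by
    refine Complex.continuous_ofReal.comp (Real.continuous_sqrt.comp ?_)
    exact (Complex.continuous_re.comp u.continuous).sub continuous_const⟩
  have hv : ∀ c x, v (rotm c x) = v x := by
    intro c x
    change ((√((u (rotm c x)).re - δ) : ℝ) : ℂ) = ((√((u x).re - δ) : ℝ) : ℂ)
    rw [hu]
  refine ⟨scal wt v hv, Balg_ext fun x => ?_⟩
  rw [Balg_add, Balg_smul, Balg_one, Balg_mul, Balg_star, scal_apply, scal_apply, star_smul,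
    star_one, smul_mul_smul_comm, one_mul, ← add_smul]
  congr 1
  have h1 := Complex.le_def.1 (h x)
  have h2 : 0 ≤ (u x).re - δ := by
    have := h1.1
    rw [Complex.ofReal_re] at this
    linarith
  have h3 : (u x).im = 0 := by
    have := h1.2
    rw [Complex.ofReal_im] at this
    exact this.symm
  change u x = (δ : ℂ) + star ((√((u x).re - δ) : ℝ) : ℂ) * ((√((u x).re - δ) : ℝ) : ℂ)
  rw [Complex.star_def, Complex.conj_ofReal, ← Complex.ofReal_mul, Real.mul_self_sqrt h2,
    ← Complex.ofReal_add]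
  refine Complex.ext ?_ ?_
  · simp
  · simp [h3]

end ScalPos

section

variable {G : Type} {l : ℕ → ℕ} {m : ℕ} [Group G] [Fintype G] [DecidableEq G]

theorem map_ne_zero_at (n : ℕ) (f : AA G l m n) (g : G) (x : XX G l m → S3)
    (h : (f g).1 x ≠ 0) : ((sys G l m).map n f g).1 x ≠ 0 := by
  intro h0
  apply h
  refine MJ.ext fun i j => ?_
  have h1 : (((sys G l m).map n f g).1 x).e (Sum.inl i) (Sum.inl j) = ((f g).1 x).e i j := rfl
  rw [← h1, h0]
  rfl

theorem gen_ne_zero_at (n : ℕ) (f : AA G l m n) (g : G) (x : XX G l m → S3)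
    (h : (f g).1 x ≠ 0) {k : ℕ} (hk : n ≤ k) : ((sys G l m).gen n f k g).1 x ≠ 0 := by
  induction k, hk using Nat.le_induction with
  | base => rwa [IndSys.gen_self]
  | succ k hk ih =>
    rw [IndSys.gen_succ hk]
    exact map_ne_zero_at k _ g x ih

theorem exists_pos_trf {J : Type} [Fintype J] [DecidableEq J] {X : Type} {wt : J → Finset X}
    (f : Balg wt) (x : X → S3) (h : f.1 x ≠ 0) :
    ∃ δ : ℝ, 0 < δ ∧ trf (star f * f) x = (δ : ℂ) := by
  refine ⟨∑ i, ∑ j, ‖(f.1 x).e j i‖ ^ 2, ?_, ?_⟩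
  · have h1 : ∃ i j, (f.1 x).e j i ≠ 0 := by
      by_contra hcon
      push Not at hcon
      exact h (MJ.ext fun j i => by rw [hcon i j]; rfl)
    obtain ⟨i, j, hij⟩ := h1
    refine Finset.sum_pos' (fun i _ => Finset.sum_nonneg fun j _ => sq_nonneg _)
      ⟨i, Finset.mem_univ _, ?_⟩
    refine Finset.sum_pos' (fun j _ => sq_nonneg _) ⟨j, Finset.mem_univ _, ?_⟩
    positivity
  · rw [trf_star_mul]
    push_cast
    rfl

theorem sys_full (hl : Tendsto l atTop atTop) [PartialOrder (sys G l m).Lim]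
    [StarOrderedRing (sys G l m).Lim] (n : ℕ) (c : AA G l m n) (hc : c ≠ 0) :
    ∃ (κ : Type) (_ : Fintype κ) (E : κ → (sys G l m).Lim) (δ : ℝ), 0 < δ ∧
      algebraMap ℝ (sys G l m).Lim δ ≤
        ∑ i, E i * (sys G l m).ι n (star c * c) * star (E i) := by
  obtain ⟨g, hg⟩ : ∃ g, c g ≠ 0 := by
    by_contra hcon
    push Not at hcon
    exact hc (funext hcon)
  obtain ⟨x, hx⟩ : ∃ x, (c g).1 x ≠ 0 := by
    by_contra hcon
    push Not at hcon
    exact hg (Balg_ext hcon)
  have hU : IsOpen {x | (c g).1 x ≠ 0} :=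
    isOpen_ne_fun (c g).1.continuous continuous_const
  obtain ⟨N, hN⟩ := eventually_atTop.1 (hl.eventually_ge_atTop 1)
  obtain ⟨k, hk, hxk⟩ := exists_xpt_mem G l m _ hU ⟨x, hx⟩ (max n N)
  have hnk : n ≤ k := (le_max_left _ _).trans hk
  have hlk : 1 ≤ l k := hN k ((le_max_right _ _).trans hk)
  set ck := (sys G l m).gen n c k with hck
  have hck0 : (ck g).1 (xpt G l m k) ≠ 0 := gen_ne_zero_at n c g _ hxk hnk
  obtain ⟨δ, hδ, hδ'⟩ := exists_pos_trf (ck g) _ hck0
  set h' : AA G l m (k + 1) := (sys G l m).map k (star ck * ck) with hh'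
  have hlow : ∀ b x, (δ : ℂ) ≤ trf (h' b) x := by
    intro b x
    have h1 : trf (h' b) x = trf ((star ck * ck) b) x + (l k : ℂ) *
      ∑ c, trf ((star ck * ck) c) (xpt G l m k) :=
      trf_step (l k) (newc G l m k) (xpt G l m k) (star ck * ck) b x
    rw [h1]
    have h2 : 0 ≤ trf ((star ck * ck) b) x := trf_star_mul_nonneg (ck b) x
    have h3 : (δ : ℂ) ≤ ∑ c, trf ((star ck * ck) c) (xpt G l m k) := by
      rw [← hδ']
      exact Finset.single_le_sum (f := fun c => trf ((star ck * ck) c) (xpt G l m k))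
        (fun c _ => trf_star_mul_nonneg (ck c) _) (Finset.mem_univ g)
    have h4 : (0 : ℂ) ≤ ∑ c, trf ((star ck * ck) c) (xpt G l m k) :=
      Finset.sum_nonneg fun c _ => trf_star_mul_nonneg (ck c) _
    have h5 : (1 : ℂ) ≤ (l k : ℂ) := by exact_mod_cast hlk
    calc (δ : ℂ) ≤ 1 * ∑ c, trf ((star ck * ck) c) (xpt G l m k) := by rwa [one_mul]
      _ ≤ (l k : ℂ) * ∑ c, trf ((star ck * ck) c) (xpt G l m k) :=
          mul_le_mul_of_nonneg_right h5 h4
      _ ≤ _ := le_add_of_nonneg_left h2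
  choose y hy using fun b => exists_sqrt_scal (wt := wts G l m (k + 1)) (trf (h' b))
    (trf_rot (h' b)) δ (hlow b)
  have h6 : trE G l m (k + 1) h' = (δ : ℂ) • (1 : AA G l m (k + 1)) + star (show AA G l m (k+1) from y) * y := by
    funext b
    exact hy b
  refine ⟨VI (wts G l m (k + 1)) × VI (wts G l m (k + 1)), inferInstance,
    fun p => (sys G l m).ι (k + 1) (EE G l m (k + 1) p.1 p.2), δ, hδ, ?_⟩
  have h7 : (sys G l m).ι n (star c * c) = (sys G l m).ι (k + 1) h' := by
    rw [hh', IndSys.ι_map, map_mul, map_mul, map_star, map_star, hck, IndSys.ι_gen n c hnk]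
  have h8 : ∑ p : VI (wts G l m (k + 1)) × VI (wts G l m (k + 1)),
      (sys G l m).ι (k + 1) (EE G l m (k + 1) p.1 p.2) * (sys G l m).ι n (star c * c) *
        star ((sys G l m).ι (k + 1) (EE G l m (k + 1) p.1 p.2)) =
      (sys G l m).ι (k + 1) (trE G l m (k + 1) h') := by
    rw [← sum_EE_mul, h7, Fintype.sum_prod_type]
    simp only [map_sum, map_mul, map_star]
  rw [h8, h6, map_add, map_smul, map_one, map_mul, map_star]
  have h9 : algebraMap ℝ (sys G l m).Lim δ = (δ : ℂ) • (1 : (sys G l m).Lim) := by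
    rw [Algebra.algebraMap_eq_smul_one]
    exact (Complex.coe_smul δ (1 : (sys G l m).Lim)).symm
  rw [h9]
  exact le_add_of_nonneg_right (star_mul_self_nonneg _)

instance nontrivial_lim : Nontrivial (sys G l m).Lim := by
  have h : ∃ τ : (sys G l m).Lim →ₗ[ℂ] ℂ, IsTracialState τ := exists_tracialState_sys G l m
  obtain ⟨τ, hτ⟩ := h
  refine ⟨⟨0, 1, fun h01 => ?_⟩⟩
  have := hτ.map_one
  rw [← h01, map_zero] at this
  exact zero_ne_one this

theorem isSimpleRing_sys (hl : Tendsto l atTop atTop) : IsSimpleRing (sys G l m).Lim := by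
  let _ := CStarAlgebra.spectralOrder (sys G l m).Lim
  have := CStarAlgebra.spectralOrderedRing (sys G l m).Lim
  exact isSimpleRing_lim (fun n c hc => sys_full hl n c hc)

end

end Pool.Agent.Lib.P81d4f5
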