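import Pool.Agent.Lib.P81d4f5.Hankel

set_option autoImplicit false

/-!
Every continuous function of a given weight maps homogeneous polynomials of large degree
to homogeneous polynomials, up to a small error.
-/

open MeasureTheory unitInterval

namespace Pool.Agent.Lib.P81d4f5

variable {κ : Type} [Fintype κ] [DecidableEq κ]

/-- the torus action on a product of spheres -/
def rotm (c : κ → Circle) (x : κ → S3) : κ → S3 := fun s => S3.rot (c s) (x s)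

/-- functions of weight `v` for the torus action -/
def HasWt (v : κ → ℤ) (F : C(κ → S3, ℂ)) : Prop :=
  ∀ (c : κ → Circle) (x : κ → S3), F (rotm c x) = (∏ s, (c s : ℂ) ^ v s) * F x

/-- asymptotic preservation of homogeneous polynomials -/
def Good (v : κ → ℤ) (F : C(κ → S3, ℂ)) : Prop :=
  ∀ ε : ℝ, 0 < ε → ∃ d0 : ℕ, ∀ d d' : κ → ℕ, (∀ s, d0 ≤ d s) → (∀ s, (d' s : ℤ) = d s + v s) →
    ∀ c, ∃ c', ‖T (F * U d c) - T (U d' c')‖ ≤ ε * ‖T (U d c)‖

theorem U_zero (d : κ → ℕ) : U d (fun _ => 0) = 0 := by simp [U]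

theorem U_add (d : κ → ℕ) (c c' : (κ → ℕ) → ℂ) : U d c + U d c' = U d (fun n => c n + c' n) := by
  simp [U, add_smul, Finset.sum_add_distrib]

theorem U_smul (d : κ → ℕ) (a : ℂ) (c : (κ → ℕ) → ℂ) : a • U d c = U d (fun n => a * c n) := by
  simp [U, Finset.smul_sum, smul_smul]

theorem good_zero (v : κ → ℤ) : Good v (0 : C(κ → S3, ℂ)) := by
  intro ε hε
  refine ⟨0, fun d d' _ _ c => ⟨fun _ => 0, ?_⟩⟩
  rw [U_zero, zero_mul, sub_self, norm_zero]
  positivity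

theorem good_one : Good (κ := κ) 0 1 := by
  intro ε hε
  refine ⟨0, fun d d' _ h c => ⟨c, ?_⟩⟩
  have : d' = d := by
    ext s; have := h s; simp at this; exact this
  rw [this, one_mul, sub_self, norm_zero]
  positivity

theorem Good.smul {v : κ → ℤ} {F : C(κ → S3, ℂ)} (h : Good v F) (a : ℂ) : Good v (a • F) := by
  intro ε hε
  obtain ⟨d0, h0⟩ := h (ε / (‖a‖ + 1)) (by positivity)
  refine ⟨d0, fun d d' h1 h2 c => ?_⟩
  obtain ⟨c', hc'⟩ := h0 d d' h1 h2 c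
  refine ⟨fun n => a * c' n, ?_⟩
  rw [← U_smul, smul_mul_assoc, map_smul, map_smul, ← smul_sub, norm_smul]
  calc ‖a‖ * ‖T (F * U d c) - T (U d' c')‖ ≤ ‖a‖ * (ε / (‖a‖ + 1) * ‖T (U d c)‖) := by gcongr
    _ = (‖a‖ / (‖a‖ + 1)) * (ε * ‖T (U d c)‖) := by ring
    _ ≤ 1 * (ε * ‖T (U d c)‖) := by
        gcongr
        rw [div_le_one (by positivity)]
        linarith [norm_nonneg a]
    _ = _ := one_mul _

theorem Good.add {v : κ → ℤ} {F G : C(κ → S3, ℂ)} (hF : Good v F) (hG : Good v G) :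
    Good v (F + G) := by
  intro ε hε
  obtain ⟨d1, h1⟩ := hF (ε / 2) (by positivity)
  obtain ⟨d2, h2⟩ := hG (ε / 2) (by positivity)
  refine ⟨max d1 d2, fun d d' h3 h4 c => ?_⟩
  obtain ⟨c1, hc1⟩ := h1 d d' (fun s => le_trans (le_max_left _ _) (h3 s)) h4 c
  obtain ⟨c2, hc2⟩ := h2 d d' (fun s => le_trans (le_max_right _ _) (h3 s)) h4 c
  refine ⟨fun n => c1 n + c2 n, ?_⟩
  rw [← U_add, add_mul, map_add, map_add]
  have : T (F * U d c) + T (G * U d c) - (T (U d' c1) + T (U d' c2)) =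
    (T (F * U d c) - T (U d' c1)) + (T (G * U d c) - T (U d' c2)) := by abel
  rw [this]
  calc _ ≤ ‖T (F * U d c) - T (U d' c1)‖ + ‖T (G * U d c) - T (U d' c2)‖ := norm_add_le _ _
    _ ≤ ε / 2 * ‖T (U d c)‖ + ε / 2 * ‖T (U d c)‖ := by gcongr
    _ = _ := by ring

theorem Good.mul {v w : κ → ℤ} {F G : C(κ → S3, ℂ)} (hF : Good v F) (hG : Good w G) :
    Good (v + w) (F * G) := by
  intro ε hε
  set ε1 : ℝ := min 1 (ε / (2 * (‖F‖ + 1))) with hε1
  have hε1pos : 0 < ε1 := lt_min one_pos (by positivity)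
  set ε2 : ℝ := ε / (2 * (‖G‖ + 1)) with hε2
  have hε2pos : 0 < ε2 := by positivity
  obtain ⟨d1, h1⟩ := hF ε2 hε2pos
  obtain ⟨d2, h2⟩ := hG ε1 hε1pos
  refine ⟨max d2 (d1 + ∑ s, (w s).natAbs), fun d d' h3 h4 c => ?_⟩
  have hw : ∀ s, (w s).natAbs ≤ ∑ s, (w s).natAbs := fun s =>
    Finset.single_le_sum (f := fun s => (w s).natAbs) (fun _ _ => Nat.zero_le _) (Finset.mem_univ s)
  have hds : ∀ s, d1 + (w s).natAbs ≤ d s := fun s => by
    have := le_trans (le_max_right _ _) (h3 s)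
    have := hw s
    omega
  let e : κ → ℕ := fun s => ((d s : ℤ) + w s).toNat
  have he : ∀ s, (e s : ℤ) = d s + w s := fun s => by
    have := hds s
    simp only [e]
    omega
  obtain ⟨c1, hc1⟩ := h2 d e (fun s => le_trans (le_max_left _ _) (h3 s)) he c
  obtain ⟨c2, hc2⟩ := h1 e d' (fun s => by have := hds s; have := he s; omega)
    (fun s => by rw [he s, h4 s]; simp only [Pi.add_apply]; ring) c1
  refine ⟨c2, ?_⟩
  have e1 : T (F * G * U d c) - T (U d' c2) =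
      T (F * (G * U d c - U e c1)) + (T (F * U e c1) - T (U d' c2)) := by
    rw [mul_sub, map_sub, mul_assoc]; abel
  have e2 : ‖T (U e c1)‖ ≤ (‖G‖ + 1) * ‖T (U d c)‖ := by
    have : T (U e c1) = T (G * U d c) - (T (G * U d c) - T (U e c1)) := by abel
    rw [this]
    calc _ ≤ ‖T (G * U d c)‖ + ‖T (G * U d c) - T (U e c1)‖ := norm_sub_le _ _
      _ ≤ ‖G‖ * ‖T (U d c)‖ + ε1 * ‖T (U d c)‖ := add_le_add (norm_T_mul_le _ _) hc1
      _ ≤ ‖G‖ * ‖T (U d c)‖ + 1 * ‖T (U d c)‖ := by gcongr; exact min_le_left _ _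
      _ = _ := by ring
  rw [e1]
  calc _ ≤ ‖T (F * (G * U d c - U e c1))‖ + ‖T (F * U e c1) - T (U d' c2)‖ := norm_add_le _ _
    _ ≤ ‖F‖ * ‖T (G * U d c - U e c1)‖ + ε2 * ‖T (U e c1)‖ := add_le_add (norm_T_mul_le _ _) hc2
    _ ≤ ‖F‖ * (ε1 * ‖T (U d c)‖) + ε2 * ((‖G‖ + 1) * ‖T (U d c)‖) := by
        rw [map_sub]; gcongr
    _ ≤ ‖F‖ * (ε / (2 * (‖F‖ + 1)) * ‖T (U d c)‖) + ε2 * ((‖G‖ + 1) * ‖T (U d c)‖) := by
        gcongr; exact min_le_right _ _
    _ = (‖F‖ / (‖F‖ + 1)) * (ε / 2 * ‖T (U d c)‖) + ε / 2 * ‖T (U d c)‖ := by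
        rw [hε2]; field_simp
    _ ≤ 1 * (ε / 2 * ‖T (U d c)‖) + ε / 2 * ‖T (U d c)‖ := by
        gcongr
        rw [div_le_one (by positivity)]
        linarith [norm_nonneg F]
    _ = _ := by ring

theorem good_of_approx {v : κ → ℤ} {F : C(κ → S3, ℂ)}
    (h : ∀ ε : ℝ, 0 < ε → ∃ G, Good v G ∧ ‖F - G‖ ≤ ε) : Good v F := by
  intro ε hε
  obtain ⟨G, hG, hFG⟩ := h (ε / 2) (by positivity)
  obtain ⟨d0, h0⟩ := hG (ε / 2) (by positivity)
  refine ⟨d0, fun d d' h1 h2 c => ?_⟩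
  obtain ⟨c', hc'⟩ := h0 d d' h1 h2 c
  refine ⟨c', ?_⟩
  have : T (F * U d c) - T (U d' c') = T ((F - G) * U d c) + (T (G * U d c) - T (U d' c')) := by
    rw [sub_mul, map_sub]; abel
  rw [this]
  calc _ ≤ ‖T ((F - G) * U d c)‖ + ‖T (G * U d c) - T (U d' c')‖ := norm_add_le _ _
    _ ≤ ‖F - G‖ * ‖T (U d c)‖ + ε / 2 * ‖T (U d c)‖ := add_le_add (norm_T_mul_le _ _) hc'
    _ ≤ ε / 2 * ‖T (U d c)‖ + ε / 2 * ‖T (U d c)‖ := by gcongr
    _ = _ := by ring

theorem good_zc (s : κ) (i : Fin 2) : Good (Pi.single s 1) (zc s i) := by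
  intro ε hε
  refine ⟨0, fun d d' _ h c => ?_⟩
  have : d' = d + Pi.single s 1 := by
    ext t
    have := h t
    by_cases hts : t = s
    · subst hts; simp only [Pi.single_eq_same, Pi.add_apply] at *; omega
    · simp only [Pi.single_eq_of_ne hts, Pi.add_apply] at *; omega
  obtain ⟨c', hc'⟩ := exists_zc_mul_U s i d c
  refine ⟨c', ?_⟩
  rw [this, hc', sub_self, norm_zero]
  positivity

theorem good_star_zc (s : κ) (i : Fin 2) : Good (-Pi.single s 1) (star (zc s i)) := by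
  intro ε hε
  obtain ⟨N, hN⟩ := exists_nat_gt (1 / ε ^ 2)
  refine ⟨N + 1, fun d d' h0 h c => ?_⟩
  have hd : d = d' + Pi.single s 1 := by
    ext t
    have := h t
    by_cases hts : t = s
    · subst hts; simp only [Pi.single_eq_same, Pi.add_apply, Pi.neg_apply] at *; omega
    · simp only [Pi.single_eq_of_ne hts, Pi.add_apply, Pi.neg_apply, neg_zero] at *; omega
  obtain ⟨c', hc'⟩ := hankel s i d' c
  refine ⟨c', ?_⟩
  rw [← hd] at hc'
  have h1 : (N : ℝ) ≤ d' s := by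
    have := h0 s
    have h2 : d s = d' s + 1 := by rw [hd]; simp
    have : N ≤ d' s := by omega
    exact_mod_cast this
  have h2 : 1 / ((d' s : ℝ) + 3) ≤ ε ^ 2 := by
    rw [div_le_iff₀ (by positivity)]
    rw [div_lt_iff₀ (by positivity)] at hN
    nlinarith [sq_nonneg ε]
  have h3 : ‖T (star (zc s i) * U d c) - T (U d' c')‖ ^ 2 ≤ (ε * ‖T (U d c)‖) ^ 2 := by
    calc _ ≤ 1 / ((d' s : ℝ) + 3) * ‖T (U d c)‖ ^ 2 := hc'
      _ ≤ ε ^ 2 * ‖T (U d c)‖ ^ 2 := by gcongr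
      _ = _ := by ring
  exact (sq_le_sq₀ (norm_nonneg _) (by positivity)).mp h3

end Pool.Agent.Lib.P81d4f5
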