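import Pool.Agent.Lib.P81d4f5.Mono

set_option autoImplicit false

/-!
Multiplication by a conjugate coordinate almost preserves spaces of homogeneous polynomials.
-/

open MeasureTheory unitInterval

namespace Pool.Agent.Lib.P81d4f5

variable {κ : Type} [Fintype κ] [DecidableEq κ]

/-- exponent of coordinate `i` at `s` -/
def ex (i : Fin 2) (d n : κ → ℕ) (s : κ) : ℕ := if i = 0 then d s - n s else n s

/-- the shift of exponents corresponding to multiplication by `z_{s,i}` -/
def sh (s : κ) (i : Fin 2) (n : κ → ℕ) : κ → ℕ := if i = 0 then n else n + Pi.single s 1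

theorem sh_mem {s : κ} {i : Fin 2} {d n : κ → ℕ} (hn : n ∈ box d) :
    sh s i n ∈ box (d + Pi.single s 1) := by
  rw [mem_box] at *
  intro t
  have := hn t
  unfold sh
  split_ifs <;> simp only [Pi.add_apply] <;> omega

theorem sh_injective (s : κ) (i : Fin 2) : Function.Injective (sh s i) := by
  intro n m h
  unfold sh at h
  split_ifs at h
  · exact h
  · exact add_right_cancel h

theorem ex_sh {s : κ} {i : Fin 2} {d n : κ → ℕ} (hn : n ∈ box d) :
    ex i (d + Pi.single s 1) (sh s i n) s = ex i d n s + 1 := by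
  rw [mem_box] at hn
  have := hn s
  unfold ex sh
  split_ifs <;> simp only [Pi.add_apply, Pi.single_eq_same] <;> omega

theorem exists_sh {s : κ} {i : Fin 2} {d n : κ → ℕ} (hn : n ∈ box (d + Pi.single s 1))
    (he : ex i (d + Pi.single s 1) n s ≠ 0) : ∃ m ∈ box d, sh s i m = n := by
  rw [mem_box] at hn
  unfold ex at he
  by_cases hi : i = 0
  · refine ⟨n, ?_, by simp [sh, hi]⟩
    rw [mem_box]
    intro t
    simp only [hi, if_true, Pi.add_apply, Pi.single_eq_same] at he
    have := hn t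
    by_cases hts : t = s
    · subst hts; omega
    · simpa [Pi.single_eq_of_ne hts] using this
  · simp only [hi, if_false] at he
    refine ⟨n - Pi.single s 1, ?_, ?_⟩
    · rw [mem_box]
      intro t
      have := hn t
      by_cases hts : t = s
      · subst hts; simp only [Pi.sub_apply, Pi.add_apply, Pi.single_eq_same] at *; omega
      · simpa [Pi.single_eq_of_ne hts] using this
    · simp only [sh, hi, if_false]
      ext t
      by_cases hts : t = s
      · subst hts; simp only [Pi.sub_apply, Pi.add_apply, Pi.single_eq_same] at *; omega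
      · simp [Pi.single_eq_of_ne hts]

theorem sum_sh {E : Type} [AddCommMonoid E] (s : κ) (i : Fin 2) (d : κ → ℕ) (ψ : (κ → ℕ) → E) :
    ∑ n ∈ box d, (ex i d n s + 1) • ψ (sh s i n) =
      ∑ n ∈ box (d + Pi.single s 1), ex i (d + Pi.single s 1) n s • ψ n := by
  have h1 : ∑ n ∈ box (d + Pi.single s 1), ex i (d + Pi.single s 1) n s • ψ n =
      ∑ n ∈ (box (d + Pi.single s 1)).filter (fun n => ex i (d + Pi.single s 1) n s ≠ 0),
        ex i (d + Pi.single s 1) n s • ψ n := by
    symm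
    apply Finset.sum_filter_of_ne
    intro n _ hn h0
    apply hn
    rw [h0, zero_smul]
  rw [h1]
  apply Finset.sum_nbij (sh s i)
  · intro n hn
    rw [Finset.mem_filter]
    exact ⟨sh_mem hn, by rw [ex_sh hn]; omega⟩
  · exact fun a _ b _ h => sh_injective s i h
  · intro n hn
    simp only [Finset.coe_filter, Set.mem_ofPred_eq] at hn
    obtain ⟨m, hm, hm'⟩ := exists_sh hn.1 hn.2
    exact ⟨m, hm, hm'⟩
  · intro n hn
    rw [ex_sh hn]

theorem zc_mul_hm {s : κ} {i : Fin 2} {d n : κ → ℕ} (hn : n ∈ box d) :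
    zc s i * hm d n = hm (d + Pi.single s 1) (sh s i n) := by
  rw [mem_box] at hn
  unfold hm mono
  rw [← Finset.mul_prod_erase Finset.univ _ (Finset.mem_univ s),
    ← Finset.mul_prod_erase Finset.univ _ (Finset.mem_univ s), ← mul_assoc]
  have hs := hn s
  congr 1
  · by_cases hi : i = 0
    · subst hi
      simp only [sh, if_true, Pi.add_apply, Pi.single_eq_same]
      rw [show d s + 1 - n s = (d s - n s) + 1 by omega]
      ring
    · have hi' : i = 1 := by omega
      subst hi'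
      simp only [sh, hi, if_false, Pi.add_apply, Pi.single_eq_same]
      rw [show d s + 1 - (n s + 1) = (d s - n s) by omega]
      ring
  · apply Finset.prod_congr rfl
    intro t ht
    have hts : t ≠ s := Finset.ne_of_mem_erase ht
    unfold sh
    split_ifs <;> simp [Pi.single_eq_of_ne hts]

theorem Bn_sh {s : κ} {i : Fin 2} {d n : κ → ℕ} (hn : n ∈ box d) :
    Bn (d + Pi.single s 1) (sh s i n) = (ex i d n s + 1) / (d s + 2) * Bn d n := by
  rw [mem_box] at hn
  unfold Bn
  rw [← Finset.mul_prod_erase Finset.univ _ (Finset.mem_univ s),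
    ← Finset.mul_prod_erase Finset.univ (fun t => bet (d t - n t) (n t)) (Finset.mem_univ s),
    ← mul_assoc]
  have hs := hn s
  congr 1
  · by_cases hi : i = 0
    · subst hi
      simp only [sh, ex, if_true, Pi.add_apply, Pi.single_eq_same]
      rw [show d s + 1 - n s = (d s - n s) + 1 by omega, bet_succ_left]
      have : ((d s - n s : ℕ) : ℝ) + n s = d s := by
        rw [← Nat.cast_add]; congr 1; omega
      rw [this]
    · have hi' : i = 1 := by omega
      subst hi'
      simp only [sh, ex, hi, if_false, Pi.add_apply, Pi.single_eq_same]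
      rw [show d s + 1 - (n s + 1) = (d s - n s) by omega, bet_succ_right]
      have : ((d s - n s : ℕ) : ℝ) + n s = d s := by
        rw [← Nat.cast_add]; congr 1; omega
      rw [this]
  · apply Finset.prod_congr rfl
    intro t ht
    have hts : t ≠ s := Finset.ne_of_mem_erase ht
    unfold sh
    split_ifs <;> simp [Pi.single_eq_of_ne hts]

theorem Bn_sh' {s : κ} {i : Fin 2} {d n : κ → ℕ} (hn : n ∈ box d) :
    ((ex i d n s + 1 : ℕ) : ℝ) * Bn d n = (d s + 2) * Bn (d + Pi.single s 1) (sh s i n) := by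
  rw [Bn_sh hn]
  have : (d s + 2 : ℝ) ≠ 0 := by positivity
  field_simp
  push_cast
  ring

/-- multiplication by a coordinate is an exact shift -/
theorem exists_zc_mul_U (s : κ) (i : Fin 2) (d : κ → ℕ) (c : (κ → ℕ) → ℂ) :
    ∃ c', zc s i * U d c = U (d + Pi.single s 1) c' := by
  refine ⟨fun n => if h : ∃ m ∈ box d, sh s i m = n then c h.choose else 0, ?_⟩
  unfold U
  rw [Finset.mul_sum]
  have : ∑ n ∈ box (d + Pi.single s 1), (if h : ∃ m ∈ box d, sh s i m = n then c h.choose else 0) •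
      hm (d + Pi.single s 1) n = ∑ n ∈ (box d).image (sh s i),
      (if h : ∃ m ∈ box d, sh s i m = n then c h.choose else 0) • hm (d + Pi.single s 1) n := by
    symm
    apply Finset.sum_subset
    · intro n hn
      obtain ⟨m, hm, rfl⟩ := Finset.mem_image.mp hn
      exact sh_mem hm
    · intro n _ hn
      rw [Finset.mem_image] at hn
      rw [dif_neg hn, zero_smul]
  rw [this, Finset.sum_image (fun a _ b _ h => sh_injective s i h)]
  apply Finset.sum_congr rfl
  intro n hn
  have hex : ∃ m ∈ box d, sh s i m = sh s i n := ⟨n, hn, rfl⟩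
  have h2 : hex.choose = n := sh_injective s i hex.choose_spec.2
  rw [dif_pos hex, h2, mul_smul_comm, zc_mul_hm hn]

theorem zc_mul_U_eq (s : κ) (i : Fin 2) (d : κ → ℕ) (c : (κ → ℕ) → ℂ) :
    zc s i * U d (fun n => ((ex i d n s + 1 : ℕ) : ℂ) / (d s + 2) * c (sh s i n)) =
      U (d + Pi.single s 1)
        (fun n => ((ex i (d + Pi.single s 1) n s : ℕ) : ℂ) / (d s + 2) * c n) := by
  unfold U
  rw [Finset.mul_sum]
  have h := sum_sh s i d (fun n => (c n / (d s + 2)) • hm (d + Pi.single s 1) n)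
  have h1 : ∀ n ∈ box d, zc s i * ((((ex i d n s + 1 : ℕ) : ℂ) / (d s + 2) * c (sh s i n)) • hm d n) =
      (ex i d n s + 1) • (fun n => (c n / (d s + 2)) • hm (d + Pi.single s 1) n) (sh s i n) := by
    intro n hn
    rw [mul_smul_comm, zc_mul_hm hn]
    simp only
    rw [← Nat.cast_smul_eq_nsmul ℂ, smul_smul]
    congr 1
    push_cast
    ring
  rw [Finset.sum_congr rfl h1, h]
  apply Finset.sum_congr rfl
  intro n _
  simp only
  rw [← Nat.cast_smul_eq_nsmul ℂ, smul_smul]
  congr 1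
  ring

theorem norm_sq_zc_mul_U (s : κ) (i : Fin 2) (d : κ → ℕ) (c : (κ → ℕ) → ℂ) :
    ‖T (zc s i * U d c)‖ ^ 2 = ∑ n ∈ box d, ((ex i d n s : ℝ) + 1) / (d s + 2) * Bn d n * ‖c n‖ ^ 2 := by
  have h1 : zc s i * U d c = ∑ n ∈ box d, c n • hm (d + Pi.single s 1) (sh s i n) := by
    unfold U
    rw [Finset.mul_sum]
    apply Finset.sum_congr rfl
    intro n hn
    rw [mul_smul_comm, zc_mul_hm hn]
  rw [h1, @norm_sq_eq_re_inner ℂ]
  simp only [map_sum, map_smul, sum_inner, inner_sum, inner_smul_left, inner_smul_right]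
  apply Finset.sum_congr rfl
  intro n hn
  have : ∀ m ∈ box d, (starRingEnd ℂ) (c m) * inner ℂ (T (hm (d + Pi.single s 1) (sh s i m)))
      (T (hm (d + Pi.single s 1) (sh s i n))) =
      if n = m then (Bn (d + Pi.single s 1) (sh s i n) : ℂ) * ((starRingEnd ℂ) (c n)) else 0 := by
    intro m hm'
    rw [inner_hm (sh_mem hm') (sh_mem hn)]
    by_cases h : n = m
    · subst h; simp; ring
    · rw [if_neg h, if_neg (fun h' => h (sh_injective s i h').symm), mul_zero]
  rw [Finset.sum_congr rfl this, Finset.sum_ite_eq]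
  simp only [hn, if_true]
  have h3 : c n * ((Bn (d + Pi.single s 1) (sh s i n) : ℂ) * (starRingEnd ℂ) (c n)) =
      ((Bn (d + Pi.single s 1) (sh s i n) * ‖c n‖ ^ 2 : ℝ) : ℂ) := by
    have : c n * (starRingEnd ℂ) (c n) = ((‖c n‖ ^ 2 : ℝ) : ℂ) := by
      rw [Complex.mul_conj, Complex.normSq_eq_norm_sq]
    rw [Complex.ofReal_mul, ← this]
    ring
  rw [h3, Bn_sh hn]
  exact Complex.ofReal_re _

theorem norm_T_conj_zc (s : κ) (i : Fin 2) (f : C(κ → S3, ℂ)) :
    ‖T (star (zc s i) * f)‖ = ‖T (zc s i * f)‖ := by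
  have : ‖T (star (zc s i) * f)‖ ^ 2 = ‖T (zc s i * f)‖ ^ 2 := by
    rw [norm_sq_T, norm_sq_T]
    congr 1
    ext ω
    simp
  exact (pow_left_inj₀ (norm_nonneg _) (norm_nonneg _) two_ne_zero).mp this

theorem inner_conj_zc (s : κ) (i : Fin 2) (f g : C(κ → S3, ℂ)) :
    inner ℂ (T (star (zc s i) * f)) (T g) = inner ℂ (T f) (T (zc s i * g)) := by
  rw [inner_T, inner_T]
  congr 1
  ext ω
  simp only [ContinuousMap.mul_apply, ContinuousMap.star_apply, map_mul, RCLike.star_def,
    RingHomCompTriple.comp_apply, RingHom.id_apply, starRingEnd_self_apply]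
  ring

/-- Multiplication by a conjugate coordinate, up to a small error, maps homogeneous
polynomials to homogeneous polynomials. -/
theorem hankel (s : κ) (i : Fin 2) (d : κ → ℕ) (c : (κ → ℕ) → ℂ) :
    ∃ c', ‖T (star (zc s i) * U (d + Pi.single s 1) c) - T (U d c')‖ ^ 2 ≤
      1 / (d s + 3) * ‖T (U (d + Pi.single s 1) c)‖ ^ 2 := by
  refine ⟨fun n => ((ex i d n s + 1 : ℕ) : ℂ) / (d s + 2) * c (sh s i n), ?_⟩
  set D := d + Pi.single s 1 with hD
  set c' : (κ → ℕ) → ℂ := fun n => ((ex i d n s + 1 : ℕ) : ℂ) / (d s + 2) * c (sh s i n) with hc'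
  have hDs : (D s : ℝ) = d s + 1 := by simp [hD]
  -- three terms
  have t1 : ‖T (star (zc s i) * U D c)‖ ^ 2 =
      ∑ n ∈ box D, ((ex i D n s : ℝ) + 1) / (d s + 3) * Bn D n * ‖c n‖ ^ 2 := by
    rw [norm_T_conj_zc, norm_sq_zc_mul_U]
    apply Finset.sum_congr rfl
    intro n _
    rw [hDs]; ring_nf
  have t2 : inner ℂ (T (star (zc s i) * U D c)) (T (U d c')) =
      ((∑ n ∈ box D, (ex i D n s : ℝ) / (d s + 2) * Bn D n * ‖c n‖ ^ 2 : ℝ) : ℂ) := by
    rw [inner_conj_zc, hc', zc_mul_U_eq, inner_U, Complex.ofReal_sum]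
    apply Finset.sum_congr rfl
    intro n _
    have : c n * (starRingEnd ℂ) (c n) = ((‖c n‖ ^ 2 : ℝ) : ℂ) := by
      rw [Complex.mul_conj, Complex.normSq_eq_norm_sq]
    rw [Complex.ofReal_mul, ← this]
    push_cast
    ring
  have t3 : ‖T (U d c')‖ ^ 2 = ∑ n ∈ box D, (ex i D n s : ℝ) / (d s + 2) * Bn D n * ‖c n‖ ^ 2 := by
    rw [norm_sq_U]
    have h := sum_sh s i d (fun n => Bn D n * ‖c n‖ ^ 2 / (d s + 2))
    have h1 : ∀ n ∈ box d, Bn d n * ‖c' n‖ ^ 2 =
        (ex i d n s + 1) • (fun n => Bn D n * ‖c n‖ ^ 2 / (d s + 2)) (sh s i n) := by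
      intro n hn
      have h2 := Bn_sh' (s := s) (i := i) hn
      have h3 : ‖c' n‖ = ((ex i d n s + 1 : ℕ) : ℝ) / (d s + 2) * ‖c (sh s i n)‖ := by
        rw [hc']
        simp only [norm_mul, norm_div, Complex.norm_natCast]
        congr 2
        rw [show ((d s : ℂ) + 2) = ((d s + 2 : ℕ) : ℂ) by push_cast; ring, Complex.norm_natCast]
        push_cast; ring
      rw [h3]
      simp only [nsmul_eq_mul]
      have h4 : (d s + 2 : ℝ) ≠ 0 := by positivity
      have h5 : Bn d n * (((ex i d n s + 1 : ℕ) : ℝ) / (d s + 2) * ‖c (sh s i n)‖) ^ 2 =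
        (((ex i d n s + 1 : ℕ) : ℝ) * Bn d n) * (((ex i d n s + 1 : ℕ) : ℝ) / (d s + 2) ^ 2 * ‖c (sh s i n)‖ ^ 2) := by
        field_simp
      rw [h5, h2, ← hD]
      field_simp
    rw [Finset.sum_congr rfl h1, h]
    apply Finset.sum_congr rfl
    intro n _
    simp only [nsmul_eq_mul]
    ring
  have t4 : ‖T (star (zc s i) * U D c) - T (U d c')‖ ^ 2 =
      ∑ n ∈ box D, (((ex i D n s : ℝ) + 1) / (d s + 3) - (ex i D n s : ℝ) / (d s + 2)) * Bn D n * ‖c n‖ ^ 2 := by
    rw [@norm_sub_sq ℂ, t1, t2, t3]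
    have : RCLike.re (((∑ n ∈ box D, (ex i D n s : ℝ) / (d s + 2) * Bn D n * ‖c n‖ ^ 2 : ℝ) : ℂ)) =
      ∑ n ∈ box D, (ex i D n s : ℝ) / (d s + 2) * Bn D n * ‖c n‖ ^ 2 := Complex.ofReal_re _
    rw [this]
    have : ∀ a b : ℝ, a - 2 * b + b = a - b := by intro a b; ring
    rw [this, ← Finset.sum_sub_distrib]
    apply Finset.sum_congr rfl
    intro n _
    ring
  rw [t4, norm_sq_U, Finset.mul_sum]
  apply Finset.sum_le_sum
  intro n _
  have hB := Bn_pos D n
  have hcn := sq_nonneg ‖c n‖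
  have key : ((ex i D n s : ℝ) + 1) / (d s + 3) - (ex i D n s : ℝ) / (d s + 2) ≤ 1 / (d s + 3) := by
    rw [add_div]
    have : (ex i D n s : ℝ) / (d s + 3) ≤ (ex i D n s : ℝ) / (d s + 2) := by
      apply div_le_div_of_nonneg_left
      · positivity
      · positivity
      · linarith
    linarith
  calc _ = (((ex i D n s : ℝ) + 1) / (d s + 3) - (ex i D n s : ℝ) / (d s + 2)) * (Bn D n * ‖c n‖ ^ 2) := by ring
    _ ≤ 1 / (d s + 3) * (Bn D n * ‖c n‖ ^ 2) := by
        apply mul_le_mul_of_nonneg_right key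
        positivity

end Pool.Agent.Lib.P81d4f5
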