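import Pool.Agent.Lib.P81d4f5.Sys

/-!
The topological obstruction at a finite level.
-/

open Filter Topology CStarLim

namespace Pool.Agent.Lib.P81d4f5

section Level

variable {G : Type} {l : ℕ → ℕ} {m : ℕ} [Group G] [Fintype G] [DecidableEq G]

variable (G l) in
/-- the distinguished index -/
def star0 : ∀ n, JJ G l n
  | 0 => ()
  | n + 1 => Sum.inl (star0 n)

theorem wts_star0 (n : ℕ) : wts G l m n (star0 G l n) = ∅ := by
  induction n with
  | zero => rfl
  | succ n ih => exact ih

variable (G l m) in
/-- the eigenvalue maps -/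
noncomputable def yy : ∀ n, JJ G l n → (XX G l m → S3) → (XX G l m → S3)
  | 0 => fun _ x => x
  | n + 1 => fun i x => Sum.elim (fun i => yy n i x) (fun p => yy n p.1 (xpt G l m n)) i

theorem yy_star0 (n : ℕ) (x : XX G l m → S3) : yy G l m n (star0 G l n) x = x := by
  induction n with
  | zero => rfl
  | succ n ih => exact ih

theorem yy_const (n : ℕ) (i : JJ G l n) (hi : i ≠ star0 G l n) (x x' : XX G l m → S3) :
    yy G l m n i x = yy G l m n i x' := by
  induction n with
  | zero => exact absurd (Subsingleton.elim (α := Unit) i (star0 G l 0)) hi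
  | succ n ih =>
    rcases i with i | i
    · have hi' : i ≠ star0 G l n := fun h => hi (by rw [h]; rfl)
      exact ih i hi'
    · rfl

theorem continuous_yy (n : ℕ) (i : JJ G l n) : Continuous (yy G l m n i) := by
  by_cases hi : i = star0 G l n
  · subst hi
    have : yy G l m n (star0 G l n) = id := funext fun x => yy_star0 n x
    rw [this]
    exact continuous_id
  · have : yy G l m n i = fun _ => yy G l m n i (fun _ => S3.base) :=
      funext fun x => yy_const n i hi x _
    rw [this]
    exact continuous_const

variable (G l m) in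
/-- the coordinates attached to the sections -/
def crd : ∀ n, JJ G l n × Fin m → XX G l m
  | 0 => fun p => Sum.inl p.2
  | n + 1 => fun p => Sum.elim (fun i => crd n (i, p.2)) (fun i => Sum.inr ⟨n, (p.2, i)⟩) p.1

theorem crd_lt (n : ℕ) (p : JJ G l n × Fin m) (k : ℕ)
    (q : Fin m × (JJ G l k × G × Fin (l k))) (h : crd G l m n p = Sum.inr ⟨k, q⟩) : k < n := by
  induction n with
  | zero => exact absurd h (by simp [crd])
  | succ n ih =>
    rcases p with ⟨i | i, j⟩
    · exact (ih (i, j) h).trans (Nat.lt_succ_self n)
    · have h1 : (Sum.inr ⟨n, (j, i)⟩ : XX G l m) = Sum.inr ⟨k, q⟩ := h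
      have h2 := Sum.inr_injective h1
      have h3 : n = k := congrArg Sigma.fst h2
      rw [← h3]
      exact Nat.lt_succ_self n

theorem crd_injective (n : ℕ) : Function.Injective (crd G l m n) := by
  induction n with
  | zero =>
    rintro ⟨i, j⟩ ⟨i', j'⟩ h
    have h1 : j = j' := Sum.inl_injective h
    have h2 : i = i' := Subsingleton.elim (α := Unit) i i'
    rw [h1, h2]
  | succ n ih =>
    rintro ⟨i | i, j⟩ ⟨i' | i', j'⟩ h
    · have h1 := ih (a₁ := (i, j)) (a₂ := (i', j')) h
      rw [Prod.mk.injEq] at h1
      rw [h1.1, h1.2]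
    · have h1 : crd G l m n (i, j) = Sum.inr ⟨n, (j', i')⟩ := h
      exact absurd (crd_lt n _ n _ h1) (lt_irrefl n)
    · have h1 : crd G l m n (i', j') = Sum.inr ⟨n, (j, i)⟩ := h.symm
      exact absurd (crd_lt n _ n _ h1) (lt_irrefl n)
    · have h1 : (Sum.inr ⟨n, (j, i)⟩ : XX G l m) = Sum.inr ⟨n, (j', i')⟩ := h
      have h2 := Sum.inr_injective h1
      have h3 : (j, i) = (j', i') := by simpa using h2
      rw [Prod.mk.injEq] at h3
      rw [h3.1, h3.2]

theorem crd_star0 (n : ℕ) (j : Fin m) : crd G l m n (star0 G l n, j) = Sum.inl j := by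
  induction n with
  | zero => rfl
  | succ n ih => exact ih

theorem crd_mem (n : ℕ) (i : JJ G l n) (hi : i ≠ star0 G l n) (j : Fin m) :
    crd G l m n (i, j) ∈ wts G l m n i := by
  induction n with
  | zero => exact absurd (Subsingleton.elim (α := Unit) i (star0 G l 0)) hi
  | succ n ih =>
    rcases i with i | i
    · have hi' : i ≠ star0 G l n := fun h => hi (by rw [h]; rfl)
      exact ih i hi'
    · exact mem_newc G l m n (j, i)

variable (G l m) in
/-- the combined weight sets -/
noncomputable def Wt (n : ℕ) (r : JJ G l n × Fin m) : Finset (XX G l m) :=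
  if r.1 = star0 G l n then {Sum.inl r.2} else wts G l m n r.1

theorem crd_mem_Wt (n : ℕ) (r : JJ G l n × Fin m) : crd G l m n r ∈ Wt G l m n r := by
  rcases r with ⟨i, j⟩
  unfold Wt
  split_ifs with h
  · simp only at h
    subst h
    rw [crd_star0]
    exact Finset.mem_singleton_self _
  · exact crd_mem n i h j

/-- extension of a point by the base point -/
noncomputable def embp {κ X : Type} (q : κ → X) (y : κ → S3) : X → S3 :=
  Function.extend q y (fun _ => S3.base)

theorem continuous_embp {κ X : Type} {q : κ → X} (hq : Function.Injective q) :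
    Continuous (embp q) := by
  refine continuous_pi fun s => ?_
  by_cases h : ∃ k, q k = s
  · obtain ⟨k, rfl⟩ := h
    have : (fun y : κ → S3 => embp q y (q k)) = fun y => y k :=
      funext fun y => hq.extend_apply _ _ _
    rw [this]
    exact continuous_apply k
  · have : (fun y : κ → S3 => embp q y s) = fun _ => S3.base :=
      funext fun y => Function.extend_apply' _ _ _ h
    rw [this]
    exact continuous_const

theorem rot_one (v : S3) : S3.rot 1 v = v := S3.ext fun a => by simp

theorem embp_rotm {κ X : Type} {q : κ → X} (hq : Function.Injective q) (c : κ → Circle)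
    (y : κ → S3) : embp q (rotm c y) = rotm (Function.extend q c (fun _ => 1)) (embp q y) := by
  funext s
  by_cases h : ∃ k, q k = s
  · obtain ⟨k, rfl⟩ := h
    simp only [embp, rotm, hq.extend_apply]
  · simp only [embp, rotm, Function.extend_apply' _ _ _ h, rot_one]

theorem chi_extend {κ X : Type} [Fintype κ] [DecidableEq X] {q : κ → X}
    (hq : Function.Injective q) (c : κ → Circle) (W : Finset X) :
    chi W (Function.extend q c (fun _ => 1)) =
      ∏ k, (c k : ℂ) ^ ((if q k ∈ W then 1 else 0 : ℕ) : ℤ) := by
  classical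
  have h1 : ∀ k, (c k : ℂ) ^ ((if q k ∈ W then 1 else 0 : ℕ) : ℤ) =
      if q k ∈ W then (c k : ℂ) else 1 := by
    intro k
    split_ifs <;> simp
  simp_rw [h1]
  rw [← Finset.prod_filter]
  have h2 : ∏ k ∈ Finset.univ.filter (fun k => q k ∈ W), (c k : ℂ) =
      ∏ s ∈ (Finset.univ.filter (fun k => q k ∈ W)).image q,
        ((Function.extend q c (fun _ => 1) s : Circle) : ℂ) := by
    rw [Finset.prod_image (fun a _ b _ h => hq h)]
    exact Finset.prod_congr rfl fun k _ => by rw [hq.extend_apply]
  rw [h2]
  unfold chi
  symm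
  refine Finset.prod_subset ?_ ?_
  · intro s hs
    rw [Finset.mem_image] at hs
    obtain ⟨k, hk, rfl⟩ := hs
    exact (Finset.mem_filter.1 hk).2
  · intro s hs hs'
    have : ¬ ∃ k, q k = s := by
      rintro ⟨k, rfl⟩
      exact hs' (Finset.mem_image.2 ⟨k, Finset.mem_filter.2 ⟨Finset.mem_univ _, hs⟩, rfl⟩)
    rw [Function.extend_apply' _ _ _ this]
    simp

theorem obstruct_level (n : ℕ) (ρ : Fin m → Fin 2 → AA G l m n) (g : G) :
    ∃ x : XX G l m → S3, ∀ (i : JJ G l n) (j : Fin m),
      ∑ a, star (((ρ j a g).1 x).e (star0 G l n) i) *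
        S3.co a (yy G l m n i x (Sum.inl j)) = 0 := by
  -- the sections on the big space
  let F0 : JJ G l n × Fin m → (XX G l m → S3) → ℂ := fun r x =>
    ∑ a, star (((ρ r.2 a g).1 x).e (star0 G l n) r.1) *
        S3.co a (yy G l m n r.1 x (Sum.inl r.2))
  have hF0c : ∀ r, Continuous (F0 r) := by
    intro r
    refine continuous_finsetSum _ fun a _ => ?_
    refine Continuous.mul ?_ ?_
    · exact continuous_star.comp ((MJ.continuous_e _ _).comp (ρ r.2 a g).1.continuous)
    · exact (S3.continuous_co a).comp ((continuous_apply _).comp (continuous_yy n r.1))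
  have hF0w : ∀ r c x, F0 r (rotm c x) = chi (Wt G l m n r) c * F0 r x := by
    rintro ⟨i, j⟩ c x
    simp only [F0, Finset.mul_sum]
    refine Finset.sum_congr rfl fun a _ => ?_
    have h1 := (ρ j a g).2 c x (star0 G l n) i
    rw [h1, wts_star0, chi_empty, one_mul, star_mul', star_star]
    by_cases hi : i = star0 G l n
    · subst hi
      rw [yy_star0, yy_star0, wts_star0, chi_empty, one_mul]
      have h2 : Wt G l m n (star0 G l n, j) = {Sum.inl j} := by
        unfold Wt
        rw [if_pos rfl]
      rw [h2]
      have h3 : chi ({Sum.inl j} : Finset (XX G l m)) c = (c (Sum.inl j) : ℂ) := by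
        unfold chi
        rw [Finset.prod_singleton]
      rw [h3]
      simp only [rotm, S3.co_rot]
      ring
    · rw [yy_const n i hi (rotm c x) x]
      have h2 : Wt G l m n (i, j) = wts G l m n i := by
        unfold Wt
        rw [if_neg hi]
      rw [h2]
      ring
  have hq := crd_injective (G := G) (l := l) (m := m) n
  let F : JJ G l n × Fin m → C((JJ G l n × Fin m) → S3, ℂ) := fun r =>
    ⟨fun y => F0 r (embp (crd G l m n) y), (hF0c r).comp (continuous_embp hq)⟩
  obtain ⟨y, hy⟩ := exists_common_zero
    (fun r s : JJ G l n × Fin m => if crd G l m n s ∈ Wt G l m n r then 1 else 0)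
    (fun r => by simp only [crd_mem_Wt, if_true, le_refl]) F (fun r c y => by
      change F0 r (embp (crd G l m n) (rotm c y)) = _ * F0 r (embp (crd G l m n) y)
      rw [embp_rotm hq, hF0w, chi_extend hq])
  exact ⟨embp (crd G l m n) y, fun i j => hy (i, j)⟩

/-- the image of a scalar function at level `n` -/
theorem gen_scal (u : C(XX G l m → S3, ℂ)) (hu : ∀ c x, u (rotm c x) = u x) (n : ℕ) (g : G)
    (x : XX G l m → S3) (i j : JJ G l n) :
    (((sys G l m).gen 0 (fun _ => scal (wts G l m 0) u hu) n g).1 x).e i j =
      if i = j then u (yy G l m n i x) else 0 := by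
  induction n generalizing g x with
  | zero =>
    rw [IndSys.gen_self]
    change (u x • (1 : MJ (JJ G l 0))).e i j = _
    rw [MJ.e_smul, MJ.e_one]
    split_ifs <;> simp [yy]
  | succ n ih =>
    rw [IndSys.gen_succ (Nat.zero_le n)]
    rcases i with i | i <;> rcases j with j | j
    · have h1 : (((sys G l m).map n ((sys G l m).gen 0
          (fun _ => scal (wts G l m 0) u hu) n) g).1 x).e (Sum.inl i) (Sum.inl j) =
          (((sys G l m).gen 0 (fun _ => scal (wts G l m 0) u hu) n g).1 x).e i j := rfl
      rw [h1, ih]
      by_cases h : i = j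
      · subst h
        rw [if_pos rfl, if_pos rfl]
        rfl
      · rw [if_neg h]
        exact (if_neg (fun h' => h (Sum.inl_injective h'))).symm
    · have h1 : (((sys G l m).map n ((sys G l m).gen 0
          (fun _ => scal (wts G l m 0) u hu) n) g).1 x).e (Sum.inl i) (Sum.inr j) = 0 := rfl
      rw [h1]
      exact (if_neg (fun h' => by cases h')).symm
    · have h1 : (((sys G l m).map n ((sys G l m).gen 0
          (fun _ => scal (wts G l m 0) u hu) n) g).1 x).e (Sum.inr i) (Sum.inl j) = 0 := rfl
      rw [h1]
      exact (if_neg (fun h' => by cases h')).symm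
    · have h1 : (((sys G l m).map n ((sys G l m).gen 0
          (fun _ => scal (wts G l m 0) u hu) n) g).1 x).e (Sum.inr i) (Sum.inr j) =
          if i.2 = j.2 then (((sys G l m).gen 0 (fun _ => scal (wts G l m 0) u hu) n
            (g * i.2.1)).1 (xpt G l m n)).e i.1 j.1 else 0 := by
        exact blk_inr_inr (l n)
          (((sys G l m).gen 0 (fun _ => scal (wts G l m 0) u hu) n g).1 x)
          (fun c => ((sys G l m).gen 0 (fun _ => scal (wts G l m 0) u hu) n (g * c)).1
            (xpt G l m n)) i j
      rw [h1, ih]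
      rcases i with ⟨i, c⟩
      rcases j with ⟨j, d⟩
      by_cases h : c = d <;> by_cases h' : i = j
      · subst h; subst h'
        rw [if_pos rfl]
        simp only [if_true]
        rfl
      · rw [if_pos h]
        simp only [if_neg h']
        refine (if_neg ?_).symm
        intro h2
        exact h' (Prod.mk.inj (Sum.inr_injective h2)).1
      · rw [if_neg h]
        refine (if_neg ?_).symm
        intro h2
        exact h (Prod.mk.inj (Sum.inr_injective h2)).2
      · rw [if_neg h]
        refine (if_neg ?_).symm
        intro h2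
        exact h (Prod.mk.inj (Sum.inr_injective h2)).2

end Level

end Pool.Agent.Lib.P81d4f5
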