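import Pool.Agent.Lib.P81d4f5.Sphere

set_option autoImplicit false

/-!
Monomials on products of spheres and their Gram matrix for the gauge fixed measure.
-/

open MeasureTheory unitInterval

namespace Pool.Agent.Lib.P81d4f5

variable {κ : Type} [Fintype κ] [DecidableEq κ]

/-- gauge fixed parametrisation of the product of spheres -/
noncomputable def ptm (ω : κ → I × I) : κ → S3 := fun s => S3.pt (ω s)

theorem continuous_ptm : Continuous (ptm : (κ → I × I) → (κ → S3)) :=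
  continuous_pi fun s => S3.continuous_pt.comp (continuous_apply s)

/-- restriction to the gauge slice, as an element of `L²` -/
noncomputable def T : C(κ → S3, ℂ) →ₗ[ℂ] Lp ℂ 2 (volume : Measure (κ → I × I)) where
  toFun f := ContinuousMap.toLp 2 volume ℂ (f.comp ⟨ptm, continuous_ptm⟩)
  map_add' f g := by
    rw [← map_add]; rfl
  map_smul' c f := by
    rw [RingHom.id_apply, ← map_smul]; rfl

theorem inner_T (f g : C(κ → S3, ℂ)) : inner ℂ (T f) (T g) =
    ∫ ω : κ → I × I, g (ptm ω) * (starRingEnd ℂ) (f (ptm ω)) := by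
  exact ContinuousMap.inner_toLp volume _ _

theorem norm_T_mul_le (g f : C(κ → S3, ℂ)) : ‖T (g * f)‖ ≤ ‖g‖ * ‖T f‖ := by
  apply Lp.norm_le_mul_norm_of_ae_le_mul
  have h1 : (T (g * f) : (κ → I × I) → ℂ) =ᵐ[volume] fun ω => (g * f) (ptm ω) :=
    ContinuousMap.coeFn_toLp (p := 2) (𝕜 := ℂ) volume ((g * f).comp ⟨ptm, continuous_ptm⟩)
  have h2 : (T f : (κ → I × I) → ℂ) =ᵐ[volume] fun ω => f (ptm ω) :=
    ContinuousMap.coeFn_toLp (p := 2) (𝕜 := ℂ) volume (f.comp ⟨ptm, continuous_ptm⟩)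
  filter_upwards [h1, h2] with ω e1 e2
  rw [e1, e2, ContinuousMap.mul_apply, norm_mul]
  exact mul_le_mul_of_nonneg_right (g.norm_coe_le_norm _) (norm_nonneg _)

theorem norm_sq_T (f : C(κ → S3, ℂ)) : ‖T f‖ ^ 2 = ∫ ω : κ → I × I, ‖f (ptm ω)‖ ^ 2 := by
  rw [@norm_sq_eq_re_inner ℂ, inner_T]
  have h2 : ∀ ω, f (ptm ω) * (starRingEnd ℂ) (f (ptm ω)) = ((‖f (ptm ω)‖ ^ 2 : ℝ) : ℂ) := by
    intro ω
    rw [Complex.mul_conj, Complex.normSq_eq_norm_sq]
  simp_rw [h2]
  rw [integral_complex_ofReal]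
  exact Complex.ofReal_re _

/-- coordinate functions on the product -/
def zc (s : κ) (i : Fin 2) : C(κ → S3, ℂ) := ⟨fun x => S3.co i (x s), by fun_prop⟩

@[simp] theorem zc_apply (s : κ) (i : Fin 2) (x : κ → S3) : zc s i x = S3.co i (x s) := rfl

theorem norm_zc_le (s : κ) (i : Fin 2) : ‖zc s i‖ ≤ 1 := by
  rw [ContinuousMap.norm_le _ zero_le_one]
  intro x
  exact S3.norm_co_le _ _

/-- monomials -/
noncomputable def mono (a b : κ → ℕ) : C(κ → S3, ℂ) := ∏ s, (zc s 0 ^ a s * zc s 1 ^ b s)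

theorem mono_apply (a b : κ → ℕ) (x : κ → S3) :
    mono a b x = ∏ s, (S3.co 0 (x s) ^ a s * S3.co 1 (x s) ^ b s) := by
  simp [mono, ContinuousMap.prod_apply]

/-- the box of exponents of degree at most `d` -/
def box (d : κ → ℕ) : Finset (κ → ℕ) := Fintype.piFinset fun s => Finset.range (d s + 1)

theorem mem_box {d n : κ → ℕ} : n ∈ box d ↔ ∀ s, n s ≤ d s := by
  simp [box, Fintype.mem_piFinset, Nat.lt_succ_iff]

theorem card_box (d : κ → ℕ) : (box d).card = ∏ s, (d s + 1) := by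
  simp [box]

/-- homogeneous monomial of degree `d` -/
noncomputable def hm (d n : κ → ℕ) : C(κ → S3, ℂ) := mono (fun s => d s - n s) n

/-- norms of monomials -/
noncomputable def Bn (d n : κ → ℕ) : ℝ := ∏ s, bet (d s - n s) (n s)

theorem Bn_pos (d n : κ → ℕ) : 0 < Bn d n := Finset.prod_pos fun _ _ => bet_pos _ _

theorem inner_hm {d n n' : κ → ℕ} (hn : n ∈ box d) (hn' : n' ∈ box d) :
    inner ℂ (T (hm d n)) (T (hm d n')) = if n = n' then (Bn d n : ℂ) else 0 := by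
  rw [mem_box] at hn hn'
  rw [inner_T]
  simp only [hm, mono_apply, map_prod, ptm]
  simp_rw [← Finset.prod_mul_distrib]
  rw [integral_fintype_prod_volume_eq_prod (fun (s : κ) (p : I × I) =>
    S3.co 0 (S3.pt p) ^ (d s - n' s) * S3.co 1 (S3.pt p) ^ n' s *
    (starRingEnd ℂ) (S3.co 0 (S3.pt p) ^ (d s - n s) * S3.co 1 (S3.pt p) ^ n s))]
  have h : ∀ s, ∫ (p : I × I), S3.co 0 (S3.pt p) ^ (d s - n' s) * S3.co 1 (S3.pt p) ^ n' s *
    (starRingEnd ℂ) (S3.co 0 (S3.pt p) ^ (d s - n s) * S3.co 1 (S3.pt p) ^ n s) =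
    if n s = n' s then (bet (d s - n s) (n s) : ℂ) else 0 := by
    intro s
    apply integral_mono_one
    have := hn s; have := hn' s; omega
  simp_rw [h]
  split_ifs with hnn
  · subst hnn; simp [Bn]
  · obtain ⟨s, hs⟩ := Function.ne_iff.mp hnn
    exact Finset.prod_eq_zero (Finset.mem_univ s) (by simp [hs])

/-- homogeneous polynomial with coefficient function `c` -/
noncomputable def U (d : κ → ℕ) (c : (κ → ℕ) → ℂ) : C(κ → S3, ℂ) := ∑ n ∈ box d, c n • hm d n

theorem inner_U (d : κ → ℕ) (c c' : (κ → ℕ) → ℂ) : inner ℂ (T (U d c)) (T (U d c')) =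
    ∑ n ∈ box d, (Bn d n : ℂ) * ((starRingEnd ℂ) (c n) * c' n) := by
  simp only [U, map_sum, map_smul, sum_inner, inner_sum, inner_smul_left, inner_smul_right]
  apply Finset.sum_congr rfl
  intro n hn
  have : ∀ m ∈ box d, (starRingEnd ℂ) (c m) * inner ℂ (T (hm d m)) (T (hm d n)) =
      if n = m then (Bn d n : ℂ) * ((starRingEnd ℂ) (c n)) else 0 := by
    intro m hm'
    rw [inner_hm hm' hn]
    split_ifs with h h1 h1
    · subst h; ring
    · exact absurd h.symm h1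
    · exact absurd h1.symm h
    · ring
  rw [Finset.sum_congr rfl this, Finset.sum_ite_eq]
  simp only [hn, if_true]
  ring

theorem norm_sq_U (d : κ → ℕ) (c : (κ → ℕ) → ℂ) : ‖T (U d c)‖ ^ 2 =
    ∑ n ∈ box d, Bn d n * ‖c n‖ ^ 2 := by
  rw [@norm_sq_eq_re_inner ℂ, inner_U]
  have h2 : ∀ n, (starRingEnd ℂ) (c n) * c n = ((‖c n‖ ^ 2 : ℝ) : ℂ) := by
    intro n
    rw [mul_comm, Complex.mul_conj, Complex.normSq_eq_norm_sq]
  simp_rw [h2, ← Complex.ofReal_mul, ← Complex.ofReal_sum]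
  exact Complex.ofReal_re _

end Pool.Agent.Lib.P81d4f5
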