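import Pool.Agent.Lib.P81d4f5.TrState

/-!
Quasitraces on projections built from sections.
-/

open scoped ComplexOrder
open Filter Topology

namespace Pool.Agent.Lib.P81d4f5

section PartA

variable {B : Type} [CStarAlgebra B]

theorem IsQuasitrace.linear_of_commute {τ : B → ℂ} (h : IsQuasitrace τ) {s : Set B}
    (hs : ∀ a ∈ s, IsSelfAdjoint a) (hc : ∀ a ∈ s, ∀ b ∈ s, a * b = b * a) :
    ∃ S : StarSubalgebra ℂ B, s ⊆ (S : Set B) ∧
      (∀ x ∈ S, ∀ y ∈ S, τ (x + y) = τ x + τ y) ∧ (∀ c : ℂ, ∀ x ∈ S, τ (c • x) = c * τ x) := by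
  have hcomm : IsMulCommutative (StarAlgebra.adjoin ℂ s) :=
    StarAlgebra.isMulCommutative_adjoin ℂ hc
      (fun a ha b hb => by rw [(hs b hb).star_eq]; exact hc a ha b hb)
  refine ⟨(StarAlgebra.adjoin ℂ s).topologicalClosure, ?_, ?_⟩
  · exact (StarAlgebra.subset_adjoin ℂ s).trans (StarSubalgebra.le_topologicalClosure _)
  · refine h.linear_comm _ (StarSubalgebra.isClosed_topologicalClosure _) ?_
    intro x hx y hy
    have h1 : ∀ x y : StarAlgebra.adjoin ℂ s, x * y = y * x := fun x y => mul_comm' x y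
    let _ := StarSubalgebra.commRingTopologicalClosure (StarAlgebra.adjoin ℂ s) h1
    exact congrArg Subtype.val (mul_comm
      (⟨x, hx⟩ : (StarAlgebra.adjoin ℂ s).topologicalClosure) ⟨y, hy⟩)

theorem IsQuasitrace.map_zero {τ : B → ℂ} (h : IsQuasitrace τ) : τ 0 = 0 := by
  obtain ⟨S, -, -, h2⟩ := h.linear_of_commute (s := ∅) (by simp) (by simp)
  have := h2 0 0 (zero_mem S)
  rwa [smul_zero, zero_mul] at this

theorem IsQuasitrace.map_sum {τ : B → ℂ} (h : IsQuasitrace τ) {κ : Type*}
    (s : Finset κ) (f : κ → B) (hs : ∀ i, IsSelfAdjoint (f i))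
    (hc : ∀ i j, f i * f j = f j * f i) : τ (∑ i ∈ s, f i) = ∑ i ∈ s, τ (f i) := by
  classical
  obtain ⟨S, h0, h1, -⟩ := h.linear_of_commute (s := Set.range f)
    (by rintro _ ⟨i, rfl⟩; exact hs i) (by rintro _ ⟨i, rfl⟩ _ ⟨j, rfl⟩; exact hc i j)
  have hm : ∀ i, f i ∈ S := fun i => h0 ⟨i, rfl⟩
  induction s using Finset.induction_on with
  | empty => simp [h.map_zero]
  | insert a s ha ih =>
    rw [Finset.sum_insert ha, Finset.sum_insert ha, h1 _ (hm a) _ (sum_mem fun i _ => hm i), ih]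

theorem proj_facts {p : B} (hp : star p * p = p) : IsSelfAdjoint p ∧ p * p = p := by
  have h1 : star p = p := by
    conv_rhs => rw [← hp]
    conv_lhs => rw [← hp]
    rw [star_mul, star_star]
  exact ⟨h1, by have h2 := hp; rwa [h1] at h2⟩

theorem dimLim_proj (τ : B → ℂ) {p : B} (hp : star p * p = p) : dimLim τ p = (τ p).re := by
  obtain ⟨h1, h2⟩ := proj_facts hp
  have hsp : spectrum ℝ p ⊆ {0, 1} := IsIdempotentElem.spectrum_subset ℝ h2
  have key : ∀ k : ℕ, 1 ≤ k → cfc (fun t : ℝ => t ^ ((1 : ℝ) / (k : ℝ))) p = p := by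
    intro k hk
    have hk0 : (1 : ℝ) / (k : ℝ) ≠ 0 := by
      have : (k : ℝ) ≠ 0 := by
        have : k ≠ 0 := by omega
        exact_mod_cast this
      positivity
    conv_rhs => rw [← cfc_id ℝ p h1]
    refine cfc_congr fun t ht => ?_
    rcases hsp ht with h | h
    · rw [h]
      simp only [id]
      exact Real.zero_rpow hk0
    · rw [Set.mem_singleton_iff.1 h]
      simp only [id]
      exact Real.one_rpow _
  unfold dimLim
  refine Tendsto.limUnder_eq ?_
  refine tendsto_const_nhds.congr' ?_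
  filter_upwards [eventually_ge_atTop 1] with k hk
  rw [key k hk]

end PartA

section PartB

variable {A : Type} [CStarAlgebra A] [PartialOrder A] [StarOrderedRing A] {m : ℕ}

/-- relations satisfied by the products of coordinates -/
structure SphereRel (B : Fin m → Fin 2 → Fin 2 → A) : Prop where
  star_eq : ∀ j a b, star (B j a b) = B j b a
  exch : ∀ j a b c d, B j a b * B j c d = B j a d * B j c b
  sum_eq : ∀ j, ∑ a, B j a a = 1
  comm : ∀ j a b k c d, B j a b * B k c d = B k c d * B j a b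

/-- matrices -/
def cm {N : ℕ} (f : Fin N → Fin N → A) : CStarMatrix (Fin N) (Fin N) A :=
  CStarMatrix.ofMatrix (Matrix.of f)

omit [PartialOrder A] [StarOrderedRing A] in
theorem cm_apply {N : ℕ} (f : Fin N → Fin N → A) (p q : Fin N) : cm f p q = f p q := rfl

/-- index identification -/
def ix (m : ℕ) : Fin (m * 2) ≃ Fin m × Fin 2 := finProdFinEquiv.symm

/-- the sum over the indices of one block -/
theorem sum_ix (j : Fin m) (f : Fin 2 → A) :
    ∑ r : Fin (m * 2), (if (ix m r).1 = j then f (ix m r).2 else 0) = ∑ a, f a := by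
  rw [Equiv.sum_comp (ix m) (fun p => if p.1 = j then f p.2 else 0), Fintype.sum_prod_type]
  rw [Finset.sum_eq_single j]
  · simp
  · intro b _ hb
    simp [hb]
  · intro h
    exact absurd (Finset.mem_univ _) h

/-- the corner projection -/
def corn (N : ℕ) : CStarMatrix (Fin N) (Fin N) A :=
  cm fun p q => if (p : ℕ) = 0 ∧ (q : ℕ) = 0 then 1 else 0

variable (B : Fin m → Fin 2 → Fin 2 → A)

/-- rank one projections -/
def Pm (j : Fin m) : CStarMatrix (Fin (m * 2)) (Fin (m * 2)) A :=
  cm fun p q => if (ix m p).1 = j ∧ (ix m q).1 = j then B j (ix m p).2 (ix m q).2 else 0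

/-- scaled rank one projections -/
def Qm (j : Fin m) (a : Fin 2) : CStarMatrix (Fin (m * 2)) (Fin (m * 2)) A :=
  cm fun p q => if (ix m p).1 = j ∧ (ix m q).1 = j then B j a a * B j (ix m p).2 (ix m q).2 else 0

/-- column elements -/
def Ym (j : Fin m) (a : Fin 2) : CStarMatrix (Fin (m * 2)) (Fin (m * 2)) A :=
  cm fun p q => if (ix m p).1 = j ∧ (q : ℕ) = 0 then B j (ix m p).2 a else 0

/-- scaled corner -/
def Dcm (j : Fin m) (a : Fin 2) : CStarMatrix (Fin (m * 2)) (Fin (m * 2)) A :=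
  cm fun p q => if (p : ℕ) = 0 ∧ (q : ℕ) = 0 then B j a a else 0

variable {B} (hB : SphereRel B)

include hB

theorem Pm_star (j : Fin m) : star (Pm B j) = Pm B j := by
  refine CStarMatrix.ext fun p q => ?_
  rw [CStarMatrix.star_apply]
  unfold Pm
  rw [cm_apply, cm_apply]
  by_cases h1 : (ix m p).1 = j <;> by_cases h2 : (ix m q).1 = j <;> simp [h1, h2, hB.star_eq]

theorem Pm_mul_ne {j k : Fin m} (hjk : j ≠ k) : Pm B j * Pm B k = 0 := by
  refine CStarMatrix.ext fun p q => ?_
  rw [CStarMatrix.mul_apply, CStarMatrix.zero_apply]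
  refine Finset.sum_eq_zero fun r _ => ?_
  unfold Pm
  rw [cm_apply, cm_apply]
  by_cases h1 : (ix m r).1 = j
  · have h2 : (ix m r).1 ≠ k := fun h => hjk (h1.symm.trans h)
    simp [h2]
  · simp [h1]

theorem Pm_mul_self (j : Fin m) : Pm B j * Pm B j = Pm B j := by
  refine CStarMatrix.ext fun p q => ?_
  rw [CStarMatrix.mul_apply]
  unfold Pm
  simp only [cm_apply]
  by_cases h1 : (ix m p).1 = j <;> by_cases h2 : (ix m q).1 = j
  · have h3 : ∀ r : Fin (m * 2), (if (ix m p).1 = j ∧ (ix m r).1 = j then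
        B j (ix m p).2 (ix m r).2 else 0) * (if (ix m r).1 = j ∧ (ix m q).1 = j then
        B j (ix m r).2 (ix m q).2 else 0) = if (ix m r).1 = j then
          B j (ix m p).2 (ix m q).2 * B j (ix m r).2 (ix m r).2 else 0 := by
      intro r
      by_cases h4 : (ix m r).1 = j
      · simp only [h1, h2, h4, and_self, if_true]
        rw [hB.exch]
      · simp [h4]
    simp_rw [h3]
    rw [sum_ix j (fun a => B j (ix m p).2 (ix m q).2 * B j a a), ← Finset.mul_sum, hB.sum_eq,
      mul_one]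
    simp [h1, h2]
  · simp [h2]
  · simp [h1]
  · simp [h1]

theorem sum_Pm_star : star (∑ j, Pm B j) = ∑ j, Pm B j := by
  rw [star_sum]
  exact Finset.sum_congr rfl fun j _ => Pm_star hB j

theorem sum_Pm_mul : star (∑ j, Pm B j) * (∑ j, Pm B j) = ∑ j, Pm B j := by
  rw [sum_Pm_star hB, Finset.sum_mul]
  refine Finset.sum_congr rfl fun j _ => ?_
  rw [Finset.mul_sum, Finset.sum_eq_single j]
  · exact Pm_mul_self hB j
  · intro k _ hk
    exact Pm_mul_ne hB (Ne.symm hk)
  · intro h
    exact absurd (Finset.mem_univ _) h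

theorem Ym_mul_star (hm : 0 < m) (j : Fin m) (a : Fin 2) :
    Ym B j a * star (Ym B j a) = Qm B j a := by
  refine CStarMatrix.ext fun p q => ?_
  rw [CStarMatrix.mul_apply]
  simp only [CStarMatrix.star_apply]
  unfold Ym Qm
  simp only [cm_apply]
  rw [Finset.sum_eq_single (⟨0, by omega⟩ : Fin (m * 2))]
  · by_cases h1 : (ix m p).1 = j <;> by_cases h2 : (ix m q).1 = j
    · simp only [h1, h2, and_self, if_true, hB.star_eq]
      rw [hB.exch, hB.comm]
    · simp [h2]
    · simp [h1]
    · simp [h1]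
  · intro r _ hr
    have : (r : ℕ) ≠ 0 := fun h => hr (Fin.ext h)
    simp [this]
  · intro h
    exact absurd (Finset.mem_univ _) h

theorem star_Ym_mul (j : Fin m) (a : Fin 2) :
    star (Ym B j a) * Ym B j a = Dcm B j a := by
  refine CStarMatrix.ext fun p q => ?_
  rw [CStarMatrix.mul_apply]
  simp only [CStarMatrix.star_apply]
  unfold Ym Dcm
  simp only [cm_apply]
  by_cases h1 : (p : ℕ) = 0 <;> by_cases h2 : (q : ℕ) = 0
  · have h3 : ∀ r : Fin (m * 2), star (if (ix m r).1 = j ∧ (p : ℕ) = 0 then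
        B j (ix m r).2 a else 0) * (if (ix m r).1 = j ∧ (q : ℕ) = 0 then
        B j (ix m r).2 a else 0) = if (ix m r).1 = j then
          B j a a * B j (ix m r).2 (ix m r).2 else 0 := by
      intro r
      by_cases h4 : (ix m r).1 = j
      · simp only [h1, h2, h4, and_self, if_true, hB.star_eq]
        rw [hB.exch]
      · simp [h4]
    simp_rw [h3]
    rw [sum_ix j (fun b => B j a a * B j b b), ← Finset.mul_sum, hB.sum_eq, mul_one]
    simp [h1, h2]
  · simp [h2]
  · simp [h1]
  · simp [h1]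

theorem sum_Qm (j : Fin m) : ∑ a, Qm B j a = Pm B j := by
  refine CStarMatrix.ext fun p q => ?_
  rw [sum_apply_cstar]
  unfold Qm Pm
  simp only [cm_apply]
  by_cases h1 : (ix m p).1 = j <;> by_cases h2 : (ix m q).1 = j
  · simp only [h1, h2, and_self, if_true]
    rw [← Finset.sum_mul, hB.sum_eq, one_mul]
  · simp [h2]
  · simp [h1]
  · simp [h1]

theorem sum_Dcm (j : Fin m) : ∑ a, Dcm B j a = corn (m * 2) := by
  refine CStarMatrix.ext fun p q => ?_
  rw [sum_apply_cstar]
  unfold Dcm corn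
  simp only [cm_apply]
  by_cases h1 : (p : ℕ) = 0 <;> by_cases h2 : (q : ℕ) = 0
  · simp only [h1, h2, and_self, if_true]
    rw [hB.sum_eq]
  · simp [h2]
  · simp [h1]
  · simp [h1]

theorem Dcm_comm (j : Fin m) (a b : Fin 2) : Dcm B j a * Dcm B j b = Dcm B j b * Dcm B j a := by
  refine CStarMatrix.ext fun p q => ?_
  rw [CStarMatrix.mul_apply, CStarMatrix.mul_apply]
  refine Finset.sum_congr rfl fun r _ => ?_
  unfold Dcm
  simp only [cm_apply]
  by_cases h1 : (p : ℕ) = 0 <;> by_cases h2 : (q : ℕ) = 0 <;> by_cases h3 : (r : ℕ) = 0 <;>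
    simp [h1, h2, h3, hB.comm j a a j b b]

theorem Qm_eq (j : Fin m) (a : Fin 2) : Qm B j a =
    cm (fun p q => if p = q then B j a a else 0) * Pm B j := by
  refine CStarMatrix.ext fun p q => ?_
  rw [CStarMatrix.mul_apply]
  unfold Qm Pm
  simp only [cm_apply]
  rw [Finset.sum_eq_single p]
  · by_cases h1 : (ix m p).1 = j <;> by_cases h2 : (ix m q).1 = j <;> simp [h1, h2]
  · intro r _ hr
    simp [Ne.symm hr]
  · intro h
    exact absurd (Finset.mem_univ _) h

theorem scl_comm (j : Fin m) (a : Fin 2) :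
    cm (fun p q => if p = q then B j a a else 0) * Pm B j =
      Pm B j * cm (fun p q => if p = q then B j a a else 0) := by
  refine CStarMatrix.ext fun p q => ?_
  rw [CStarMatrix.mul_apply, CStarMatrix.mul_apply, Finset.sum_eq_single p,
    Finset.sum_eq_single q]
  · unfold Pm
    simp only [cm_apply]
    by_cases h1 : (ix m p).1 = j <;> by_cases h2 : (ix m q).1 = j <;>
      simp [h1, h2, hB.comm j a a]
  · intro r _ hr
    simp [cm_apply, hr]
  · intro h
    exact absurd (Finset.mem_univ _) h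
  · intro r _ hr
    simp [cm_apply, Ne.symm hr]
  · intro h
    exact absurd (Finset.mem_univ _) h

theorem scl_comm' (j : Fin m) (a b : Fin 2) :
    (cm (fun p q => if p = q then B j a a else 0) : CStarMatrix (Fin (m * 2)) (Fin (m * 2)) A) *
      cm (fun p q => if p = q then B j b b else 0) =
      cm (fun p q => if p = q then B j b b else 0) *
      cm (fun p q => if p = q then B j a a else 0) := by
  refine CStarMatrix.ext fun p q => ?_
  rw [CStarMatrix.mul_apply, CStarMatrix.mul_apply]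
  refine Finset.sum_congr rfl fun r _ => ?_
  simp only [cm_apply]
  by_cases h1 : p = r <;> by_cases h2 : r = q <;> simp [h1, h2, hB.comm j a a j b b]

theorem Qm_comm (j : Fin m) (a b : Fin 2) : Qm B j a * Qm B j b = Qm B j b * Qm B j a := by
  rw [Qm_eq hB, Qm_eq hB]
  set S := (cm (fun p q => if p = q then B j a a else 0) :
    CStarMatrix (Fin (m * 2)) (Fin (m * 2)) A)
  set T := (cm (fun p q => if p = q then B j b b else 0) :
    CStarMatrix (Fin (m * 2)) (Fin (m * 2)) A)
  have h1 : S * Pm B j = Pm B j * S := scl_comm hB j a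
  have h2 : T * Pm B j = Pm B j * T := scl_comm hB j b
  have h3 : S * T = T * S := scl_comm' hB j a b
  calc S * Pm B j * (T * Pm B j) = S * (Pm B j * T) * Pm B j := by noncomm_ring
    _ = S * (T * Pm B j) * Pm B j := by rw [h2]
    _ = (S * T) * Pm B j * Pm B j := by noncomm_ring
    _ = (T * S) * Pm B j * Pm B j := by rw [h3]
    _ = T * (S * Pm B j) * Pm B j := by noncomm_ring
    _ = T * (Pm B j * S) * Pm B j := by rw [h1]
    _ = T * Pm B j * (S * Pm B j) := by noncomm_ring

omit hB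

theorem cornerIncl_corn (N : ℕ) (hN : 1 ≤ N) :
    cornerIncl (corn N : CStarMatrix (Fin N) (Fin N) A) = corn (N + 1) := by
  refine CStarMatrix.ext fun p q => ?_
  change (if h : (p : ℕ) < N ∧ (q : ℕ) < N then
    (corn N : CStarMatrix (Fin N) (Fin N) A) ⟨p, h.1⟩ ⟨q, h.2⟩ else 0) = _
  unfold corn
  simp only [cm_apply]
  by_cases h1 : (p : ℕ) < N <;> by_cases h2 : (q : ℕ) < N
  · simp [h1, h2]
  · have h3 : (q : ℕ) ≠ 0 := by omega
    simp [h2, h3]
  · have h3 : (p : ℕ) ≠ 0 := by omega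
    simp [h1, h3]
  · have h3 : (p : ℕ) ≠ 0 := by omega
    simp [h1, h3]

theorem tau_corn (τ : TwoQuasitrace A) (N : ℕ) (hN : 1 ≤ N) : τ.toFun N (corn N) = 1 := by
  induction N, hN using Nat.le_induction with
  | base =>
    rw [← τ.normalized]
    congr 1
    refine CStarMatrix.ext fun p q => ?_
    unfold corn
    rw [cm_apply, CStarMatrix.one_apply]
    have h1 : p = q := Subsingleton.elim p q
    have h2 : (p : ℕ) = 0 := by omega
    have h3 : (q : ℕ) = 0 := by omega
    rw [if_pos ⟨h2, h3⟩, if_pos h1]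
  | succ N hN ih => rw [← cornerIncl_corn N hN, τ.corner, ih]

theorem corn_star_mul (N : ℕ) :
    star (corn N : CStarMatrix (Fin N) (Fin N) A) * corn N = corn N := by
  refine CStarMatrix.ext fun p q => ?_
  rw [CStarMatrix.mul_apply]
  simp only [CStarMatrix.star_apply]
  unfold corn
  simp only [cm_apply]
  by_cases h1 : (p : ℕ) = 0 <;> by_cases h2 : (q : ℕ) = 0
  · rw [Finset.sum_eq_single p]
    · simp [h1, h2]
    · intro r _ hr
      have : (r : ℕ) ≠ 0 := fun h => hr (Fin.ext (h.trans h1.symm))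
      simp [this]
    · intro h
      exact absurd (Finset.mem_univ _) h
  · simp [h2]
  · simp [h1]
  · simp [h1]

include hB

theorem tau_Pm (hm : 0 < m) (τ : TwoQuasitrace A) (j : Fin m) :
    τ.toFun (m * 2) (Pm B j) = 1 := by
  have hq := τ.isQuasitrace (m * 2)
  have hQs : ∀ a, IsSelfAdjoint (Qm B j a) := by
    intro a
    rw [← Ym_mul_star hB hm]
    exact IsSelfAdjoint.mul_star_self _
  have hDs : ∀ a, IsSelfAdjoint (Dcm B j a) := by
    intro a
    rw [← star_Ym_mul hB]
    exact IsSelfAdjoint.star_mul_self _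
  rw [← sum_Qm hB, hq.map_sum Finset.univ _ hQs (Qm_comm hB j)]
  have h1 : ∀ a, τ.toFun (m * 2) (Qm B j a) = τ.toFun (m * 2) (Dcm B j a) := by
    intro a
    rw [← Ym_mul_star hB hm, ← star_Ym_mul hB, hq.star_comm]
  simp_rw [h1]
  rw [← hq.map_sum Finset.univ _ hDs (Dcm_comm hB j), sum_Dcm hB, tau_corn τ _ (by omega)]

theorem tau_sum_Pm (hm : 0 < m) (τ : TwoQuasitrace A) :
    τ.toFun (m * 2) (∑ j, Pm B j) = m := by
  have hq := τ.isQuasitrace (m * 2)
  rw [hq.map_sum Finset.univ _ (fun j => Pm_star hB j) ?_]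
  · simp_rw [tau_Pm hB hm]
    simp
  · intro j k
    by_cases hjk : j = k
    · rw [hjk]
    · rw [Pm_mul_ne hB hjk, Pm_mul_ne hB (Ne.symm hjk)]

theorem rc_ge_of_not_cuntz (hm : 0 < m)
    (h : ¬ CuntzLE (corn (m * 2) : CStarMatrix (Fin (m * 2)) (Fin (m * 2)) A) (∑ j, Pm B j)) :
    ((m - 1 : ℕ) : ENNReal) ≤ rc A := by
  unfold rc
  refine le_iInf fun r => le_iInf fun hr => ?_
  by_contra hcon
  push Not at hcon
  have hrm : (r : ℝ) < m - 1 := by
    have h1 : r < ((m - 1 : ℕ) : NNReal) := by exact_mod_cast hcon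
    have h2 : (r : ℝ) < ((m - 1 : ℕ) : ℝ) := by exact_mod_cast h1
    rwa [Nat.cast_pred hm] at h2
  apply h
  refine hr (m * 2) _ _ ?_ ?_ fun τ => ?_
  · rw [← corn_star_mul]
    exact star_mul_self_nonneg _
  · rw [← sum_Pm_mul hB]
    exact star_mul_self_nonneg _
  · unfold TwoQuasitrace.d
    rw [dimLim_proj _ (corn_star_mul _), dimLim_proj _ (sum_Pm_mul hB),
      tau_corn τ _ (by omega), tau_sum_Pm hB hm]
    simp only [Complex.one_re, Complex.natCast_re]
    linarith

end PartB

end Pool.Agent.Lib.P81d4f5
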