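import Pool.Agent.Lib.P81d4f5.Full

/-!
Separability and the Rokhlin property.
-/

open scoped ComplexOrder
open Filter Topology CStarLim

namespace Pool.Agent.Lib.P81d4f5

section Sep

variable {X : Type} [Countable X] {J : Type} [Fintype J] [DecidableEq J]

instance secondCountable_Balg (wt : J → Finset X) : SecondCountableTopology (Balg wt) :=
  inferInstanceAs (SecondCountableTopology
    ((Balg wt : StarSubalgebra ℂ C(X → S3, MJ J)) : Set C(X → S3, MJ J)))

end Sep

section

variable {G : Type} {l : ℕ → ℕ} {m : ℕ} [Group G] [Fintype G] [DecidableEq G]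

theorem separable_sys : TopologicalSpace.SeparableSpace (sys G l m).Lim := by
  refine IndSys.separableSpace_lim fun n => ?_
  have : SecondCountableTopology (G → Balg (wts G l m n)) := inferInstance
  have h : TopologicalSpace.SeparableSpace (G → Balg (wts G l m n)) := inferInstance
  exact h

variable (G l m) in
/-- the action on the limit -/
noncomputable def actSys : G →* ((sys G l m).Lim ≃⋆ₐ[ℂ] (sys G l m).Lim) :=
  IndSys.act (tra G l m) (fun n g a => sys_tra G l m n g a)

theorem actSys_ι (g : G) (n : ℕ) (a : AA G l m n) :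
    actSys G l m g ((sys G l m).ι n a) = (sys G l m).ι n (tra G l m n g a) :=
  IndSys.act_ι _ _ g n a

variable (G l m) in
/-- the central projections at stage `n` -/
noncomputable def prj (n : ℕ) (g : G) : AA G l m n := Pi.single g 1

theorem prj_apply (n : ℕ) (g b : G) : prj G l m n g b = if b = g then 1 else 0 := by
  unfold prj
  rw [Pi.single_apply]

theorem prj_star_mul (n : ℕ) (g : G) : star (prj G l m n g) * prj G l m n g = prj G l m n g := by
  funext b
  rw [Pi.mul_apply, Pi.star_apply, prj_apply]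
  split_ifs <;> simp

theorem prj_mul_ne (n : ℕ) {g h : G} (hgh : g ≠ h) : prj G l m n g * prj G l m n h = 0 := by
  funext b
  rw [Pi.mul_apply, prj_apply, prj_apply, Pi.zero_apply]
  by_cases h1 : b = g
  · have h2 : b ≠ h := fun h2 => hgh (h1.symm.trans h2)
    simp [h2]
  · simp [h1]

theorem prj_comm (n : ℕ) (g : G) (a : AA G l m n) : prj G l m n g * a = a * prj G l m n g := by
  funext b
  rw [Pi.mul_apply, Pi.mul_apply, prj_apply]
  split_ifs <;> simp

theorem prj_sum (n : ℕ) : ∑ g, prj G l m n g = 1 := by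
  funext b
  rw [Finset.sum_apply, Pi.one_apply]
  simp_rw [prj_apply]
  rw [Finset.sum_ite_eq]
  simp

theorem tra_prj (n : ℕ) (g h : G) : tra G l m n g (prj G l m n h) = prj G l m n (g * h) := by
  funext b
  change prj G l m n h (g⁻¹ * b) = prj G l m n (g * h) b
  rw [prj_apply, prj_apply]
  congr 1
  rw [inv_mul_eq_iff_eq_mul]

theorem norm_prj_le (n : ℕ) (g : G) : ‖prj G l m n g‖ ≤ 1 := by
  refine (pi_norm_le_iff_of_nonneg zero_le_one).2 fun b => ?_
  rw [prj_apply]
  split_ifs
  · rcases subsingleton_or_nontrivial (Balg (wts G l m n)) with h | h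
    · rw [Subsingleton.elim (1 : Balg (wts G l m n)) 0, norm_zero]
      exact zero_le_one
    · exact le_of_eq CStarRing.norm_one
  · rw [norm_zero]
    exact zero_le_one

theorem weakTracialRokhlin_sys [PartialOrder (sys G l m).Lim] [StarOrderedRing (sys G l m).Lim] :
    WeakTracialRokhlin (actSys G l m) := by
  intro F ε hε x hx0 hx1
  obtain ⟨n, -, a, ha⟩ := IndSys.exists_ι_norm_sub_lt_family (s := sys G l m)
    (fun i : F => (i : (sys G l m).Lim)) (by positivity : 0 < ε / 2) 0
  have hsum : ∑ g, (sys G l m).ι n (prj G l m n g) = 1 := by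
    rw [← map_sum, prj_sum, map_one]
  refine ⟨fun g => (sys G l m).ι n (prj G l m n g), ?_, ?_, ?_, ?_, ?_, ?_, ?_⟩
  · intro g
    change 0 ≤ (sys G l m).ι n (prj G l m n g)
    rw [← prj_star_mul, map_mul, map_star]
    exact star_mul_self_nonneg _
  · intro g
    rw [IndSys.norm_ι]
    exact norm_prj_le n g
  · intro g h hgh
    rw [← map_mul, prj_mul_ne n hgh, map_zero]
  · intro g h
    rw [actSys_ι, tra_prj, sub_self, norm_zero]
    exact hε
  · intro g b hb
    have h1 := ha ⟨b, hb⟩
    simp only at h1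
    set a' := a ⟨b, hb⟩
    set p := (sys G l m).ι n (prj G l m n g) with hp
    have h2 : p * (sys G l m).ι n a' = (sys G l m).ι n a' * p := by
      rw [hp, ← map_mul, ← map_mul, prj_comm]
    have h3 : p * b - b * p = p * (b - (sys G l m).ι n a') - (b - (sys G l m).ι n a') * p := by
      rw [mul_sub, sub_mul, h2]
      abel
    have hp1 : ‖p‖ ≤ 1 := by
      rw [hp, IndSys.norm_ι]
      exact norm_prj_le n g
    rw [h3]
    calc _ ≤ ‖p * (b - (sys G l m).ι n a')‖ + ‖(b - (sys G l m).ι n a') * p‖ := norm_sub_le _ _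
      _ ≤ ‖p‖ * ‖b - (sys G l m).ι n a'‖ + ‖b - (sys G l m).ι n a'‖ * ‖p‖ :=
          add_le_add (norm_mul_le _ _) (norm_mul_le _ _)
      _ ≤ 1 * ‖b - (sys G l m).ι n a'‖ + ‖b - (sys G l m).ι n a'‖ * 1 := by
          gcongr
      _ < ε := by linarith
  · refine ⟨fun _ => 0, ?_⟩
    rw [hsum, sub_self]
    simp
  · rw [hsum, one_mul, mul_one, hx1]
    linarith

end

end Pool.Agent.Lib.P81d4f5
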