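import Pool.Agent.Lib.P81d4f5.Level
import Pool.Agent.Lib.P81d4f5.Rok
import Pool.Agent.Lib.P81d4f5.Quasi

/-!
The lower bound for the radius of comparison.
-/

open scoped ComplexOrder
open Filter Topology CStarLim

namespace Pool.Agent.Lib.P81d4f5

section

variable {G : Type} {l : ℕ → ℕ} {m : ℕ} [Group G] [Fintype G] [DecidableEq G]

variable (G l m) in
/-- products of coordinate functions -/
noncomputable def uf (j : Fin m) (a b : Fin 2) : C(XX G l m → S3, ℂ) :=
  ⟨fun x => star (S3.co a (x (Sum.inl j))) * S3.co b (x (Sum.inl j)), by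
    refine Continuous.mul ?_ ?_
    · exact continuous_star.comp ((S3.continuous_co a).comp (continuous_apply _))
    · exact (S3.continuous_co b).comp (continuous_apply _)⟩

theorem uf_apply (j : Fin m) (a b : Fin 2) (x : XX G l m → S3) :
    uf G l m j a b x = star (S3.co a (x (Sum.inl j))) * S3.co b (x (Sum.inl j)) := rfl

theorem uf_rot (j : Fin m) (a b : Fin 2) (c : XX G l m → Circle) (x : XX G l m → S3) :
    uf G l m j a b (rotm c x) = uf G l m j a b x := by
  rw [uf_apply, uf_apply]
  simp only [rotm, S3.co_rot, star_mul']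
  have h := circle_mul_star (c (Sum.inl j))
  linear_combination (star (S3.co a (x (Sum.inl j))) * S3.co b (x (Sum.inl j))) * h

variable (G l m) in
/-- the elements at level zero -/
noncomputable def ub (j : Fin m) (a b : Fin 2) : AA G l m 0 :=
  fun _ => scal (wts G l m 0) (uf G l m j a b) (uf_rot j a b)

theorem scal_mul_scal {X : Type} {J : Type} [Fintype J] [DecidableEq J] {wt : J → Finset X}
    (u v : C(X → S3, ℂ)) (hu : ∀ c x, u (rotm c x) = u x) (hv : ∀ c x, v (rotm c x) = v x)
    (x : X → S3) : (scal wt u hu * scal wt v hv).1 x = (u x * v x) • (1 : MJ J) := by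
  rw [Balg_mul, scal_apply, scal_apply, smul_mul_smul_comm, one_mul]

variable (G l m) in
/-- the elements of the limit -/
noncomputable def Bl (j : Fin m) (a b : Fin 2) : (sys G l m).Lim :=
  (sys G l m).ι 0 (ub G l m j a b)

theorem sphereRel_Bl [PartialOrder (sys G l m).Lim] [StarOrderedRing (sys G l m).Lim] :
    SphereRel (Bl G l m) where
  star_eq j a b := by
    unfold Bl
    rw [← map_star]
    congr 1
    funext g
    refine Balg_ext fun x => ?_
    change star (uf G l m j a b x • (1 : MJ (JJ G l 0))) = uf G l m j b a x • (1 : MJ (JJ G l 0))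
    rw [star_smul, star_one, uf_apply, uf_apply, star_mul', star_star, mul_comm]
  exch j a b c d := by
    unfold Bl
    rw [← map_mul, ← map_mul]
    congr 1
    funext g
    refine Balg_ext fun x => ?_
    change (scal _ _ _ * scal _ _ _ : Balg (wts G l m 0)).1 x =
      (scal _ _ _ * scal _ _ _ : Balg (wts G l m 0)).1 x
    rw [scal_mul_scal, scal_mul_scal]
    congr 1
    simp only [uf_apply]
    ring
  sum_eq j := by
    unfold Bl
    rw [← map_sum, ← map_one ((sys G l m).ι 0)]
    congr 1
    funext g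
    refine Balg_ext fun x => ?_
    rw [Finset.sum_apply, Balg_sum, Pi.one_apply, Balg_one]
    have h1 : ∀ a, (ub G l m j a a g).1 x = uf G l m j a a x • (1 : MJ (JJ G l 0)) :=
      fun a => rfl
    simp_rw [h1, ← Finset.sum_smul]
    have h2 : ∑ a, uf G l m j a a x = 1 := by
      simp only [uf_apply]
      rw [← S3.sum_conj (x (Sum.inl j))]
      exact Finset.sum_congr rfl fun a _ => mul_comm _ _
    rw [h2, one_smul]
  comm j a b k c d := by
    unfold Bl
    rw [← map_mul, ← map_mul]
    congr 1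
    funext g
    refine Balg_ext fun x => ?_
    change (scal _ _ _ * scal _ _ _ : Balg (wts G l m 0)).1 x =
      (scal _ _ _ * scal _ _ _ : Balg (wts G l m 0)).1 x
    rw [scal_mul_scal, scal_mul_scal, mul_comm]

theorem not_cuntz [PartialOrder (sys G l m).Lim] [StarOrderedRing (sys G l m).Lim] (hm : 0 < m) :
    ¬ CuntzLE (corn (m * 2) : CStarMatrix (Fin (m * 2)) (Fin (m * 2)) (sys G l m).Lim)
      (∑ j, Pm (Bl G l m) j) := by
  rintro ⟨v, hv⟩
  obtain ⟨k, hk⟩ := (hv.eventually (gt_mem_nhds (by norm_num : (0 : ℝ) < 1 / 2))).exists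
  let p0 : Fin (m * 2) := ⟨0, by omega⟩
  let b : Fin (m * 2) → Fin (m * 2) → (sys G l m).Lim := fun p q =>
    if (ix m q).1 = (ix m p).1 then Bl G l m (ix m p).1 (ix m p).2 (ix m q).2 else 0
  have hb : ∀ p q, (∑ j, Pm (Bl G l m) j) p q = b p q := by
    intro p q
    rw [sum_apply_cstar, Finset.sum_eq_single (ix m p).1]
    · change (if (ix m p).1 = (ix m p).1 ∧ (ix m q).1 = (ix m p).1 then _ else _) = _
      by_cases h : (ix m q).1 = (ix m p).1 <;> simp [b, h]
    · intro j _ hj
      change (if (ix m p).1 = j ∧ (ix m q).1 = j then _ else _) = _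
      rw [if_neg]
      rintro ⟨h, -⟩
      exact hj h.symm
    · intro h
      exact absurd (Finset.mem_univ _) h
  let Ψ : (Fin (m * 2) → (sys G l m).Lim) → (sys G l m).Lim := fun r =>
    ∑ p, r p * ∑ q, b p q * star (r q)
  have hΨc : Continuous Ψ := by
    refine continuous_finsetSum _ fun p _ => ?_
    refine (continuous_apply p).mul (continuous_finsetSum _ fun q _ => ?_)
    exact continuous_const.mul (continuous_star.comp (continuous_apply q))
  have h0 : ‖Ψ (fun p => v k p0 p) - 1‖ < 1 / 2 := by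
    have h1 : (v k * (∑ j, Pm (Bl G l m) j) * star (v k) - corn (m * 2) :
        CStarMatrix (Fin (m * 2)) (Fin (m * 2)) (sys G l m).Lim) p0 p0 =
        Ψ (fun p => v k p0 p) - 1 := by
      rw [CStarMatrix.sub_apply]
      congr 1
      · rw [mul_assoc, CStarMatrix.mul_apply]
        refine Finset.sum_congr rfl fun p _ => ?_
        rw [CStarMatrix.mul_apply]
        congr 1
        refine Finset.sum_congr rfl fun q _ => ?_
        rw [hb, CStarMatrix.star_apply]
    rw [← h1]
    exact (CStarMatrix.norm_entry_le_norm).trans_lt hk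
  have hopen : IsOpen {r | ‖Ψ r - 1‖ < 1 / 2} :=
    isOpen_lt (continuous_norm.comp (hΨc.sub continuous_const)) continuous_const
  obtain ⟨δ, hδ, hball⟩ := Metric.isOpen_iff.1 hopen _ h0
  obtain ⟨n, -, ρ, hρ⟩ := IndSys.exists_ι_norm_sub_lt_family (s := sys G l m)
    (fun p => v k p0 p) hδ 0
  have h1 : ‖Ψ (fun p => (sys G l m).ι n (ρ p)) - 1‖ < 1 / 2 := by
    refine hball ?_
    rw [Metric.mem_ball, dist_pi_lt_iff hδ]
    intro p
    rw [dist_comm, dist_eq_norm]
    exact hρ p
  -- move to the finite level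
  let bn : Fin (m * 2) → Fin (m * 2) → AA G l m n := fun p q =>
    if (ix m q).1 = (ix m p).1 then
      (sys G l m).gen 0 (ub G l m (ix m p).1 (ix m p).2 (ix m q).2) n else 0
  have hbn : ∀ p q, (sys G l m).ι n (bn p q) = b p q := by
    intro p q
    by_cases h : (ix m q).1 = (ix m p).1
    · simp only [bn, b, if_pos h]
      exact IndSys.ι_gen 0 _ (Nat.zero_le n)
    · simp only [bn, b, if_neg h, map_zero]
  set w : Fin (m * 2) → AA G l m n := fun p => ∑ q, bn p q * star (ρ q) with hw
  have h2 : Ψ (fun p => (sys G l m).ι n (ρ p)) = (sys G l m).ι n (∑ p, ρ p * w p) := by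
    simp only [Ψ, hw, map_sum, map_mul, hbn, map_star]
  rw [h2, ← map_one ((sys G l m).ι n), ← map_sub, IndSys.norm_ι] at h1
  obtain ⟨x, hx⟩ := obstruct_level n (fun j a => ρ ((ix m).symm (j, a))) (1 : G)
  -- the entries of `w` vanish
  have hw0 : ∀ p (i : JJ G l n), ((w p 1).1 x).e i (star0 G l n) = 0 := by
    intro p i
    have e1 : (w p 1).1 x = ∑ q, (bn p q 1).1 x * star ((ρ q 1).1 x) := by
      rw [hw]
      simp only
      rw [Finset.sum_apply, Balg_sum]
      rfl
    rw [e1, MJ.e_sum]
    simp only [MJ.e_mul, MJ.e_star]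
    have e2 : ∀ q, ∑ k', ((bn p q 1).1 x).e i k' * star (((ρ q 1).1 x).e (star0 G l n) k') =
        if (ix m q).1 = (ix m p).1 then
          (fun c => star (S3.co (ix m p).2 (yy G l m n i x (Sum.inl (ix m p).1))) *
            (star (((ρ ((ix m).symm ((ix m p).1, c)) 1).1 x).e (star0 G l n) i) *
              S3.co c (yy G l m n i x (Sum.inl (ix m p).1)))) (ix m q).2 else 0 := by
      intro q
      by_cases h : (ix m q).1 = (ix m p).1
      · rw [if_pos h]
        have e3 : ∀ k', ((bn p q 1).1 x).e i k' = if i = k' then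
            uf G l m (ix m p).1 (ix m p).2 (ix m q).2 (yy G l m n i x) else 0 := by
          intro k'
          simp only [bn, if_pos h]
          exact gen_scal _ _ n 1 x i k'
        simp_rw [e3]
        rw [Finset.sum_eq_single i]
        · rw [if_pos rfl, uf_apply]
          have e4 : (ix m).symm ((ix m p).1, (ix m q).2) = q := by
            rw [← h, Prod.mk.eta, Equiv.symm_apply_apply]
          simp only [e4]
          ring
        · intro k' _ hk'
          rw [if_neg (Ne.symm hk'), zero_mul]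
        · intro h'
          exact absurd (Finset.mem_univ _) h'
      · rw [if_neg h]
        refine Finset.sum_eq_zero fun k' _ => ?_
        have : bn p q = 0 := by simp only [bn, if_neg h]
        rw [this]
        change (0 : ℂ) * _ = 0
        rw [zero_mul]
    simp_rw [e2]
    rw [sum_ix (A := ℂ) (ix m p).1 (fun c =>
      star (S3.co (ix m p).2 (yy G l m n i x (Sum.inl (ix m p).1))) *
            (star (((ρ ((ix m).symm ((ix m p).1, c)) 1).1 x).e (star0 G l n) i) *
              S3.co c (yy G l m n i x (Sum.inl (ix m p).1)))), ← Finset.mul_sum,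
      hx i (ix m p).1, mul_zero]
  -- the contradiction
  have h3 : (((∑ p, ρ p * w p - 1 : AA G l m n) 1).1 x).e (star0 G l n) (star0 G l n) = -1 := by
    have e1 : ((∑ p, ρ p * w p - 1 : AA G l m n) 1).1 x =
        (∑ p, (ρ p 1).1 x * (w p 1).1 x) - 1 := by
      have e2 : ((∑ p, ρ p * w p : AA G l m n) 1).1 x = ∑ p, (ρ p 1).1 x * (w p 1).1 x := by
        rw [Finset.sum_apply, Balg_sum]
        rfl
      rw [← e2]
      rfl
    rw [e1, MJ.e_sub, MJ.e_sum, MJ.e_one, if_pos rfl]
    have e3 : ∀ p, ((ρ p 1).1 x * (w p 1).1 x).e (star0 G l n) (star0 G l n) = 0 := by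
      intro p
      rw [MJ.e_mul]
      refine Finset.sum_eq_zero fun i _ => ?_
      rw [hw0, mul_zero]
    simp_rw [e3]
    simp
  have h4 : (1 : ℝ) ≤ ‖(∑ p, ρ p * w p - 1 : AA G l m n)‖ := by
    calc (1 : ℝ) = ‖(((∑ p, ρ p * w p - 1 : AA G l m n) 1).1 x).e
          (star0 G l n) (star0 G l n)‖ := by rw [h3]; simp
      _ ≤ ‖((∑ p, ρ p * w p - 1 : AA G l m n) 1).1 x‖ := MJ.norm_e_le _ _ _
      _ ≤ ‖(∑ p, ρ p * w p - 1 : AA G l m n) 1‖ := norm_Balg_apply_le _ _
      _ ≤ _ := norm_le_pi_norm (∑ p, ρ p * w p - 1 : AA G l m n) 1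
  linarith

theorem rc_sys [PartialOrder (sys G l m).Lim] [StarOrderedRing (sys G l m).Lim] (hm : 0 < m) :
    ((m - 1 : ℕ) : ENNReal) ≤ rc (sys G l m).Lim :=
  rc_ge_of_not_cuntz sphereRel_Bl hm (not_cuntz hm)

end

end Pool.Agent.Lib.P81d4f5
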