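import Pool.Agent.Lib.P81d4f5.Units

/-!
The inductive system.
-/

open CStarLim Filter Topology

namespace Pool.Agent.Lib.P81d4f5

section Types

variable (G : Type) (l : ℕ → ℕ) (m : ℕ)

/-- index types of the matrix algebras -/
def JJ : ℕ → Type
  | 0 => Unit
  | n + 1 => JJ n ⊕ (JJ n × G × Fin (l n))

noncomputable instance instFintypeJJ [Fintype G] : ∀ n, Fintype (JJ G l n)
  | 0 => inferInstanceAs (Fintype Unit)
  | n + 1 =>
    letI := instFintypeJJ n
    inferInstanceAs (Fintype (JJ G l n ⊕ (JJ G l n × G × Fin (l n))))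

noncomputable instance instDecEqJJ [DecidableEq G] : ∀ n, DecidableEq (JJ G l n)
  | 0 => inferInstanceAs (DecidableEq Unit)
  | n + 1 =>
    letI := instDecEqJJ n
    inferInstanceAs (DecidableEq (JJ G l n ⊕ (JJ G l n × G × Fin (l n))))

/-- the coordinates -/
abbrev XX : Type := Fin m ⊕ (Σ n : ℕ, Fin m × (JJ G l n × G × Fin (l n)))

noncomputable instance decEqXX : DecidableEq (XX G l m) := Classical.decEq _

/-- the new coordinates at stage `n` -/
noncomputable def newc [Fintype G] (n : ℕ) : Finset (XX G l m) :=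
  Finset.univ.map ⟨fun p : Fin m × (JJ G l n × G × Fin (l n)) => Sum.inr ⟨n, p⟩, by
    intro p q h
    have h1 := Sum.inr_injective h
    simpa using h1⟩

theorem mem_newc [Fintype G] (n : ℕ) (p : Fin m × (JJ G l n × G × Fin (l n))) :
    (Sum.inr ⟨n, p⟩ : XX G l m) ∈ newc G l m n := by
  rw [newc, Finset.mem_map]
  exact ⟨p, Finset.mem_univ _, rfl⟩

/-- the weights -/
noncomputable def wts [Fintype G] : ∀ n, JJ G l n → Finset (XX G l m)
  | 0 => fun _ => ∅
  | n + 1 => Sum.elim (wts n) (fun _ => newc G l m n)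

variable [Group G] [Fintype G] [DecidableEq G]

instance countable_XX : Countable (XX G l m) := inferInstance

/-- the evaluation points, every tail is dense -/
noncomputable def xpt (n : ℕ) : XX G l m → S3 :=
  TopologicalSpace.denseSeq (XX G l m → S3) (Nat.unpair n).1

theorem exists_xpt_mem (U : Set (XX G l m → S3)) (hU : IsOpen U) (hne : U.Nonempty) (N : ℕ) :
    ∃ n, N ≤ n ∧ xpt G l m n ∈ U := by
  obtain ⟨k, hk⟩ := (TopologicalSpace.denseRange_denseSeq (XX G l m → S3)).exists_mem_open
    hU hne
  refine ⟨Nat.pair k N, Nat.right_le_pair _ _, ?_⟩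
  unfold xpt
  rw [Nat.unpair_pair]
  exact hk

/-- the algebras -/
abbrev AA (n : ℕ) : Type := G → Balg (wts G l m n)

/-- the system -/
noncomputable def sys : IndSys (AA G l m) where
  map n := step (l n) (newc G l m n) (xpt G l m n)
  inj n := step_injective (l n) (newc G l m n) (xpt G l m n)

/-- the action -/
noncomputable def tra (n : ℕ) : G →* ((AA G l m n) ≃⋆ₐ[ℂ] (AA G l m n)) :=
  trans (wts G l m n)

theorem sys_tra (n : ℕ) (g : G) (a : AA G l m n) :
    (sys G l m).map n (tra G l m n g a) = tra G l m (n + 1) g ((sys G l m).map n a) :=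
  step_trans (l n) (newc G l m n) (xpt G l m n) g a

end Types

end Pool.Agent.Lib.P81d4f5
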