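import Pool.Agent.Lib.P81d4f5.TrState
import Pool.Agent.Lib.CStarLim.Limit

/-!
Existence of a tracial state on an inductive limit, as an ultrafilter limit.
-/

open scoped ComplexOrder
open Filter Topology CStarLim UniformSpace

namespace Pool.Agent.Lib.P81d4f5

section ULim

/-- the ultralimit of a bounded sequence of complex numbers -/
noncomputable def ulim (f : ℕ → ℂ) : ℂ := limUnder (hyperfilter ℕ : Filter ℕ) f

theorem tendsto_ulim {f : ℕ → ℂ} {C : ℝ} (hf : ∀ᶠ n in atTop, ‖f n‖ ≤ C) :
    Tendsto f (hyperfilter ℕ : Filter ℕ) (𝓝 (ulim f)) := by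
  apply tendsto_nhds_limUnder
  have hK : IsCompact (Metric.closedBall (0 : ℂ) C) := isCompact_closedBall 0 C
  have hle : (hyperfilter ℕ : Filter ℕ) ≤ atTop := by
    rw [← Nat.cofinite_eq_atTop]
    exact hyperfilter_le_cofinite
  have h1 : ((hyperfilter ℕ).map f : Filter ℂ) ≤ 𝓟 (Metric.closedBall (0 : ℂ) C) := by
    rw [Ultrafilter.coe_map, le_principal_iff, mem_map]
    filter_upwards [hf.filter_mono hle] with n hn
    simpa using hn
  obtain ⟨x, -, hx⟩ := hK.ultrafilter_le_nhds _ h1
  exact ⟨x, hx⟩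

end ULim

section

variable {A : ℕ → Type} [∀ n, CStarAlgebra (A n)] {s : IndSys A}

theorem exists_tracialState (t : ∀ n, A n →ₗ[ℂ] ℂ) (hb : ∀ n a, ‖t n a‖ ≤ ‖a‖)
    (h1 : ∀ n, t n 1 = 1) (htr : ∀ n a b, t n (a * b) = t n (b * a))
    (hpos : ∀ n a, 0 ≤ t n (star a * a)) : ∃ τ : s.Lim →ₗ[ℂ] ℂ, IsTracialState τ := by
  have hbd : ∀ a : s.Pre, ∀ᶠ n in atTop, ‖t n (a.seq n)‖ ≤ ‖a‖ := by
    intro a
    filter_upwards [a.eventually_norm] with n hn
    rw [← hn]
    exact hb n _
  have hT : ∀ a : s.Pre, Tendsto (fun n => t n (a.seq n)) (hyperfilter ℕ : Filter ℕ)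
      (𝓝 (ulim fun n => t n (a.seq n))) := fun a => tendsto_ulim (hbd a)
  have hle : (hyperfilter ℕ : Filter ℕ) ≤ atTop := by
    rw [← Nat.cofinite_eq_atTop]
    exact hyperfilter_le_cofinite
  let T : s.Pre →L[ℂ] ℂ := LinearMap.mkContinuous
    { toFun := fun a => ulim fun n => t n (a.seq n)
      map_add' := fun a b => by
        refine tendsto_nhds_unique (hT (a + b)) ?_
        refine ((hT a).add (hT b)).congr fun n => ?_
        rw [IndSys.Pre.seq_add, map_add]
      map_smul' := fun c a => by
        refine tendsto_nhds_unique (hT (c • a)) ?_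
        refine ((hT a).const_smul c).congr fun n => ?_
        rw [IndSys.Pre.seq_smul, map_smul] } 1
    (fun a => by
      rw [one_mul]
      refine le_of_tendsto ((hT a).norm) ?_
      exact (hbd a).filter_mono hle)
  have hTa : ∀ a : s.Pre, T a = ulim fun n => t n (a.seq n) := fun _ => rfl
  let τ : s.Lim → ℂ := Completion.extension T
  have hτc : Continuous τ := Completion.continuous_extension
  have hτ : ∀ a : s.Pre, τ (s.ofPre a) = T a := fun a =>
    Completion.extension_coe T.uniformContinuous a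
  have hadd : ∀ x y : s.Lim, τ (x + y) = τ x + τ y := by
    intro x y
    refine (IndSys.denseRange_ofPre (s := s)).induction_on₂
      (p := fun x y => τ (x + y) = τ x + τ y) ?_ (fun a b => ?_) x y
    · exact isClosed_eq (hτc.comp continuous_add)
        ((hτc.comp continuous_fst).add (hτc.comp continuous_snd))
    · rw [← map_add, hτ, hτ, hτ, map_add]
  have hsmul : ∀ (c : ℂ) (x : s.Lim), τ (c • x) = c • τ x := by
    intro c x
    refine (IndSys.denseRange_ofPre (s := s)).induction_on
      (p := fun x => τ (c • x) = c • τ x) x ?_ (fun a => ?_)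
    · exact isClosed_eq (hτc.comp (continuous_const_smul c)) (hτc.const_smul c)
    · rw [← map_smul, hτ, hτ, map_smul]
  refine ⟨{ toFun := τ, map_add' := hadd, map_smul' := hsmul }, ?_, ?_, ?_⟩
  · change τ 1 = 1
    rw [← map_one s.ofPre, hτ, hTa]
    refine tendsto_nhds_unique (hT 1) ?_
    refine (tendsto_const_nhds (x := (1 : ℂ))).congr fun n => ?_
    rw [IndSys.Pre.seq_one, h1]
  · intro x
    change 0 ≤ τ (star x * x)
    refine (IndSys.denseRange_ofPre (s := s)).induction_on
      (p := fun x => 0 ≤ τ (star x * x)) x ?_ (fun a => ?_)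
    · exact isClosed_le continuous_const (hτc.comp (continuous_star.mul continuous_id))
    · rw [← map_star, ← map_mul, hτ, hTa]
      refine ge_of_tendsto' (hT (star a * a)) fun n => ?_
      rw [IndSys.Pre.seq_mul, IndSys.Pre.seq_star]
      exact hpos n _
  · intro x y
    change τ (x * y) = τ (y * x)
    refine (IndSys.denseRange_ofPre (s := s)).induction_on₂
      (p := fun x y => τ (x * y) = τ (y * x)) ?_ (fun a b => ?_) x y
    · exact isClosed_eq (hτc.comp continuous_mul)
        (hτc.comp (continuous_snd.mul continuous_fst))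
    · rw [← map_mul, ← map_mul, hτ, hτ, hTa, hTa]
      refine tendsto_nhds_unique (hT (a * b)) ?_
      refine (hT (b * a)).congr fun n => ?_
      rw [IndSys.Pre.seq_mul, IndSys.Pre.seq_mul, htr]

end

end Pool.Agent.Lib.P81d4f5
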