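import Pool.Agent.Lib.P81d4f5.Defs

/-!
General facts on tracial states.
-/

open scoped ComplexOrder
open Filter Topology

namespace Pool.Agent.Lib.P81d4f5

section

variable {A : Type} [CStarAlgebra A]

namespace IsTracialState

variable {τ : A →ₗ[ℂ] ℂ} (h : IsTracialState τ)

include h in
theorem nonneg_of_nonneg [PartialOrder A] [StarOrderedRing A] {a : A} (ha : 0 ≤ a) : 0 ≤ τ a := by
  obtain ⟨y, rfl⟩ := CStarAlgebra.nonneg_iff_eq_star_mul_self.1 ha
  exact h.nonneg y

include h in
theorem mono [PartialOrder A] [StarOrderedRing A] {a b : A} (hab : a ≤ b) : τ a ≤ τ b := by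
  have := h.nonneg_of_nonneg (sub_nonneg.2 hab)
  rw [map_sub] at this
  exact sub_nonneg.1 this

include h in
theorem map_algebraMap (r : ℝ) : τ (algebraMap ℝ A r) = (r : ℂ) := by
  have : algebraMap ℝ A r = (r : ℂ) • (1 : A) := by
    rw [Algebra.algebraMap_eq_smul_one]
    exact (Complex.coe_smul r (1 : A)).symm
  rw [this, map_smul, h.map_one, smul_eq_mul, mul_one]

include h in
theorem norm_le_of_isSelfAdjoint [PartialOrder A] [StarOrderedRing A] {a : A}
    (ha : IsSelfAdjoint a) : ‖τ a‖ ≤ ‖a‖ := by
  have h1 := h.mono ha.le_algebraMap_norm_self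
  have h2 := h.mono ha.neg_algebraMap_norm_le_self
  rw [map_neg, h.map_algebraMap] at h2
  rw [h.map_algebraMap] at h1
  have h3 : (τ a).im = 0 := by
    have := (Complex.le_def.1 h1).2
    simpa using this
  have h4 : (τ a).re ≤ ‖a‖ := by simpa using (Complex.le_def.1 h1).1
  have h5 : -‖a‖ ≤ (τ a).re := by simpa using (Complex.le_def.1 h2).1
  have h6 : τ a = ((τ a).re : ℂ) := Complex.ext (by simp) (by simp [h3])
  rw [h6, Complex.norm_real, Real.norm_eq_abs]
  exact abs_le.2 ⟨h5, h4⟩

include h in
theorem norm_le (a : A) : ‖τ a‖ ≤ 2 * ‖a‖ := by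
  let _ := CStarAlgebra.spectralOrder A
  have := CStarAlgebra.spectralOrderedRing A
  have h1 : a = (realPart a : A) + Complex.I • (imaginaryPart a : A) :=
    (realPart_add_I_smul_imaginaryPart a).symm
  have h2 : τ a = τ (realPart a : A) + Complex.I * τ (imaginaryPart a : A) := by
    conv_lhs => rw [h1]
    rw [map_add, map_smul, smul_eq_mul]
  rw [h2]
  refine (norm_add_le _ _).trans ?_
  rw [norm_mul, Complex.norm_I, one_mul, two_mul]
  refine add_le_add ?_ ?_
  · exact (h.norm_le_of_isSelfAdjoint (realPart a).2).trans (realPart.norm_le a)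
  · exact (h.norm_le_of_isSelfAdjoint (imaginaryPart a).2).trans (imaginaryPart.norm_le a)

include h in
theorem conj_le (a x : A) : τ (star x * (star a * a) * x) ≤ ((‖a‖ ^ 2 : ℝ) : ℂ) * τ (star x * x) := by
  let _ := CStarAlgebra.spectralOrder A
  have := CStarAlgebra.spectralOrderedRing A
  have h1 : star a * a ≤ algebraMap ℝ A (‖a‖ ^ 2) := CStarAlgebra.star_mul_le_algebraMap_norm_sq
  have h2 := star_left_conjugate_le_conjugate h1 x
  have h3 := h.mono h2
  refine h3.trans (le_of_eq ?_)
  have h4 : star x * (algebraMap ℝ A (‖a‖ ^ 2)) * x = ((‖a‖ ^ 2 : ℝ) : ℂ) • (star x * x) := by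
    rw [Algebra.algebraMap_eq_smul_one, mul_smul_comm, mul_one, smul_mul_assoc]
    exact (Complex.coe_smul _ _).symm
  rw [h4, map_smul, smul_eq_mul]

/-- the null ideal of a tracial state -/
noncomputable def nullIdeal : TwoSidedIdeal A :=
  TwoSidedIdeal.mk' {x | τ (star x * x) = 0} (by simp)
    (by
      intro x y hx hy
      simp only [Set.mem_ofPred_eq] at hx hy ⊢
      have h1 : τ (star (x + y) * (x + y)) + τ (star (x - y) * (x - y)) = 0 := by
        rw [← map_add]
        have : star (x + y) * (x + y) + star (x - y) * (x - y) =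
            (2 : ℂ) • (star x * x) + (2 : ℂ) • (star y * y) := by
          rw [star_add, star_sub, two_smul, two_smul]
          noncomm_ring
        rw [this, map_add, map_smul, map_smul, hx, hy, smul_zero, add_zero]
      have h2 := h.nonneg (x + y)
      have h3 := h.nonneg (x - y)
      refine le_antisymm ?_ h2
      have : τ (star (x + y) * (x + y)) = - τ (star (x - y) * (x - y)) := by
        linear_combination h1
      rw [this]
      exact neg_nonpos.2 h3)
    (by
      intro x hx
      simp only [Set.mem_ofPred_eq] at hx ⊢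
      rw [star_neg, neg_mul_neg, hx])
    (by
      intro a x hx
      simp only [Set.mem_ofPred_eq] at hx ⊢
      refine le_antisymm ?_ (h.nonneg _)
      have h1 := h.conj_le a x
      rw [hx, mul_zero] at h1
      have h2 : star (a * x) * (a * x) = star x * (star a * a) * x := by
        rw [star_mul]
        noncomm_ring
      rw [h2]
      exact h1)
    (by
      intro x a hx
      simp only [Set.mem_ofPred_eq] at hx ⊢
      refine le_antisymm ?_ (h.nonneg _)
      have h1 := h.conj_le (star a) (star x)
      rw [star_star, star_star, h.tracial x (star x), hx, mul_zero] at h1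
      have h2 : τ (star (x * a) * (x * a)) = τ (x * (a * star a) * star x) := by
        rw [h.tracial, star_mul]
        congr 1
        noncomm_ring
      rw [h2]
      exact h1)

theorem mem_nullIdeal (x : A) : x ∈ h.nullIdeal ↔ τ (star x * x) = 0 := by
  unfold nullIdeal
  rw [TwoSidedIdeal.mem_mk']
  rfl

include h in
theorem faithful [IsSimpleRing A] {x : A} (hx : τ (star x * x) = 0) : x = 0 := by
  have h1 := (h.mem_nullIdeal x).2 hx
  rcases eq_bot_or_eq_top h.nullIdeal with h2 | h2
  · rw [h2] at h1
    exact (TwoSidedIdeal.mem_bot A).1 h1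
  · exfalso
    have h3 : (1 : A) ∈ h.nullIdeal := by rw [h2]; trivial
    rw [h.mem_nullIdeal, star_one, one_mul, h.map_one] at h3
    exact one_ne_zero h3

end IsTracialState

end

section

variable {A : Type} [CStarAlgebra A] [PartialOrder A] [StarOrderedRing A]

theorem sum_apply_cstar {κ : Type*} {n : ℕ} (s : Finset κ)
    (f : κ → CStarMatrix (Fin n) (Fin n) A) (i j : Fin n) :
    (∑ k ∈ s, f k) i j = ∑ k ∈ s, f k i j := by
  classical
  induction s using Finset.induction_on with
  | empty => simp
  | insert a s ha ih => rw [Finset.sum_insert ha, Finset.sum_insert ha, CStarMatrix.add_apply, ih]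

theorem stablyFinite_of_simple [IsSimpleRing A] {τ : A →ₗ[ℂ] ℂ} (h : IsTracialState τ) :
    StablyFinite A := by
  intro n v hv
  have htr : ∀ M N : CStarMatrix (Fin n) (Fin n) A,
      ∑ i, τ ((M * N) i i) = ∑ i, τ ((N * M) i i) := by
    intro M N
    simp_rw [CStarMatrix.mul_apply, map_sum]
    rw [Finset.sum_comm]
    refine Finset.sum_congr rfl fun i _ => Finset.sum_congr rfl fun j _ => ?_
    exact h.tracial _ _
  set p := 1 - v * star v with hp
  have hpp : star p * p = p := by
    have e1 : v * star v * (v * star v) = v * star v := by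
      rw [mul_assoc, ← mul_assoc (star v), hv, one_mul]
    rw [hp, star_sub, star_one, star_mul, star_star]
    calc (1 - v * star v) * (1 - v * star v) = 1 - v * star v - v * star v +
          v * star v * (v * star v) := by noncomm_ring
      _ = 1 - v * star v := by rw [e1]; abel
  have h0 : ∑ i, τ (p i i) = 0 := by
    simp only [hp, CStarMatrix.sub_apply, map_sub, Finset.sum_sub_distrib]
    rw [htr v (star v), hv, sub_self]
  have h1 : ∑ i, ∑ j, τ (star (p j i) * p j i) = 0 := by
    rw [← h0]
    conv_rhs => rw [← hpp]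
    simp_rw [CStarMatrix.mul_apply, map_sum, CStarMatrix.star_apply]
  have h2 : ∀ i j, τ (star (p j i) * p j i) = 0 := by
    intro i j
    have h3 := (Finset.sum_eq_zero_iff_of_nonneg (fun i _ =>
      Finset.sum_nonneg fun j _ => h.nonneg (p j i))).1 h1 i (Finset.mem_univ _)
    exact (Finset.sum_eq_zero_iff_of_nonneg (fun j _ => h.nonneg (p j i))).1 h3 j
      (Finset.mem_univ _)
  have h4 : p = 0 := CStarMatrix.ext fun j i => by
    rw [CStarMatrix.zero_apply]
    exact h.faithful (h2 i j)
  rw [hp, sub_eq_zero] at h4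
  exact h4.symm

end

end Pool.Agent.Lib.P81d4f5
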