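import Pool.Agent.Lib.P81d4f5.Sys
import Pool.Agent.Lib.P81d4f5.TrLim

/-!
Existence and uniqueness of the tracial state on the limit.
-/

open scoped ComplexOrder
open Filter Topology CStarLim

namespace Pool.Agent.Lib.P81d4f5

section Trf

variable {X : Type} {J : Type} [Fintype J] [DecidableEq J]

theorem trf_add {wt : J → Finset X} (f g : Balg wt) (x : X → S3) :
    trf (f + g) x = trf f x + trf g x := by
  simp only [trf_apply, Balg_add, MJ.e_add, Finset.sum_add_distrib]

theorem trf_smul {wt : J → Finset X} (c : ℂ) (f : Balg wt) (x : X → S3) :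
    trf (c • f) x = c * trf f x := by
  simp only [trf_apply, Balg_smul, MJ.e_smul, Finset.mul_sum]

theorem trf_one (wt : J → Finset X) (x : X → S3) :
    trf (1 : Balg wt) x = Fintype.card J := by
  simp only [trf_apply, Balg_one, MJ.e_one, if_true, Finset.sum_const, Finset.card_univ,
    nsmul_eq_mul, mul_one]

theorem trf_comm {wt : J → Finset X} (f g : Balg wt) (x : X → S3) :
    trf (f * g) x = trf (g * f) x := by
  simp only [trf_apply, Balg_mul, MJ.e_mul]
  rw [Finset.sum_comm]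
  exact Finset.sum_congr rfl fun i _ => Finset.sum_congr rfl fun j _ => mul_comm _ _

theorem trf_star_mul {wt : J → Finset X} (f : Balg wt) (x : X → S3) :
    trf (star f * f) x = ∑ i, ∑ j, ((‖(f.1 x).e j i‖ ^ 2 : ℝ) : ℂ) := by
  simp only [trf_apply, Balg_mul, Balg_star, MJ.e_mul, MJ.e_star]
  refine Finset.sum_congr rfl fun i _ => Finset.sum_congr rfl fun j _ => ?_
  rw [Complex.star_def, mul_comm, Complex.mul_conj, Complex.normSq_eq_norm_sq]

theorem trf_star_mul_nonneg {wt : J → Finset X} (f : Balg wt) (x : X → S3) :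
    0 ≤ trf (star f * f) x := by
  rw [trf_star_mul]
  refine Finset.sum_nonneg fun i _ => Finset.sum_nonneg fun j _ => ?_
  exact Complex.zero_le_real.2 (sq_nonneg _)

theorem norm_Balg_apply_le {wt : J → Finset X} (f : Balg wt) (x : X → S3) : ‖f.1 x‖ ≤ ‖f‖ :=
  ContinuousMap.norm_coe_le_norm f.1 x

theorem norm_trf_le {wt : J → Finset X} (f : Balg wt) (x : X → S3) :
    ‖trf f x‖ ≤ Fintype.card J * ‖f‖ := by
  rw [trf_apply]
  refine (norm_sum_le _ _).trans ?_
  have : ∀ i ∈ (Finset.univ : Finset J), ‖(f.1 x).e i i‖ ≤ ‖f‖ := fun i _ =>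
    (MJ.norm_e_le _ _ _).trans (norm_Balg_apply_le f x)
  refine (Finset.sum_le_sum this).trans (le_of_eq ?_)
  rw [Finset.sum_const, Finset.card_univ, nsmul_eq_mul]

theorem norm_scal_le {wt : J → Finset X} (u : C(X → S3, ℂ))
    (hu : ∀ c x, u (rotm c x) = u x) {C : ℝ} (hC : 0 ≤ C) (h : ∀ x, ‖u x‖ ≤ C) :
    ‖scal wt u hu‖ ≤ C := by
  refine (ContinuousMap.norm_le _ hC).2 fun x => ?_
  change ‖u x • (1 : MJ J)‖ ≤ C
  rw [norm_smul]
  have h1 : ‖(1 : MJ J)‖ ≤ 1 := by
    rcases subsingleton_or_nontrivial (MJ J) with h | h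
    · rw [Subsingleton.elim (1 : MJ J) 0, norm_zero]
      exact zero_le_one
    · exact le_of_eq CStarRing.norm_one
  calc ‖u x‖ * ‖(1 : MJ J)‖ ≤ C * 1 := mul_le_mul (h x) h1 (norm_nonneg _) hC
    _ = C := mul_one C

end Trf

section TrfStep

variable {X : Type} {J : Type} [Fintype J] [DecidableEq J]
variable {G : Type} [Group G] [Fintype G] [DecidableEq G]

theorem trf_step {wt : J → Finset X} (l : ℕ) (N : Finset X) (x₀ : X → S3) (f : G → Balg wt)
    (b : G) (x : X → S3) :
    trf (step l N x₀ f b) x = trf (f b) x + l * ∑ c, trf (f c) x₀ := by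
  rw [trf_apply, Fintype.sum_sum_type]
  simp only [step_apply, blk_inl_inl, blk_inr_inr, if_true]
  congr 1
  rw [Fintype.sum_prod_type, Finset.sum_comm' (s := Finset.univ) (t := fun _ => Finset.univ)
    (t' := Finset.univ) (s' := fun _ => Finset.univ) (by simp)]
  rw [Fintype.sum_prod_type]
  simp only [Finset.sum_const, Finset.card_univ, Fintype.card_fin, nsmul_eq_mul,
    ← Finset.mul_sum]
  congr 1
  exact Fintype.sum_equiv (Equiv.mulLeft b) _ _ fun c => rfl

end TrfStep

section General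

theorem trace_conj_sum {B : Type} [CStarAlgebra B] {D : Type} [CStarAlgebra D]
    (φ : B →⋆ₐ[ℂ] D) (τ : D →ₗ[ℂ] ℂ) (hτ : ∀ a b, τ (a * b) = τ (b * a))
    {κ : Type} [Fintype κ] (E : κ → κ → B) (c : ℂ)
    (hE : ∑ p, ∑ q, star (E p q) * E p q = c • (1 : B)) (f : B) :
    c * τ (φ f) = τ (φ (∑ p, ∑ q, E p q * f * star (E p q))) := by
  have h1 : c * τ (φ f) = τ (φ (f * (c • (1 : B)))) := by
    rw [mul_smul_comm, mul_one, map_smul, map_smul, smul_eq_mul]
  rw [h1, ← hE]
  simp only [Finset.mul_sum, map_sum, map_mul]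
  refine Finset.sum_congr rfl fun p _ => Finset.sum_congr rfl fun q _ => ?_
  rw [hτ (φ (E p q) * φ f) (φ (star (E p q))), hτ (φ f)]
  congr 1
  noncomm_ring

end General

section IndSys

variable (G : Type) (l : ℕ → ℕ) (m : ℕ) [Group G] [Fintype G] [DecidableEq G]

theorem card_JJ_succ (n : ℕ) : Fintype.card (JJ G l (n + 1)) =
    Fintype.card (JJ G l n) * (1 + Fintype.card G * l n) := by
  have h : Fintype.card (JJ G l (n + 1)) =
      Fintype.card (JJ G l n ⊕ (JJ G l n × G × Fin (l n))) := rfl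
  rw [h, Fintype.card_sum, Fintype.card_prod, Fintype.card_prod, Fintype.card_fin]
  ring

theorem card_JJ_pos (n : ℕ) : 0 < Fintype.card (JJ G l n) := by
  induction n with
  | zero =>
    have h : Fintype.card (JJ G l 0) = Fintype.card Unit := rfl
    rw [h]
    simp
  | succ n ih =>
    rw [card_JJ_succ]
    positivity

/-- averaged normalized traces at the evaluation points -/
noncomputable def Tn (n : ℕ) : AA G l m n →ₗ[ℂ] ℂ where
  toFun a := ((Fintype.card G : ℂ) * (Fintype.card (JJ G l n) : ℂ))⁻¹ *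
    ∑ g, trf (a g) (xpt G l m n)
  map_add' a b := by
    simp only [Pi.add_apply, trf_add, Finset.sum_add_distrib, mul_add]
  map_smul' c a := by
    simp only [Pi.smul_apply, trf_smul, ← Finset.mul_sum, RingHom.id_apply, smul_eq_mul]
    ring

theorem Tn_apply (n : ℕ) (a : AA G l m n) : Tn G l m n a =
    ((Fintype.card G : ℂ) * (Fintype.card (JJ G l n) : ℂ))⁻¹ *
      ∑ g, trf (a g) (xpt G l m n) := rfl

theorem cG_ne : (Fintype.card G : ℂ) ≠ 0 := by
  exact_mod_cast Fintype.card_ne_zero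

theorem cJ_ne (n : ℕ) : (Fintype.card (JJ G l n) : ℂ) ≠ 0 := by
  exact_mod_cast (card_JJ_pos G l n).ne'

theorem Tn_one (n : ℕ) : Tn G l m n 1 = 1 := by
  rw [Tn_apply]
  simp only [Pi.one_apply, trf_one, Finset.sum_const, Finset.card_univ, nsmul_eq_mul]
  exact inv_mul_cancel₀ (mul_ne_zero (cG_ne G) (cJ_ne G l n))

theorem Tn_comm (n : ℕ) (a b : AA G l m n) : Tn G l m n (a * b) = Tn G l m n (b * a) := by
  rw [Tn_apply, Tn_apply]
  congr 1
  exact Finset.sum_congr rfl fun g _ => trf_comm _ _ _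

theorem Tn_nonneg (n : ℕ) (a : AA G l m n) : 0 ≤ Tn G l m n (star a * a) := by
  rw [Tn_apply]
  refine mul_nonneg ?_ (Finset.sum_nonneg fun g _ => trf_star_mul_nonneg _ _)
  have : ((Fintype.card G : ℂ) * (Fintype.card (JJ G l n) : ℂ))⁻¹ =
    (((Fintype.card G : ℝ) * (Fintype.card (JJ G l n) : ℝ))⁻¹ : ℝ) := by push_cast; rfl
  rw [this]
  exact Complex.zero_le_real.2 (by positivity)

theorem norm_Tn_le (n : ℕ) (a : AA G l m n) : ‖Tn G l m n a‖ ≤ ‖a‖ := by
  rw [Tn_apply, norm_mul]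
  have h1 : ‖∑ g, trf (a g) (xpt G l m n)‖ ≤
      Fintype.card G * (Fintype.card (JJ G l n) * ‖a‖) := by
    refine (norm_sum_le _ _).trans ?_
    have : ∀ g ∈ (Finset.univ : Finset G), ‖trf (a g) (xpt G l m n)‖ ≤
        Fintype.card (JJ G l n) * ‖a‖ := fun g _ =>
      (norm_trf_le _ _).trans (mul_le_mul_of_nonneg_left (norm_le_pi_norm a g) (by positivity))
    refine (Finset.sum_le_sum this).trans (le_of_eq ?_)
    rw [Finset.sum_const, Finset.card_univ, nsmul_eq_mul]
  have h2 : ‖((Fintype.card G : ℂ) * (Fintype.card (JJ G l n) : ℂ))⁻¹‖ =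
      ((Fintype.card G : ℝ) * (Fintype.card (JJ G l n) : ℝ))⁻¹ := by
    rw [norm_inv, norm_mul, Complex.norm_natCast, Complex.norm_natCast]
  rw [h2]
  have hpos : 0 < (Fintype.card G : ℝ) * (Fintype.card (JJ G l n) : ℝ) := by
    have h3 : 0 < (Fintype.card G : ℝ) := by exact_mod_cast Fintype.card_pos
    have h4 : 0 < (Fintype.card (JJ G l n) : ℝ) := by exact_mod_cast card_JJ_pos G l n
    positivity
  rw [inv_mul_le_iff₀ hpos]
  calc _ ≤ _ := h1
    _ = _ := by ring

theorem exists_tracialState_sys : ∃ τ : (sys G l m).Lim →ₗ[ℂ] ℂ, IsTracialState τ :=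
  exists_tracialState (Tn G l m) (norm_Tn_le G l m) (Tn_one G l m) (Tn_comm G l m)
    (Tn_nonneg G l m)

/-- matrix units, constant in the group -/
noncomputable def EE (n : ℕ) (p q : VI (wts G l m n)) : AA G l m n := fun _ => Eu _ p q

theorem sum_EE_star (n : ℕ) : ∑ p, ∑ q, star (EE G l m n p q) * EE G l m n p q =
    (Fintype.card (JJ G l n) : ℂ) • (1 : AA G l m n) := by
  funext b
  simp only [Finset.sum_apply, Pi.mul_apply, Pi.star_apply]
  exact sum_Eu_star _

/-- the trace as an element of the algebra -/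
noncomputable def trE (n : ℕ) (f : AA G l m n) : AA G l m n :=
  fun b => scal _ (trf (f b)) (trf_rot (f b))

theorem sum_EE_mul (n : ℕ) (f : AA G l m n) :
    ∑ p, ∑ q, EE G l m n p q * f * star (EE G l m n p q) = trE G l m n f := by
  funext b
  simp only [Finset.sum_apply, Pi.mul_apply, Pi.star_apply]
  exact sum_Eu_mul _ _

theorem trace_trE {D : Type} [CStarAlgebra D] (n : ℕ) (φ : AA G l m n →⋆ₐ[ℂ] D) (τ : D →ₗ[ℂ] ℂ)
    (hτ : ∀ a b, τ (a * b) = τ (b * a)) (f : AA G l m n) :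
    (Fintype.card (JJ G l n) : ℂ) * τ (φ f) = τ (φ (trE G l m n f)) := by
  rw [trace_conj_sum φ τ hτ (EE G l m n) _ (sum_EE_star G l m n) f, sum_EE_mul]

/-- the trace of the previous level as an element of the next algebra -/
noncomputable def trE' (n : ℕ) (f : AA G l m n) : AA G l m (n + 1) :=
  fun b => scal _ (trf (f b)) (trf_rot (f b))

theorem norm_trE'_le (n : ℕ) (f : AA G l m n) :
    ‖trE' G l m n f‖ ≤ Fintype.card (JJ G l n) * ‖f‖ := by
  have h0 : 0 ≤ (Fintype.card (JJ G l n) : ℝ) * ‖f‖ := by positivity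
  refine (pi_norm_le_iff_of_nonneg h0).2 fun b => ?_
  refine norm_scal_le _ _ h0 fun x => ?_
  exact (norm_trf_le _ _).trans (mul_le_mul_of_nonneg_left (norm_le_pi_norm f b) (by positivity))

theorem trE_map (n : ℕ) (f : AA G l m n) : trE G l m (n + 1) ((sys G l m).map n f) =
    trE' G l m n f + ((l n : ℂ) * ((Fintype.card G : ℂ) * (Fintype.card (JJ G l n) : ℂ) *
      Tn G l m n f)) • (1 : AA G l m (n + 1)) := by
  funext b
  refine Balg_ext fun x => ?_
  change trf ((sys G l m).map n f b) x • (1 : MJ (JJ G l (n + 1))) =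
    trf (f b) x • (1 : MJ (JJ G l (n + 1))) + ((l n : ℂ) * ((Fintype.card G : ℂ) *
      (Fintype.card (JJ G l n) : ℂ) * Tn G l m n f)) • (1 : MJ (JJ G l (n + 1)))
  rw [← add_smul]
  congr 1
  have h1 : trf ((sys G l m).map n f b) x = trf (f b) x + (l n : ℂ) *
      ∑ c, trf (f c) (xpt G l m n) := trf_step (l n) (newc G l m n) (xpt G l m n) f b x
  rw [h1, Tn_apply, mul_inv_cancel_left₀ (mul_ne_zero (cG_ne G) (cJ_ne G l n))]

variable {G l m}

theorem trace_close {τ : (sys G l m).Lim →ₗ[ℂ] ℂ} (h : IsTracialState τ) (n : ℕ)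
    (f : AA G l m n) : ‖τ ((sys G l m).ι n f) - Tn G l m n f‖ * (1 + Fintype.card G * l n) ≤
      3 * ‖f‖ := by
  have h1 := trace_trE G l m (n + 1) ((sys G l m).ι (n + 1)) τ h.tracial ((sys G l m).map n f)
  rw [trE_map, map_add, map_add, map_smul, map_smul, map_one, h.map_one, IndSys.ι_map,
    card_JJ_succ, smul_eq_mul, mul_one] at h1
  push_cast at h1
  set J : ℂ := (Fintype.card (JJ G l n) : ℂ) with hJ
  set g : ℂ := (Fintype.card G : ℂ) with hg
  have hJ0 : J ≠ 0 := cJ_ne G l n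
  have h2 : J * ((τ ((sys G l m).ι n f) - Tn G l m n f) * (1 + g * l n)) =
      τ ((sys G l m).ι (n + 1) (trE' G l m n f)) - J * Tn G l m n f := by
    linear_combination h1
  have h3 : ‖J‖ * (‖τ ((sys G l m).ι n f) - Tn G l m n f‖ * ‖(1 + g * l n : ℂ)‖) ≤
      2 * (Fintype.card (JJ G l n) * ‖f‖) + ‖J‖ * ‖f‖ := by
    rw [← norm_mul, ← norm_mul, h2]
    refine (norm_sub_le _ _).trans (add_le_add ?_ ?_)
    · refine (h.norm_le _).trans ?_
      rw [IndSys.norm_ι]
      exact mul_le_mul_of_nonneg_left (norm_trE'_le G l m n f) (by norm_num)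
    · rw [norm_mul]
      exact mul_le_mul_of_nonneg_left (norm_Tn_le G l m n f) (norm_nonneg _)
  have h4 : ‖J‖ = Fintype.card (JJ G l n) := by rw [hJ, Complex.norm_natCast]
  have h5 : ‖(1 + g * l n : ℂ)‖ = 1 + Fintype.card G * l n := by
    have : (1 + g * l n : ℂ) = ((1 + Fintype.card G * l n : ℝ) : ℂ) := by
      rw [hg]; push_cast; rfl
    rw [this, Complex.norm_real, Real.norm_of_nonneg (by positivity)]
  rw [h4, h5] at h3
  have h6 : (0 : ℝ) < Fintype.card (JJ G l n) := by exact_mod_cast card_JJ_pos G l n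
  have h7 : (Fintype.card (JJ G l n) : ℝ) * (‖τ ((sys G l m).ι n f) - Tn G l m n f‖ *
      (1 + Fintype.card G * l n)) ≤ (Fintype.card (JJ G l n) : ℝ) * (3 * ‖f‖) := by
    refine h3.trans (le_of_eq ?_)
    ring
  exact le_of_mul_le_mul_left h7 h6

theorem tracialState_unique (hl : Tendsto l atTop atTop) {τ τ' : (sys G l m).Lim →ₗ[ℂ] ℂ}
    (h : IsTracialState τ) (h' : IsTracialState τ') : τ = τ' := by
  have hc : ∀ {σ : (sys G l m).Lim →ₗ[ℂ] ℂ}, IsTracialState σ → Continuous σ := by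
    intro σ hσ
    exact AddMonoidHomClass.continuous_of_bound σ 2 hσ.norm_le
  refine LinearMap.ext fun x => ?_
  refine IndSys.lim_induction (P := fun x => τ x = τ' x) (isClosed_eq (hc h) (hc h'))
    (fun n f => ?_) x
  rw [← sub_eq_zero, ← norm_eq_zero]
  refine le_antisymm ?_ (norm_nonneg _)
  have key : ∀ k, n ≤ k → ‖τ ((sys G l m).ι n f) - τ' ((sys G l m).ι n f)‖ * (l k : ℝ) ≤
      6 * ‖f‖ := by
    intro k hk
    rw [← IndSys.ι_gen n f hk]
    have h1 := trace_close h k ((sys G l m).gen n f k)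
    have h2 := trace_close h' k ((sys G l m).gen n f k)
    rw [IndSys.norm_gen n f hk] at h1 h2
    set a := τ ((sys G l m).ι k ((sys G l m).gen n f k))
    set b := τ' ((sys G l m).ι k ((sys G l m).gen n f k))
    set t := Tn G l m k ((sys G l m).gen n f k)
    have h3 : ‖a - b‖ ≤ ‖a - t‖ + ‖b - t‖ := by
      have : a - b = (a - t) - (b - t) := by ring
      rw [this]
      exact norm_sub_le _ _
    have h4 : (1 : ℝ) ≤ Fintype.card G := by exact_mod_cast Fintype.card_pos
    have h5 : (l k : ℝ) ≤ 1 + Fintype.card G * l k := by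
      have h6 : (0 : ℝ) ≤ l k := by positivity
      nlinarith
    calc ‖a - b‖ * (l k : ℝ) ≤ (‖a - t‖ + ‖b - t‖) * (1 + Fintype.card G * l k) :=
          mul_le_mul h3 h5 (by positivity) (by positivity)
      _ = ‖a - t‖ * (1 + Fintype.card G * l k) + ‖b - t‖ * (1 + Fintype.card G * l k) := by ring
      _ ≤ 3 * ‖f‖ + 3 * ‖f‖ := add_le_add h1 h2
      _ = 6 * ‖f‖ := by ring
  by_contra hcon
  push Not at hcon
  set δ := ‖τ ((sys G l m).ι n f) - τ' ((sys G l m).ι n f)‖ with hδ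
  obtain ⟨L, hL⟩ := exists_nat_gt (6 * ‖f‖ / δ)
  obtain ⟨k, hk1, hk2⟩ := ((hl.eventually_ge_atTop L).and (eventually_ge_atTop n)).exists
  have h1 := key k hk2
  have h2 : (L : ℝ) ≤ l k := by exact_mod_cast hk1
  rw [div_lt_iff₀ hcon] at hL
  nlinarith

end IndSys

end Pool.Agent.Lib.P81d4f5
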