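import Pool.Agent.Lib.P81d4f5.Blocks

/-!
Approximate matrix units: sections of line bundles of norm one.
-/

namespace Pool.Agent.Lib.P81d4f5

section Hfun

variable {X : Type} [DecidableEq X]

/-- product of coordinate functions, a partition of unity of the line bundle of weight `w` -/
noncomputable def hfun (w : Finset X) (a : w → Fin 2) (x : X → S3) : ℂ :=
  ∏ s : w, S3.co (a s) (x s)

omit [DecidableEq X] in
theorem continuous_hfun (w : Finset X) (a : w → Fin 2) : Continuous (hfun w a) := by
  unfold hfun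
  refine continuous_finsetProd _ fun s _ => ?_
  exact (S3.continuous_co _).comp (continuous_apply _)

omit [DecidableEq X] in
theorem hfun_rot (w : Finset X) (a : w → Fin 2) (c : X → Circle) (x : X → S3) :
    hfun w a (rotm c x) = chi w c * hfun w a x := by
  unfold hfun chi
  rw [← Finset.prod_coe_sort w, ← Finset.prod_mul_distrib]
  exact Finset.prod_congr rfl fun s _ => S3.co_rot _ _ _

theorem sum_hfun (w : Finset X) (x : X → S3) :
    ∑ a : w → Fin 2, hfun w a x * star (hfun w a x) = 1 := by
  unfold hfun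
  have h : ∀ a : w → Fin 2, (∏ s : w, S3.co (a s) (x s)) * star (∏ s : w, S3.co (a s) (x s)) =
      ∏ s : w, (S3.co (a s) (x s) * star (S3.co (a s) (x s))) := by
    intro a
    rw [star_prod, Finset.prod_mul_distrib]
  simp_rw [h]
  have h2 := Finset.prod_univ_sum (fun _ : w => (Finset.univ : Finset (Fin 2)))
    (fun s a => S3.co a (x s) * star (S3.co a (x s)))
  rw [Fintype.piFinset_univ] at h2
  rw [← h2]
  exact Finset.prod_eq_one fun s _ => S3.sum_conj (x s)

end Hfun

section Units

variable {X : Type} [DecidableEq X] {J : Type} [Fintype J] [DecidableEq J]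

/-- index set of the sections -/
abbrev VI (wt : J → Finset X) : Type := Σ i : J, ((wt i) → Fin 2)

/-- norm-one sections -/
noncomputable def hsec {wt : J → Finset X} (p : VI wt) (x : X → S3) : ℂ := hfun (wt p.1) p.2 x

theorem sum_hsec (wt : J → Finset X) (x : X → S3) (u : J → ℂ) :
    ∑ p : VI wt, hsec p x * star (hsec p x) * u p.1 = ∑ i, u i := by
  rw [Fintype.sum_sigma]
  refine Finset.sum_congr rfl fun i _ => ?_
  have h : ∑ a : (wt i) → Fin 2, hsec (wt := wt) ⟨i, a⟩ x * star (hsec (wt := wt) ⟨i, a⟩ x) * u i =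
      (∑ a : (wt i) → Fin 2, hfun (wt i) a x * star (hfun (wt i) a x)) * u i := by
    rw [Finset.sum_mul]
    rfl
  rw [h, sum_hfun, one_mul]

/-- approximate matrix units -/
noncomputable def Eu (wt : J → Finset X) (p q : VI wt) : Balg wt :=
  ⟨⟨fun x => MJ.mk fun i j => if i = p.1 ∧ j = q.1 then hsec p x * star (hsec q x) else 0, by
      refine MJ.continuous_of_e fun i j => ?_
      change Continuous fun x => if i = p.1 ∧ j = q.1 then hsec p x * star (hsec q x) else 0
      split_ifs
      · exact (continuous_hfun _ _).mul (continuous_star.comp (continuous_hfun _ _))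
      · exact continuous_const⟩, by
    intro c x i j
    change (if i = p.1 ∧ j = q.1 then hsec p (rotm c x) * star (hsec q (rotm c x)) else 0) =
      chi (wt i) c * star (chi (wt j) c) *
        (if i = p.1 ∧ j = q.1 then hsec p x * star (hsec q x) else 0)
    split_ifs with h
    · unfold hsec
      rw [hfun_rot, hfun_rot, star_mul', h.1, h.2]
      ring
    · rw [mul_zero]⟩

theorem Eu_apply (wt : J → Finset X) (p q : VI wt) (x : X → S3) (i j : J) :
    ((Eu wt p q).1 x).e i j = if i = p.1 ∧ j = q.1 then hsec p x * star (hsec q x) else 0 := rfl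

theorem Eu_conj_apply (wt : J → Finset X) (p q : VI wt) (x : X → S3) (M : MJ J)
    (i j : J) : ((Eu wt p q).1 x * M * star ((Eu wt p q).1 x)).e i j =
      (hsec p x * star (hsec p x) * (if i = p.1 ∧ j = p.1 then 1 else 0)) *
        (hsec q x * star (hsec q x) * M.e q.1 q.1) := by
  rw [MJ.e_mul]
  simp only [MJ.e_star, MJ.e_mul, Eu_apply]
  have h1 : ∀ k : J, ∑ k' : J, (if i = p.1 ∧ k' = q.1 then hsec p x * star (hsec q x) else 0) *
      M.e k' k = (if i = p.1 then hsec p x * star (hsec q x) * M.e q.1 k else 0) := by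
    intro k
    rw [Finset.sum_eq_single q.1]
    · by_cases h : i = p.1 <;> simp [h]
    · intro b _ hb
      simp [hb]
    · intro h
      exact absurd (Finset.mem_univ _) h
  simp_rw [h1]
  rw [Finset.sum_eq_single q.1]
  · by_cases h : i = p.1 <;> by_cases h' : j = p.1
    · simp only [h, h', and_self, if_true, star_mul', star_star]
      ring
    · simp [h, h']
    · simp [h, h']
    · simp [h, h']
  · intro b _ hb
    simp [hb]
  · intro h
    exact absurd (Finset.mem_univ _) h

theorem Eu_star_mul_apply (wt : J → Finset X) (p q : VI wt) (x : X → S3)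
    (i j : J) : (star ((Eu wt p q).1 x) * (Eu wt p q).1 x).e i j =
      (hsec p x * star (hsec p x) * 1) *
        (hsec q x * star (hsec q x) * (if i = q.1 ∧ j = q.1 then 1 else 0)) := by
  rw [MJ.e_mul]
  simp only [MJ.e_star, Eu_apply]
  rw [Finset.sum_eq_single p.1]
  · by_cases h : i = q.1 <;> by_cases h' : j = q.1
    · simp only [h, h', and_self, if_true, star_mul', star_star]
      ring
    · simp [h, h']
    · simp [h, h']
    · simp [h, h']
  · intro b _ hb
    simp [hb]
  · intro h
    exact absurd (Finset.mem_univ _) h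

theorem sum_ite_diag (i j : J) : ∑ k : J, (if i = k ∧ j = k then (1 : ℂ) else 0) =
    if i = j then 1 else 0 := by
  by_cases h : i = j
  · subst h
    simp
  · have : ∀ k : J, (if i = k ∧ j = k then (1 : ℂ) else 0) = 0 := by
      intro k
      rw [if_neg]
      rintro ⟨h1, h2⟩
      exact h (h1.trans h2.symm)
    simp [this, h]

theorem sum_Eu_conj (wt : J → Finset X) (x : X → S3) (M : MJ J) :
    ∑ p : VI wt, ∑ q : VI wt, (Eu wt p q).1 x * M * star ((Eu wt p q).1 x) =
      (∑ i, M.e i i) • (1 : MJ J) := by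
  refine MJ.ext fun i j => ?_
  rw [MJ.e_sum, MJ.e_smul, MJ.e_one]
  simp_rw [MJ.e_sum, Eu_conj_apply, ← Finset.mul_sum, ← Finset.sum_mul]
  have h1 : ∑ p : VI wt, hsec p x * star (hsec p x) * (if i = p.1 ∧ j = p.1 then 1 else 0) =
      ∑ k : J, (if i = k ∧ j = k then (1 : ℂ) else 0) :=
    sum_hsec wt x (fun k => if i = k ∧ j = k then (1 : ℂ) else 0)
  have h2 : ∑ q : VI wt, hsec q x * star (hsec q x) * M.e q.1 q.1 = ∑ k : J, M.e k k :=
    sum_hsec wt x (fun k => M.e k k)
  rw [h1, h2, sum_ite_diag, mul_comm]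

theorem sum_Eu_star_mul (wt : J → Finset X) (x : X → S3) :
    ∑ p : VI wt, ∑ q : VI wt, star ((Eu wt p q).1 x) * (Eu wt p q).1 x =
      (Fintype.card J : ℂ) • (1 : MJ J) := by
  refine MJ.ext fun i j => ?_
  rw [MJ.e_sum, MJ.e_smul, MJ.e_one]
  simp_rw [MJ.e_sum, Eu_star_mul_apply, ← Finset.mul_sum, ← Finset.sum_mul]
  have h1 : (∑ p : VI wt, hsec p x * star (hsec p x)) * 1 = ∑ k : J, (1 : ℂ) := by
    rw [← sum_hsec wt x (fun k => 1), Finset.sum_mul]
  have h2 : ∑ q : VI wt, hsec q x * star (hsec q x) * (if i = q.1 ∧ j = q.1 then 1 else 0) =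
      ∑ k : J, (if i = k ∧ j = k then (1 : ℂ) else 0) :=
    sum_hsec wt x (fun k => if i = k ∧ j = k then (1 : ℂ) else 0)
  rw [h1, h2, sum_ite_diag, Finset.sum_const, Finset.card_univ, nsmul_eq_mul, mul_one]

/-- scalar functions as elements of the algebra -/
noncomputable def scal (wt : J → Finset X) (u : C(X → S3, ℂ))
    (hu : ∀ c x, u (rotm c x) = u x) : Balg wt :=
  ⟨⟨fun x => u x • (1 : MJ J), u.continuous.smul continuous_const⟩, by
    intro c x i j
    change (u (rotm c x) • (1 : MJ J)).e i j = chi (wt i) c * star (chi (wt j) c) *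
      (u x • (1 : MJ J)).e i j
    rw [hu, MJ.e_smul, MJ.e_one]
    split_ifs with h
    · rw [h, chi_mul_star, one_mul]
    · simp⟩

omit [DecidableEq X] in
theorem scal_apply (wt : J → Finset X) (u : C(X → S3, ℂ))
    (hu : ∀ c x, u (rotm c x) = u x) (x : X → S3) :
    (scal wt u hu).1 x = u x • (1 : MJ J) := rfl

/-- the trace function -/
noncomputable def trf {wt : J → Finset X} (f : Balg wt) : C(X → S3, ℂ) :=
  ⟨fun x => ∑ i, (f.1 x).e i i, continuous_finsetSum _ fun i _ =>
    (MJ.continuous_e i i).comp f.1.continuous⟩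

omit [DecidableEq X] in
theorem trf_apply {wt : J → Finset X} (f : Balg wt) (x : X → S3) :
    trf f x = ∑ i, (f.1 x).e i i := rfl

omit [DecidableEq X] in
theorem trf_rot {wt : J → Finset X} (f : Balg wt) (c : X → Circle) (x : X → S3) :
    trf f (rotm c x) = trf f x := by
  rw [trf_apply, trf_apply]
  refine Finset.sum_congr rfl fun i _ => ?_
  rw [f.2 c x i i, chi_mul_star, one_mul]

theorem sum_Eu_mul (wt : J → Finset X) (f : Balg wt) :
    ∑ p : VI wt, ∑ q : VI wt, Eu wt p q * f * star (Eu wt p q) =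
      scal wt (trf f) (trf_rot f) := by
  refine Balg_ext fun x => ?_
  simp only [Balg_sum, Balg_mul, Balg_star]
  rw [sum_Eu_conj, scal_apply, trf_apply]

theorem sum_Eu_star (wt : J → Finset X) :
    ∑ p : VI wt, ∑ q : VI wt, star (Eu wt p q) * Eu wt p q =
      (Fintype.card J : ℂ) • (1 : Balg wt) := by
  refine Balg_ext fun x => ?_
  simp only [Balg_sum, Balg_mul, Balg_star]
  rw [sum_Eu_star_mul, Balg_smul, Balg_one]

end Units

end Pool.Agent.Lib.P81d4f5
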